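import Pool.Agent.U832.RG.Fixed

/-!
# Fixed systems of polynomials, in terms of a function `g` with natural values
-/

set_option autoImplicit false

namespace Pool.Agent.U832.RG

open Polynomial Finset Filter

/-- The `n` for which `g n` has no prime factor `≤ y`. -/
def Rough (g : ℕ → ℕ) (y : ℕ) : Set ℕ := {n | ∀ p : ℕ, p.Prime → p ≤ y → ¬ p ∣ g n}

open Classical in
/-- The number of the `n` modulo `p` with `p ∣ g n` (for a function `g` that is periodic modulo `p`). -/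
noncomputable def w (g : ℕ → ℕ) (p : ℕ) : ℕ := ((range p).filter (fun n => p ∣ g n)).card

/-- The product of `1 - w g p / p` over the primes `p ≤ y`. -/
noncomputable def V (g : ℕ → ℕ) (y : ℕ) : ℝ := ∏ p ∈ (Icc 1 y).filter Nat.Prime, (1 - (w g p : ℝ) / p)

open Pool.Agent.W123.RP Pool.Agent.H373R2.T7 Pool.Agent.W123.RU Pool.Agent.W123.RU.Poly
open Pool.Agent.TH464.PW Pool.Agent.TH464.PO Pool.Agent.Y879.GL

variable {k : ℕ}

/-- a monic polynomial of degree 2 or 3 without integral roots is irreducible -/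
lemma irr_of_no_root (f : ℤ[X]) (hm : f.Monic) (h2 : 2 ≤ f.natDegree) (h3 : f.natDegree ≤ 3)
    (hr : ∀ z : ℤ, f.eval z ≠ 0) : Irreducible f := by
  rw [hm.irreducible_iff_irreducible_map_fraction_map (K := ℚ)]
  have hd : (f.map (algebraMap ℤ ℚ)).natDegree = f.natDegree :=
    natDegree_map_eq_of_injective (algebraMap ℤ ℚ).injective_int f
  have hne : f.map (algebraMap ℤ ℚ) ≠ 0 := (hm.map _).ne_zero
  apply Polynomial.irreducible_of_degree_le_three_of_not_isRoot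
  · rw [hd, mem_Icc]
    omega
  · intro x hx
    have h4 : aeval x f = 0 := by
      rw [IsRoot.def, eval_map] at hx
      rw [aeval_def]
      exact hx
    obtain ⟨z, hz⟩ := isInteger_of_is_root_of_monic hm h4
    apply hr z
    have h5 : (algebraMap ℤ ℚ) (f.eval z) = 0 := by
      rw [← hz] at h4
      rw [aeval_algebraMap_apply] at h4
      simpa using h4
    simpa using h5

lemma pz_eq' (y : ℕ) : pz y = (Icc 1 y).filter Nat.Prime := by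
  ext p
  rw [Pool.Agent.H373R2.T7.mem_pz, mem_filter, mem_Icc]
  constructor
  · exact fun h => ⟨⟨h.2.one_lt.le, h.1⟩, h.2⟩
  · exact fun h => ⟨h.1.2, h.2⟩

lemma fu_Q (f : Fin k → ℤ[X]) (g : ℕ → ℕ) (hg : ∀ n : ℕ, (g n : ℤ) = ∏ i, (f i).eval (n : ℤ)) (p : ℕ)
    (hp : p.Prime) (n : ℕ) : Q f p n ↔ p ∣ g n := by
  have hp' : Prime (p : ℤ) := Nat.prime_iff_prime_int.1 hp
  rw [← Int.natCast_dvd_natCast, hg, hp'.dvd_finsetProd_iff]
  unfold Q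
  simp

lemma fu_rough (f : Fin k → ℤ[X]) (g : ℕ → ℕ) (hg : ∀ n : ℕ, (g n : ℤ) = ∏ i, (f i).eval (n : ℤ)) (y n : ℕ) :
    n ∈ Rough g y ↔ Sf (Q f) y n := by
  constructor
  · intro h p hp
    rw [pz_eq', mem_filter, mem_Icc] at hp
    rw [fu_Q f g hg p hp.2]
    exact h p hp.2 hp.1.2
  · intro h p hp hpy
    have h1 := h p (by rw [pz_eq', mem_filter, mem_Icc]; exact ⟨⟨hp.one_lt.le, hpy⟩, hp⟩)
    rw [fu_Q f g hg p hp] at h1
    exact h1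

lemma fu_V (f : Fin k → ℤ[X]) (g : ℕ → ℕ) (hg : ∀ n : ℕ, (g n : ℤ) = ∏ i, (f i).eval (n : ℤ)) (y : ℕ) :
    Vq (Q f) y = V g y := by
  classical
  unfold Vq V
  rw [pz_eq']
  apply Finset.prod_congr rfl
  intro p hp
  congr 3
  unfold nuB w
  congr 1
  ext n
  rw [mem_filter, mem_filter, fu_Q f g hg p (mem_filter.1 hp).2]

/-- **Both parts for fixed systems.** -/
theorem fixed_main (f : Fin k → ℤ[X]) (hf : Sys f) (hk : 1 ≤ k) (hT : NoShift f) (g : ℕ → ℕ)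
    (hg : ∀ n : ℕ, (g n : ℤ) = ∏ i, (f i).eval (n : ℤ)) (θ : ℝ) (hθ : 0 < θ) :
    (∀ (J L : ℕ) (x₀ ε : ℝ), 0 < ε → ∃ r₀ : ℕ, ∀ r : ℕ, r₀ ≤ r → ∀ᶠ x : ℕ in atTop,
      ∀ y : ℕ, y = ⌊(x : ℝ) ^ (1 / (r : ℝ))⌋₊ → ∀ Z Y T : ℕ, (x : ℝ) ^ θ ≤ Y → T * V g y ≤ x₀ →
        PoissonLaw (Rough g y) (V g y) J L ε Z Y T) ∧
    ∃ r₀ : ℕ, 2 ≤ r₀ ∧ ∀ r : ℕ, r₀ ≤ r → ∀ ε : ℝ, 0 < ε → ∃ κ : ℝ, 0 < κ ∧ ∀ δ : ℝ, 0 < δ →
      ∃ M : ℕ, ∀ᶠ x : ℕ in atTop, ∀ y : ℕ, y = ⌊(x : ℝ) ^ (1 / (r : ℝ))⌋₊ →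
      ∀ u Y : ℕ, (x : ℝ) ^ θ ≤ Y → Y ≤ x → Y ≤ u → ∀ S : Set ℕ, S ⊆ Rough g y →
        (count (Irregular S (1 / V g y) κ δ M Y) u (u + Y) : ℝ) ≤ ε * (Y * V g y) := by
  constructor
  · intro J L x₀ ε hε
    obtain ⟨r₀, h⟩ := law_fixed f hf hk hT θ hθ J L x₀ ε hε
    refine ⟨r₀, fun r hr => ?_⟩
    filter_upwards [h r hr] with x hx
    intro y hy Z Y T hY hT'
    have h4 := hx Z Y hY T
    rw [← hy, fu_V f g hg] at h4
    exact h4 hT' (Rough g y) (fun m _ => fu_rough f g hg y m)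
  · obtain ⟨r₀, hr₀, h⟩ := her_fixed f hf hk hT θ hθ
    refine ⟨r₀, hr₀, fun r hr ε hε => ?_⟩
    obtain ⟨κ, hκ, h1⟩ := h r hr ε hε
    refine ⟨κ, hκ, fun δ hδ => ?_⟩
    obtain ⟨M, h2⟩ := h1 δ hδ
    refine ⟨M, ?_⟩
    filter_upwards [h2] with x hx
    intro y hy u Y hY hYx hYu S hS
    have h3 := hx u Y hY hYx hYu S (fun m hm => by rw [← hy]; exact (fu_rough f g hg y m).1 (hS hm))
    rw [← hy, fu_V f g hg] at h3
    exact h3

end Pool.Agent.U832.RG
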