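import Pool.Agent.U832.RG.Use
import Pool.Agent.Y879.GL.Linear

/-!
# Systems of linear forms with distinct slopes, uniformly in the coefficients
-/

set_option autoImplicit false

namespace Pool.Agent.U832.RG

open Polynomial Finset Filter
open Pool.Agent.W123.RP Pool.Agent.H373R2.T7 Pool.Agent.W123.RU Pool.Agent.W123.RU.Poly
open Pool.Agent.TH464.PW Pool.Agent.TH464.PO Pool.Agent.Y879.GL

/-- the system -/
noncomputable def ls {k : ℕ} (a b : Fin k → ℤ) : Fin k → ℤ[X] := fun i => lf (a i) (b i)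

/-- admissible systems of linear forms with distinct positive slopes -/
structure LS {k : ℕ} (a b : Fin k → ℤ) : Prop where
  pos : ∀ i, 0 < a i
  inj : Function.Injective a
  cop : ∀ i, IsCoprime (a i) (b i)
  adm : ∀ p : ℕ, p.Prime → ∃ m : ℕ, ∀ i, ¬ (p : ℤ) ∣ a i * m + b i

variable {k : ℕ} {a b : Fin k → ℤ}

lemma ls_Q (a b : Fin k → ℤ) (p m : ℕ) : Q (ls a b) p m ↔ ∃ i, (p : ℤ) ∣ a i * m + b i := by
  unfold Q ls
  simp only [lf_eval]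

lemma ls_us (h : LS a b) (H U : ℝ) (ha : ∀ i, |(a i : ℝ)| ≤ H) (hb : ∀ i, |(b i : ℝ)| ≤ H) :
    US k 1 H U (ls a b) := by
  apply us_lf k a b H U (fun i => (h.pos i).ne') h.cop ha hb h.adm
  intro i j t ht _
  have ht0 : (0 : ℤ) < t := by exact_mod_cast ht
  constructor
  · rintro ⟨h1, h2⟩
    have hij := h.inj h1
    subst hij
    have := mul_pos (h.pos i) ht0
    linarith
  · rintro ⟨h1, _⟩
    have := h.pos i
    have := h.pos j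
    linarith

/-- a linear form has a root modulo `p` -/
lemma root_ex (p : ℕ) (hp : p.Prime) (α β : ℤ) (h : ¬ (p : ℤ) ∣ α) :
    ∃ r : ℕ, r < p ∧ (p : ℤ) ∣ α * r + β := by
  have : Fact p.Prime := ⟨hp⟩
  have hα : (α : ZMod p) ≠ 0 := fun h1 => h ((ZMod.intCast_zmod_eq_zero_iff_dvd _ _).1 h1)
  refine ⟨(-(β : ZMod p) / α).val, ZMod.val_lt _, ?_⟩
  rw [← ZMod.intCast_zmod_eq_zero_iff_dvd]
  push_cast
  rw [ZMod.natCast_zmod_val]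
  field_simp
  ring

lemma ls_two (h : LS a b) (i j : Fin k) (p : ℕ) (hp : p.Prime)
    (hD : ¬ (p : ℤ) ∣ a i * a j * (a i * b j - a j * b i)) : 2 ≤ nuB (Q (ls a b)) p := by
  classical
  have hpi : Prime (p : ℤ) := Nat.prime_iff_prime_int.1 hp
  obtain ⟨r, hr, h1⟩ := root_ex p hp (a i) (b i) (fun h1 => hD (by
    rw [mul_assoc]
    exact Dvd.dvd.mul_right h1 _))
  obtain ⟨s, hs, h2⟩ := root_ex p hp (a j) (b j) (fun h1 => hD (by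
    rw [mul_assoc]
    exact Dvd.dvd.mul_left (Dvd.dvd.mul_right h1 _) _))
  have hne : r ≠ s := by
    intro hrs
    subst hrs
    apply hD
    apply Dvd.dvd.mul_left
    have e : a i * b j - a j * b i = a i * (a j * r + b j) - a j * (a i * r + b i) := by ring
    rw [e]
    exact dvd_sub (Dvd.dvd.mul_left h2 _) (Dvd.dvd.mul_left h1 _)
  have h3 : ({r, s} : Finset ℕ) ⊆ (range p).filter (fun m => Q (ls a b) p m) := by
    intro x hx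
    rw [mem_insert, mem_singleton] at hx
    rw [mem_filter, mem_range, ls_Q]
    rcases hx with rfl | rfl
    · exact ⟨hr, i, h1⟩
    · exact ⟨hs, j, h2⟩
  calc 2 = ({r, s} : Finset ℕ).card := (Finset.card_pair hne).symm
    _ ≤ ((range p).filter (fun m => Q (ls a b) p m)).card := card_le_card h3
    _ = nuB (Q (ls a b)) p := by
        unfold nuB
        congr

lemma det_ne (h : LS a b) (i j : Fin k) (hij : i ≠ j) : a i * b j - a j * b i ≠ 0 := by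
  intro h0
  have h1 : a i * b j = a j * b i := by linarith
  have h2 : a i ∣ a j := (h.cop i).dvd_of_dvd_mul_right (h1 ▸ Dvd.intro _ rfl)
  have h3 : a j ∣ a i := (h.cop j).dvd_of_dvd_mul_right (h1 ▸ Dvd.intro _ rfl)
  exact hij (h.inj (Int.dvd_antisymm (h.pos i).le (h.pos j).le h2 h3))

/-- the upper bound for the density -/
lemma ls_V (A : ℝ) (hA : 0 < A) (r : ℕ) (hr2 : 2 ≤ r) : ∃ M : ℝ, 0 < M ∧ ∀ᶠ X : ℕ in atTop,
    ∀ (k : ℕ) (a b : Fin k → ℤ), 2 ≤ k → LS a b → (∀ i, |(a i : ℝ)| ≤ (X : ℝ) ^ A) →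
      (∀ i, |(b i : ℝ)| ≤ (X : ℝ) ^ A) → Vq (Q (ls a b)) ⌊(X : ℝ) ^ (1 / (r : ℝ))⌋₊ ≤ M / Real.log X := by
  obtain ⟨M, hM, h⟩ := V2_up (4 * A + 1) (by positivity) r hr2
  refine ⟨M, hM, ?_⟩
  filter_upwards [h, eventually_ge_atTop 2] with X hX hX2 k a b hk hL haX hbX
  have hX2r : (2 : ℝ) ≤ X := by exact_mod_cast hX2
  have hX0 : (0 : ℝ) < X := by linarith
  obtain ⟨i, hi⟩ : ∃ i : Fin k, i = ⟨0, by omega⟩ := ⟨_, rfl⟩
  obtain ⟨j, hj⟩ : ∃ j : Fin k, j = ⟨1, by omega⟩ := ⟨_, rfl⟩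
  have hij : i ≠ j := by
    rw [hi, hj]
    intro h1
    simp at h1
  have hD0 : a i * a j * (a i * b j - a j * b i) ≠ 0 :=
    mul_ne_zero (mul_ne_zero (hL.pos i).ne' (hL.pos j).ne') (det_ne hL i j hij)
  refine hX (Q (ls a b)) (a i * a j * (a i * b j - a j * b i)).natAbs ?_ ?_ ?_ ?_
  · exact us_adm (ls_us hL ((X : ℝ) ^ A) 0 haX hbX)
  · rw [Nat.one_le_iff_ne_zero, Ne, Int.natAbs_eq_zero]
    exact hD0
  · rw [Nat.cast_natAbs]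
    push_cast
    rw [abs_mul, abs_mul]
    have h1 : |(a i : ℝ) * b j - a j * b i| ≤ 2 * ((X : ℝ) ^ A * (X : ℝ) ^ A) := by
      refine (abs_sub _ _).trans ?_
      rw [abs_mul, abs_mul]
      have h2 : |(a i : ℝ)| * |(b j : ℝ)| ≤ (X : ℝ) ^ A * (X : ℝ) ^ A :=
        mul_le_mul (haX i) (hbX j) (abs_nonneg _) (by positivity)
      have h3 : |(a j : ℝ)| * |(b i : ℝ)| ≤ (X : ℝ) ^ A * (X : ℝ) ^ A :=
        mul_le_mul (haX j) (hbX i) (abs_nonneg _) (by positivity)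
      linarith
    calc |(a i : ℝ)| * |(a j : ℝ)| * |(a i : ℝ) * b j - a j * b i| ≤
          (X : ℝ) ^ A * (X : ℝ) ^ A * (2 * ((X : ℝ) ^ A * (X : ℝ) ^ A)) := by
          apply mul_le_mul _ h1 (abs_nonneg _) (by positivity)
          exact mul_le_mul (haX i) (haX j) (abs_nonneg _) (by positivity)
      _ ≤ (X : ℝ) ^ A * (X : ℝ) ^ A * (X * ((X : ℝ) ^ A * (X : ℝ) ^ A)) := by gcongr
      _ = (X : ℝ) ^ (4 * A + 1) := by
        rw [show 4 * A + 1 = A + A + (1 + (A + A)) by ring, Real.rpow_add hX0, Real.rpow_add hX0,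
          Real.rpow_add hX0, Real.rpow_add hX0, Real.rpow_one]
  · intro p hp hpD
    apply ls_two hL i j p hp
    intro h2
    exact hpD (Int.natCast_dvd.1 h2)

/-- **The law for linear forms with distinct slopes.** -/
theorem law_ls (k : ℕ) (hk : 2 ≤ k) (A θ : ℝ) (hA : 0 < A) (hθ : 0 < θ) (J L : ℕ) (x0 ε : ℝ) (hε : 0 < ε) :
    ∃ r0 : ℕ, ∀ r : ℕ, r0 ≤ r → ∀ᶠ X : ℕ in atTop, ∀ a b : Fin k → ℤ, LS a b →
      (∀ i, |(a i : ℝ)| ≤ (X : ℝ) ^ A) → (∀ i, |(b i : ℝ)| ≤ (X : ℝ) ^ A) →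
      ∀ Z Y : ℕ, (X : ℝ) ^ θ ≤ Y → ∀ T : ℕ, T * Vq (Q (ls a b)) ⌊(X : ℝ) ^ (1 / (r : ℝ))⌋₊ ≤ x0 →
      ∀ S : Set ℕ, (∀ m ≤ Z + Y + T, (m ∈ S ↔ Sf (Q (ls a b)) ⌊(X : ℝ) ^ (1 / (r : ℝ))⌋₊ m)) →
        PoissonLaw S (Vq (Q (ls a b)) ⌊(X : ℝ) ^ (1 / (r : ℝ))⌋₊) J L ε Z Y T := by
  obtain ⟨r0, h⟩ := law_polys k 1 A 1 θ hA one_pos hθ J L x0 ε hε
  refine ⟨max r0 2, fun r hr => ?_⟩
  obtain ⟨M, hM, hV⟩ := ls_V A hA r ((le_max_right _ _).trans hr)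
  filter_upwards [h r ((le_max_left _ _).trans hr) M, hV] with X hX hVX a b hL haX hbX
  exact hX (ls a b) (ls_us hL _ _ haX hbX) (hVX k a b hk hL haX hbX)

/-- **Regular points for linear forms with distinct slopes.** -/
theorem her_ls (k : ℕ) (hk : 2 ≤ k) (A θ : ℝ) (hA : 0 < A) (hθ : 0 < θ) :
    ∃ r0 : ℕ, 2 ≤ r0 ∧ ∀ r : ℕ, r0 ≤ r → ∀ ε : ℝ, 0 < ε → ∃ κ : ℝ, 0 < κ ∧
      ∀ δ : ℝ, 0 < δ → ∃ M : ℕ, ∀ᶠ X : ℕ in atTop, ∀ a b : Fin k → ℤ, LS a b →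
      (∀ i, |(a i : ℝ)| ≤ (X : ℝ) ^ A) → (∀ i, |(b i : ℝ)| ≤ (X : ℝ) ^ A) →
      ∀ u Y : ℕ, (X : ℝ) ^ θ ≤ Y → Y ≤ X → Y ≤ u →
      ∀ S : Set ℕ, (∀ m ∈ S, Sf (Q (ls a b)) ⌊(X : ℝ) ^ (1 / (r : ℝ))⌋₊ m) →
        (count (Irregular S (1 / Vq (Q (ls a b)) ⌊(X : ℝ) ^ (1 / (r : ℝ))⌋₊) κ δ M Y) u (u + Y) : ℝ) ≤
          ε * (Y * Vq (Q (ls a b)) ⌊(X : ℝ) ^ (1 / (r : ℝ))⌋₊) := by
  obtain ⟨r0, hr0, h⟩ := hered_polys k 1 0 A 1 θ hA one_pos hθ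
  refine ⟨r0, hr0, fun r hr ε hε => ?_⟩
  obtain ⟨Cv, hCv, hV⟩ := ls_V A hA r (hr0.trans hr)
  obtain ⟨κ, hκ, h1⟩ := h r hr Cv hCv ε hε
  refine ⟨κ, hκ, fun δ hδ => ?_⟩
  obtain ⟨M, h2⟩ := h1 δ hδ
  refine ⟨M, ?_⟩
  filter_upwards [h2, hV] with X hX hVX
  intro a b hL haX hbX u Y hY hYX hYu S hS
  have hus := ls_us hL ((X : ℝ) ^ A) ((X : ℝ) ^ (1 : ℝ)) haX hbX
  exact hX (ls a b) (ls_us hL _ _ haX hbX) ∅ (by simp) (fun i j t ht htU _ => hus.tr i j t ht htU)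
    (hVX k a b hk hL haX hbX) u Y hY hYX hYu S hS

end Pool.Agent.U832.RG
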