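import Pool.Agent.U832.RG.PrimeUse
import Pool.Agent.U832.RG.FixedUse

/-!
# Fixed systems of polynomials one of which is `X`: the law around primes
-/

set_option autoImplicit false

namespace Pool.Agent.U832.RG

open Polynomial Finset Filter
open Pool.Agent.W123.RP Pool.Agent.H373R2.T7 Pool.Agent.W123.RU Pool.Agent.W123.RU.Poly
open Pool.Agent.TH464.PW Pool.Agent.TH464.PO Pool.Agent.Y879.GL

variable {k : ℕ}

/-- **The law around primes and around arbitrary integers, for fixed systems.** -/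
theorem fixed_prime (f : Fin k → ℤ[X]) (hf : Sys f) (hk : 1 ≤ k) (hT : NoShift f)
    (hb : ∃ i, ∀ n : ℕ, (f i).eval (n : ℤ) = n) (g : ℕ → ℕ)
    (hg : ∀ n : ℕ, (g n : ℤ) = ∏ i, (f i).eval (n : ℤ)) (θ δ : ℝ) (hθ : 0 < θ) (hδ : 0 < δ) (hδ1 : δ ≤ 1)
    (J L : ℕ) (x₀ ε : ℝ) (hε : 0 < ε) :
    ∃ r₀ : ℕ, ∀ r : ℕ, r₀ ≤ r → ∀ᶠ x : ℕ in atTop,
      ∀ y : ℕ, y = ⌊(x : ℝ) ^ (1 / (r : ℝ))⌋₊ → ∀ T : ℕ, T * V g y ≤ x₀ →
        (∀ X Z Y : ℕ, (x : ℝ) ^ θ ≤ X → δ * X ≤ Z → δ * X ≤ Y → Z + Y ≤ X →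
          PrimeLaw (Rough g y) (V g y) y J L ε X Z Y T) ∧
        ∀ Z Y : ℕ, (x : ℝ) ^ θ ≤ Y → PoissonLaw (Rough g y) (V g y) J L ε Z Y T := by
  obtain ⟨r1, h1⟩ := (fixed_main f hf hk hT g hg θ hθ).1 J L x₀ ε hε
  obtain ⟨D, hD⟩ := fixed_us f hf hT
  obtain ⟨r2, h2⟩ := plaw_polys k D 1 1 θ δ one_pos one_pos hθ hδ hδ1 J L x₀ ε hε
  refine ⟨max r1 (max r2 2), fun r hr => ?_⟩
  have hr1 : r1 ≤ r := (le_max_left _ _).trans hr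
  have hr2 : r2 ≤ r := ((le_max_left _ _).trans (le_max_right _ _)).trans hr
  have hr3 : 2 ≤ r := ((le_max_right _ _).trans (le_max_right _ _)).trans hr
  obtain ⟨Cv, hCv, hV⟩ := fixed_V f hf hk r hr3
  filter_upwards [h1 r hr1, h2 r hr2 Cv, hD, hV] with x hx1 hx2 hDx hVx
  intro y hy T hTx
  refine ⟨fun X Z Y hX hZ hY hZY => ?_, fun Z Y hY => hx1 y hy Z Y T hY hTx⟩
  have h4 := hx2 f (hDx _) hb hVx X Z Y hX hZ hY hZY T
  rw [← hy, fu_V f g hg] at h4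
  exact h4 hTx (Rough g y) (fun m _ => fu_rough f g hg y m)

end Pool.Agent.U832.RG
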