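import Pool.Agent.U832.RG.Defs
import Pool.Agent.U832.RG.ProcUnif
import Pool.Agent.Y879.GL.HerPoly
import Pool.Agent.Y879.GL.Prog2

/-!
# The law in terms of the definitions of `Defs`
-/

set_option autoImplicit false

namespace Pool.Agent.U832.RG

open Polynomial Finset Filter
open Pool.Agent.W123.RP Pool.Agent.H373R2.T7 Pool.Agent.W123.RU Pool.Agent.W123.RU.Poly
open Pool.Agent.TH464.PW Pool.Agent.TH464.PO Pool.Agent.Y879.GL Pool.Agent.Y879.AP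

lemma win_single {J T s : ℕ} {a b : Fin J → ℕ} (h : Windows T s a b) : Win T {s} a b := by
  refine ⟨by simp, fun x hx => ?_, h.2.1, fun i j hij => ?_, fun x hx j hj => ?_⟩
  · rw [mem_singleton] at hx
    rw [hx]
    exact h.1
  · rw [Finset.disjoint_left]
    intro x hx hx'
    rw [mem_Ioc] at hx hx'
    rcases h.2.2.2 i j hij with h1 | h1 <;> omega
  · rw [mem_singleton] at hx
    rw [mem_Ioc] at hj
    apply h.2.2.1 j
    omega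

lemma win_empty {J T s : ℕ} {a b : Fin J → ℕ} (h : Windows T s a b) : Win T ∅ a b := by
  refine ⟨by simp, fun x hx => absurd hx (by simp), h.2.1, (win_single h).dis, fun x hx => absurd hx (by simp)⟩

open Classical in
lemma win_card {J T s Z Y : ℕ} {a b : Fin J → ℕ} (h : Windows T s a b) (S : Set ℕ)
    (g : ℕ → Prop) (hg : ∀ m ≤ Z + Y + T, (m ∈ S ↔ g m)) (n : ℕ) (hn : n ≤ Z + Y) (j : Fin J) :
    ((Ioc (n + a j) (n + b j)).filter g).card = ((Ioc (n + a j) (n + b j)).filter (fun m => m ∈ S)).card := by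
  congr 1
  ext m
  rw [mem_filter, mem_filter]
  apply and_congr_right
  intro hm
  rw [mem_Ioc] at hm
  have := h.2.1 j
  exact (hg m (by omega)).symm

open Classical in
lemma pat_around {J T s : ℕ} {a b : Fin J → ℕ} (h : Windows T s a b) (k : Fin J → ℕ) (Z Y : ℕ) (S : Set ℕ)
    (g : ℕ → Prop) (hg : ∀ m ≤ Z + Y + T, (m ∈ S ↔ g m)) :
    Pat g {s} a b k Z Y = around S s a b k Z Y := by
  unfold Pat around
  congr 1
  ext n
  rw [mem_filter, mem_filter]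
  apply and_congr_right
  intro hn
  rw [mem_Ioc] at hn
  apply and_congr
  · simp only [mem_singleton, forall_eq]
    exact (hg _ (by have := h.1; omega)).symm
  · unfold Counts
    apply forall_congr'
    intro j
    rw [win_card h S g hg n hn.2 j]

open Classical in
lemma pat_anywhere {J T s : ℕ} {a b : Fin J → ℕ} (h : Windows T s a b) (k : Fin J → ℕ) (Z Y : ℕ) (S : Set ℕ)
    (g : ℕ → Prop) (hg : ∀ m ≤ Z + Y + T, (m ∈ S ↔ g m)) :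
    Pat g ∅ a b k Z Y = anywhere S a b k Z Y := by
  unfold Pat anywhere
  congr 1
  ext n
  rw [mem_filter, mem_filter]
  apply and_congr_right
  intro hn
  rw [mem_Ioc] at hn
  simp only [notMem_empty, false_implies, implies_true, true_and]
  unfold Counts
  apply forall_congr'
  intro j
  rw [win_card h S g hg n hn.2 j]

/-- from the laws for `Pat` -/
lemma law_of_pat {J L : ℕ} {ε V : ℝ} {Z Y T : ℕ} {S : Set ℕ} {g : ℕ → Prop}
    (hg : ∀ m ≤ Z + Y + T, (m ∈ S ↔ g m))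
    (h : ∀ (B : Finset ℕ) (a b k : Fin J → ℕ), Win T B a b → (∀ j, k j ≤ L) →
      |(Pat g B a b k Z Y : ℝ) - Y * V ^ B.card * ∏ j, po (k j) (((b j - a j : ℕ) : ℝ) * V)| ≤
        ε * (Y * V ^ B.card)) : PoissonLaw S V J L ε Z Y T := by
  intro s a b k hw hk
  have h1 := h {s} a b k (win_single hw) hk
  have h2 := h ∅ a b k (win_empty hw) hk
  rw [card_singleton, pow_one, pat_around hw k Z Y S g hg] at h1
  rw [card_empty, pow_zero, mul_one, pat_anywhere hw k Z Y S g hg] at h2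
  exact ⟨h1, h2⟩

/-- **The law for systems of polynomials.** -/
theorem law_polys (m D : ℕ) (E δ θ : ℝ) (hE : 0 < E) (hδ : 0 < δ) (hθ : 0 < θ) (J L : ℕ)
    (x0 ε : ℝ) (hε : 0 < ε) :
    ∃ r0 : ℕ, ∀ r : ℕ, r0 ≤ r → ∀ Cv : ℝ, ∀ᶠ X : ℕ in atTop, ∀ f : Fin m → ℤ[X],
      US m D ((X : ℝ) ^ E) ((X : ℝ) ^ δ) f →
      Vq (Q f) ⌊(X : ℝ) ^ (1 / (r : ℝ))⌋₊ ≤ Cv / Real.log X →
      ∀ Z Y : ℕ, (X : ℝ) ^ θ ≤ Y → ∀ T : ℕ, T * Vq (Q f) ⌊(X : ℝ) ^ (1 / (r : ℝ))⌋₊ ≤ x0 →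
      ∀ S : Set ℕ, (∀ m ≤ Z + Y + T, (m ∈ S ↔ Sf (Q f) ⌊(X : ℝ) ^ (1 / (r : ℝ))⌋₊ m)) →
        PoissonLaw S (Vq (Q f) ⌊(X : ℝ) ^ (1 / (r : ℝ))⌋₊) J L ε Z Y T := by
  obtain ⟨r0, h⟩ := proc_polys m D E δ θ hE hδ hθ J L x0 ε hε
  refine ⟨r0, fun r hr Cv => ?_⟩
  filter_upwards [h r hr Cv] with X hX
  intro f hf hV Z Y hY T hT S hS
  exact law_of_pat hS fun B a b k hw hk => hX f hf hV Z Y hY T B a b k hT hw hk

/-- **The law for the pairs `n`, `e n + f` in progressions.** -/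
theorem law_prog2 (A δ θ : ℝ) (hA : 0 < A) (hδ : 0 < δ) (hθ : 0 < θ) (J L : ℕ) (x0 ε : ℝ) (hε : 0 < ε) :
    ∃ r0 : ℕ, ∀ r : ℕ, r0 ≤ r → ∀ᶠ X : ℕ in atTop, ∀ (e f : ℤ) (q a : ℕ), e * e = 1 → Even f →
      f ≠ 0 → |(f : ℝ)| ≤ (X : ℝ) ^ A → 1 ≤ q → (q : ℝ) ≤ (X : ℝ) ^ A → (a : ℝ) ≤ (X : ℝ) ^ A →
      Nat.Coprime q a → IsCoprime (q : ℤ) (e * a + f) →
      (∀ t : ℕ, 1 ≤ t → (t : ℝ) ≤ (X : ℝ) ^ δ → f ^ 2 ≠ ((q : ℤ) * t) ^ 2) →
      ∀ Z Y : ℕ, (X : ℝ) ^ θ ≤ Y → ∀ T : ℕ, T * Vq (Qn (Q2 e f) q) ⌊(X : ℝ) ^ (1 / (r : ℝ))⌋₊ ≤ x0 →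
      ∀ S : Set ℕ, (∀ m ≤ Z + Y + T, (m ∈ S ↔ Sf (Q (pf e f q a)) ⌊(X : ℝ) ^ (1 / (r : ℝ))⌋₊ m)) →
        PoissonLaw S (Vq (Qn (Q2 e f) q) ⌊(X : ℝ) ^ (1 / (r : ℝ))⌋₊) J L ε Z Y T := by
  obtain ⟨r0, h⟩ := law_polys 2 1 (A + 1) δ θ (by linarith) hδ hθ J L x0 ε hε
  refine ⟨max r0 2, ?_⟩
  intro r hr
  have hr2 : 2 ≤ r := (le_max_right _ _).trans hr
  obtain ⟨M, hM, hV⟩ := pf_Vup A hA r hr2
  filter_upwards [h r ((le_max_left _ _).trans hr) M, hV, eventually_ge_atTop 2] with X hX hVX hX2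
  intro e f q a he hf hf0 hfX hq hqX haX hqa hqf hne
  have hX2r : (2 : ℝ) ≤ X := by exact_mod_cast hX2
  have hX0 : (0 : ℝ) < X := by linarith
  have hX1 : (1 : ℝ) ≤ X := by linarith
  have hE : (X : ℝ) ^ (A + 1) = (X : ℝ) ^ A * X := by rw [Real.rpow_add hX0, Real.rpow_one]
  have hA0 : 0 < (X : ℝ) ^ A := Real.rpow_pos_of_pos hX0 _
  have hus := pf_us e f he hf q a hq hqa hqf ((X : ℝ) ^ (A + 1)) (by rw [hE]; nlinarith)
    (by rw [hE]; nlinarith)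
  have hno := pf_noas e f he q a hq ∅ ((X : ℝ) ^ δ) (fun t ht htU _ => hne t ht htU)
  have hus2 : US 2 1 ((X : ℝ) ^ (A + 1)) ((X : ℝ) ^ δ) (pf e f q a) :=
    { irr := hus.irr, deg := hus.deg, degD := hus.degD, hgt := hus.hgt, adm := hus.adm
      tr := fun i j t ht htU => hno i j t ht htU (by simp) }
  rw [← pf_Vq e f he q a _ hqa hqf]
  exact hX (pf e f q a) hus2 (by
    rw [pf_Vq e f he q a _ hqa hqf]
    exact hVX e f q he hf hf0 hfX hq hqX)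

end Pool.Agent.U832.RG
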