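import Pool.Agent.U832.RG.PDefs
import Pool.Agent.U832.RG.PrimeUnif
import Pool.Agent.U832.RG.Use

/-!
# The law around primes in terms of the definitions of `PDefs`
-/

set_option autoImplicit false

namespace Pool.Agent.U832.RG

open Polynomial Finset Filter
open Pool.Agent.W123.RP Pool.Agent.H373R2.T7 Pool.Agent.W123.RU Pool.Agent.W123.RU.Poly
open Pool.Agent.TH464.PW Pool.Agent.TH464.PO Pool.Agent.Y879.GL Pool.Agent.Y879.PR

open Classical in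
lemma Nj_eq (Q : ℕ → ℕ → Prop) (y a b n : ℕ) :
    Nj Q y a b n = ((Ioc (n + a) (n + b)).filter (Sf Q y)).card := by
  unfold Nj
  apply Finset.card_bij (fun h _ => n + h)
  · intro h hh
    rw [mem_filter, mem_Ioc] at hh
    rw [mem_filter, mem_Ioc]
    exact ⟨by omega, hh.2⟩
  · intro x _ y _ hxy
    omega
  · intro m hm
    rw [mem_filter, mem_Ioc] at hm
    refine ⟨m - n, ?_, by omega⟩
    rw [mem_filter, mem_Ioc, show n + (m - n) = m by omega]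
    exact ⟨by omega, hm.2⟩

lemma vz_mertens (y : ℕ) : Vz y = mertens y := by
  unfold Vz mertens
  congr 1

open Classical in
lemma patP_eq {J T s : ℕ} {a b : Fin J → ℕ} (h : Windows T s a b) (k : Fin J → ℕ) (Z Y y : ℕ) (S : Set ℕ)
    (Q : ℕ → ℕ → Prop) (hg : ∀ m ≤ Z + Y + T, (m ∈ S ↔ Sf Q y m)) :
    PatP 1 0 Q y s a b k Z Y = aroundPrimes S s a b k Z Y := by
  unfold PatP aroundPrimes Om
  rw [Finset.filter_filter]
  congr 1
  ext n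
  rw [mem_filter, mem_filter]
  apply and_congr_right
  intro hn
  rw [mem_Ioc] at hn
  rw [sf_QH, show 1 * n + (0 + 1 * s) = n + s by ring, and_assoc]
  apply and_congr_right
  intro _
  apply and_congr
  · simp only [mem_singleton, forall_eq]
    exact (hg _ (by have := h.1; omega)).symm
  · unfold Counts
    apply forall_congr'
    intro j
    rw [Nj_eq, win_card h S (Sf Q y) hg n hn.2 j]

/-- **The law around primes for systems of polynomials** one of which is `X`. -/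
theorem plaw_polys (m D : ℕ) (E δ' θ δ : ℝ) (hE : 0 < E) (hδ' : 0 < δ') (hθ : 0 < θ) (hδ : 0 < δ) (hδ1 : δ ≤ 1)
    (J L : ℕ) (x0 ε : ℝ) (hε : 0 < ε) :
    ∃ r0 : ℕ, ∀ r : ℕ, r0 ≤ r → ∀ Cv : ℝ, ∀ᶠ N : ℕ in atTop, ∀ f : Fin m → ℤ[X],
      US m D ((N : ℝ) ^ E) ((N : ℝ) ^ δ') f → (∃ i, ∀ n : ℕ, (f i).eval (n : ℤ) = n) →
      Vq (Q f) ⌊(N : ℝ) ^ (1 / (r : ℝ))⌋₊ ≤ Cv / Real.log N →
      ∀ X Z Y : ℕ, (N : ℝ) ^ θ ≤ X → δ * X ≤ Z → δ * X ≤ Y → Z + Y ≤ X →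
      ∀ T : ℕ, T * Vq (Q f) ⌊(N : ℝ) ^ (1 / (r : ℝ))⌋₊ ≤ x0 →
      ∀ S : Set ℕ, (∀ m ≤ Z + Y + T, (m ∈ S ↔ Sf (Q f) ⌊(N : ℝ) ^ (1 / (r : ℝ))⌋₊ m)) →
        PrimeLaw S (Vq (Q f) ⌊(N : ℝ) ^ (1 / (r : ℝ))⌋₊) ⌊(N : ℝ) ^ (1 / (r : ℝ))⌋₊ J L ε X Z Y T := by
  obtain ⟨r0, _, h⟩ := pproc_polys 1 m D squarefree_one E δ' θ δ hE hδ' hθ hδ hδ1 J L x0 ε hε
  refine ⟨r0, fun r hr Cv => ?_⟩
  filter_upwards [h r hr Cv] with N hN
  intro f hf hbase hV X Z Y hX hZ hY hZY T hT S hS s a b k hw hk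
  obtain ⟨i, hi⟩ := hbase
  have h1 := hN f 0 hf (by norm_num) (fun p n hp hp1 _ => hp.one_lt.ne' (Nat.dvd_one.1 hp1))
    ⟨i, fun n => by rw [hi n]; push_cast; ring⟩ hV X hX (by omega) Z Y hZ hY hZY T s a b k hT (win_single hw) hk
  rw [patP_eq hw k Z Y _ S (Q f) hS, vz_mertens] at h1
  exact h1

end Pool.Agent.U832.RG
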