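import Mathlib

/-!
# Definitions: Poisson law for several windows and regular points, for sets of natural numbers
-/

set_option autoImplicit false

namespace Pool.Agent.U832.RG

open Finset

/-- The windows `(a j, b j]`, `j < J`, are pairwise disjoint, contained in `(0, T]` and do not contain `s ≤ T`. -/
def Windows {J : ℕ} (T s : ℕ) (a b : Fin J → ℕ) : Prop :=
  s ≤ T ∧ (∀ j, b j ≤ T) ∧ (∀ j, ¬ (a j < s ∧ s ≤ b j)) ∧ ∀ i j, i ≠ j → b i ≤ a j ∨ b j ≤ a i

open Classical in
/-- Exactly `k j` elements of `S` lie in the window `(n + a j, n + b j]`, for all `j`. -/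
def Counts {J : ℕ} (S : Set ℕ) (a b k : Fin J → ℕ) (n : ℕ) : Prop :=
  ∀ j, ((Ioc (n + a j) (n + b j)).filter (fun m => m ∈ S)).card = k j

open Classical in
/-- The number of the `n` in `(Z, Z + Y]` with `n + s ∈ S` and `Counts S a b k n`: the number of the elements
`n + s` of `S` for which the windows around them contain the given numbers of elements of `S`. -/
noncomputable def around {J : ℕ} (S : Set ℕ) (s : ℕ) (a b k : Fin J → ℕ) (Z Y : ℕ) : ℕ :=
  ((Ioc Z (Z + Y)).filter (fun n => n + s ∈ S ∧ Counts S a b k n)).card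

open Classical in
/-- The number of all `n` in `(Z, Z + Y]` with `Counts S a b k n`. -/
noncomputable def anywhere {J : ℕ} (S : Set ℕ) (a b k : Fin J → ℕ) (Z Y : ℕ) : ℕ :=
  ((Ioc Z (Z + Y)).filter (fun n => Counts S a b k n)).card

/-- The probability that a Poisson variable of mean `x` has the value `k`. -/
noncomputable def poisson (k : ℕ) (x : ℝ) : ℝ := Real.exp (-x) * x ^ k / k.factorial

/-- The elements of `S` in disjoint windows are independent Poisson variables of density `V`, seen from an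
arbitrary element of `S` and from an arbitrary integer, for the `n` in `(Z, Z + Y]` and the windows up to `T`,
with the error `ε`. -/
def PoissonLaw (S : Set ℕ) (V : ℝ) (J L : ℕ) (ε : ℝ) (Z Y T : ℕ) : Prop :=
  ∀ (s : ℕ) (a b k : Fin J → ℕ), Windows T s a b → (∀ j, k j ≤ L) →
    |(around S s a b k Z Y : ℝ) - Y * V * ∏ j, poisson (k j) ((b j - a j : ℕ) * V)| ≤ ε * (Y * V) ∧
    |(anywhere S a b k Z Y : ℝ) - Y * ∏ j, poisson (k j) ((b j - a j : ℕ) * V)| ≤ ε * Y

open Classical in
/-- The number of elements of `S` in `(a, b]`. -/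
noncomputable def count (S : Set ℕ) (a b : ℕ) : ℕ := ((Finset.Ioc a b).filter (fun m => m ∈ S)).card

/-- All intervals `(m - s, m + t]` with `s, t ≤ Y` of length at least `L / κ` contain between
`κ (s + t) / L` and `(s + t) / (κ L)` elements of `S`. -/
def RightOrder (S : Set ℕ) (L κ : ℝ) (Y m : ℕ) : Prop :=
  ∀ s t : ℕ, s ≤ Y → t ≤ Y → L ≤ κ * (s + t) →
    κ * (s + t) / L ≤ count S (m - s) (m + t) ∧ (count S (m - s) (m + t) : ℝ) ≤ (s + t) / (κ * L)

/-- Up to `δ`, `S` has a constant density on both sides of `m` up to the distance `2 ^ j`. -/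
def ConstantDensity (S : Set ℕ) (L κ δ : ℝ) (m j : ℕ) : Prop :=
  ∃ lam : ℝ, κ ≤ lam ∧ lam ≤ 1 / κ ∧ ∀ s t : ℕ, s ≤ 2 ^ j → t ≤ 2 ^ j →
    |(count S (m - s) (m + t) : ℝ) - lam * (s + t) / L| ≤ δ * 2 ^ j / L

open Classical in
/-- The number of the scales `L ≤ 2 ^ j ≤ Y` without this property. -/
noncomputable def badScales (S : Set ℕ) (L κ δ : ℝ) (Y m : ℕ) : ℕ :=
  ((Finset.range (Nat.log 2 Y + 1)).filter (fun j => L ≤ (2 : ℝ) ^ j ∧ ¬ ConstantDensity S L κ δ m j)).card

/-- The elements of `S` that are not regular points of `S`. -/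
def Irregular (S : Set ℕ) (L κ δ : ℝ) (M Y : ℕ) : Set ℕ :=
  {m | m ∈ S ∧ ¬ (RightOrder S L κ Y m ∧ badScales S L κ δ Y m ≤ M)}

end Pool.Agent.U832.RG
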