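import Pool.Agent.U832.RG.ExCol

/-!
# Bounded moments with exceptional shifts
-/

set_option autoImplicit false

namespace Pool.Agent.U832.RG

open Finset Filter
open Pool.Agent.W123.RP Pool.Agent.H373R2.T7 Pool.Agent.W123.RU Pool.Agent.TH464.PO

open Classical in
/-- one window -/
lemma xx_bd (c e M : ℕ) (hc : 1 ≤ c) (X0 : ℝ) :
    ∃ (K0 y0 T0 : ℕ) (η' : ℝ), 0 < η' ∧ ∀ Y y T : ℕ, y0 ≤ y → y ^ K0 ≤ Y → T0 ≤ T →
      ∀ Q : ℕ → ℕ → Prop, PerB Q c → (∀ p : ℕ, p.Prime → nuB Q p < p) → ∀ Δ : Finset ℕ, Δ.card ≤ e →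
      (∀ t ∈ Icc 1 T, t ∉ Δ → ((((pz y).filter (fun p : ℕ => T < p ∧ CoG Q p t)).card : ℕ) : ℝ) ≤ η' * T) →
      (T : ℝ) * Vq Q y ≤ X0 → (T : ℝ) ^ M * √(Y : ℝ) ≤ Y * Vq Q y →
      ∀ (B : Finset ℕ) (s a b : ℕ), B ⊆ {s} → s ≤ T → b ≤ T → ¬ (a < s ∧ s ≤ b) →
        ∑ n ∈ Icc 1 Y, XX Q y Δ B (fun _ : Fin 1 => a) (fun _ => b) (fun _ => M) n ≤
          (2 * X0 ^ M + 1) * (Y * Vq Q y ^ B.card) := by
  obtain ⟨K0, y0, T0, η', hη', h⟩ := moment_ex (J := 1) c e hc (fun _ => M) 1 one_pos le_rfl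
  refine ⟨K0, y0, T0, η', hη', ?_⟩
  intro Y y T hy hyY hT Q hQ hadm Δ hΔ hlarge hTV hTY B s a b hB hs hb hab
  have hwin : Win T B (fun _ : Fin 1 => a) (fun _ => b) := by
    refine ⟨?_, ?_, fun _ => hb, ?_, ?_⟩
    · exact (card_le_card hB).trans (by simp)
    · intro x hx
      rw [mem_singleton.1 (hB hx)]
      exact hs
    · intro i j hij
      exact absurd (Subsingleton.elim i j) hij
    · intro x hx _
      rw [mem_singleton.1 (hB hx), mem_Ioc]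
      exact hab
  have h1 := h Y y T hy hyY hT Q hQ hadm Δ hΔ hlarge B (fun _ => a) (fun _ => b) hwin
  obtain ⟨V, hV⟩ : ∃ V, V = Vq Q y := ⟨_, rfl⟩
  have hV0 : 0 ≤ V := by rw [hV]; exact Vq_nonneg Q y
  have hV1 : V ≤ 1 := by rw [hV]; exact Vq_le_one Q y
  obtain ⟨β, hβ⟩ : ∃ β, β = B.card := ⟨_, rfl⟩
  have hβ1 : β ≤ 1 := by rw [hβ]; exact hwin.card
  rw [← hV] at h1 hTV hTY ⊢
  rw [← hβ] at h1 ⊢
  simp only [Finset.univ_unique, Finset.prod_singleton, Finset.sum_singleton] at h1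
  have h2 := (abs_le.1 h1).2
  have hVβ : V ≤ V ^ β := by
    calc V = V ^ 1 := (pow_one V).symm
      _ ≤ V ^ β := pow_le_pow_of_le_one hV0 hV1 hβ1
  have hP : 0 ≤ (Y : ℝ) * V ^ β := by positivity
  have h3 : (((b - a : ℕ) : ℝ) * V) ^ M / (M.factorial : ℝ) ≤ X0 ^ M := by
    have hf1 : (1 : ℝ) ≤ M.factorial := by exact_mod_cast Nat.factorial_pos M
    refine (div_le_self (by positivity) hf1).trans (pow_le_pow_left₀ (by positivity) ?_ _)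
    refine le_trans ?_ hTV
    apply mul_le_mul_of_nonneg_right _ hV0
    exact_mod_cast (by omega : b - a ≤ T)
  have h4 : ((T : ℝ) * V) ^ M ≤ X0 ^ M := pow_le_pow_left₀ (by positivity) hTV _
  have h5 : (Y : ℝ) * (V ^ β * ((((b - a : ℕ) : ℝ) * V) ^ M / (M.factorial : ℝ))) ≤ X0 ^ M * (Y * V ^ β) := by
    calc _ = ((((b - a : ℕ) : ℝ) * V) ^ M / (M.factorial : ℝ)) * (Y * V ^ β) := by ring
      _ ≤ _ := mul_le_mul_of_nonneg_right h3 hP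
  have h6 : (1 : ℝ) * (Y * (V ^ β * (T * V) ^ M)) ≤ X0 ^ M * (Y * V ^ β) := by
    calc _ = (T * V) ^ M * (Y * V ^ β) := by ring
      _ ≤ _ := mul_le_mul_of_nonneg_right h4 hP
  have h7 : (T : ℝ) ^ M * √(Y : ℝ) ≤ Y * V ^ β :=
    hTY.trans (mul_le_mul_of_nonneg_left hVβ (Nat.cast_nonneg _))
  linarith

lemma sum_rearr (s t : Finset ℕ) (u : ℕ → ℝ) (A B : ℕ → ℕ → ℝ) (c0 c1 c2 : ℝ) :
    ∑ n ∈ s, u n * (c0 * (c1 + (c2 * ∑ i ∈ t, A i n + c2 * ∑ i ∈ t, B i n))) =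
    c0 * (c1 * ∑ n ∈ s, u n + (c2 * ∑ i ∈ t, ∑ n ∈ s, u n * A i n + c2 * ∑ i ∈ t, ∑ n ∈ s, u n * B i n)) := by
  have h : ∀ A : ℕ → ℕ → ℝ, ∑ i ∈ t, ∑ n ∈ s, u n * A i n = ∑ n ∈ s, u n * ∑ i ∈ t, A i n := by
    intro A
    rw [Finset.sum_comm]
    simp only [Finset.mul_sum]
  rw [h A, h B, Finset.mul_sum, Finset.mul_sum, Finset.mul_sum, ← Finset.sum_add_distrib,
    ← Finset.sum_add_distrib, Finset.mul_sum]
  apply Finset.sum_congr rfl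
  intro n _
  ring

open Classical in
/-- **Bounded moments.** -/
theorem mom_bd (c e M : ℕ) (hc : 1 ≤ c) (X0 : ℝ) (hX0 : 1 ≤ X0) :
    ∃ (C : ℝ) (K0 y0 T0 : ℕ) (η' : ℝ), 1 ≤ C ∧ 0 < η' ∧ ∀ Y y T : ℕ, y0 ≤ y → y ^ K0 ≤ Y → T0 ≤ T →
      ∀ Q : ℕ → ℕ → Prop, PerB Q c → (∀ p : ℕ, p.Prime → nuB Q p < p) → ∀ Δ : Finset ℕ, Δ.card ≤ e →
      (∀ t ∈ Icc 1 T, t ∉ Δ → ((((pz y).filter (fun p : ℕ => T < p ∧ CoG Q p t)).card : ℕ) : ℝ) ≤ η' * T) →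
      (T : ℝ) * Vq Q y ≤ X0 → (T : ℝ) ^ M * √(Y : ℝ) ≤ Y * Vq Q y →
      ∀ (B : Finset ℕ) (s : ℕ), B ⊆ {s} → s ≤ T →
        ∑ n ∈ Icc 1 Y, uB Q y B n * (Nall Q y T n : ℝ) ^ M ≤ C * (Y * Vq Q y ^ B.card) := by
  obtain ⟨K1, y1, T1, η1, hη1, h1⟩ := xx_bd c e M hc X0
  obtain ⟨K2, y2, T2, η2, hη2, h2⟩ := xx_bd c e 0 hc X0
  obtain ⟨D, hD⟩ : ∃ D : ℝ, D = (2 * M : ℝ) ^ M * 3 + 2 ^ M * M.factorial * (2 * X0 ^ M + 1) := ⟨_, rfl⟩
  obtain ⟨C, hC⟩ : ∃ C : ℝ, C = 3 ^ M * ((2 + 2 * e : ℝ) ^ M * 3 + 2 * ((e + 1 : ℝ) ^ M * ((e + 1) * D))) := ⟨_, rfl⟩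
  have hX0M : (0 : ℝ) ≤ X0 ^ M := by positivity
  have hD0 : 0 ≤ D := by rw [hD]; positivity
  have hC0 : 0 ≤ C := by rw [hC]; positivity
  refine ⟨C + 1, max K1 K2, max (max y1 y2) 1, max (max T1 T2) 1, min η1 η2, by linarith, lt_min hη1 hη2, ?_⟩
  intro Y y T hy hyY hT Q hQ hadm Δ hΔ hlarge hTV hTY B s hB hs
  have hy1 : y1 ≤ y := (le_max_left _ _).trans ((le_max_left _ _).trans hy)
  have hy2 : y2 ≤ y := (le_max_right _ _).trans ((le_max_left _ _).trans hy)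
  have hy0 : 1 ≤ y := (le_max_right _ _).trans hy
  have hT1 : T1 ≤ T := (le_max_left _ _).trans ((le_max_left _ _).trans hT)
  have hT2 : T2 ≤ T := (le_max_right _ _).trans ((le_max_left _ _).trans hT)
  have hTone : 1 ≤ T := (le_max_right _ _).trans hT
  have hTr : (0 : ℝ) ≤ T := Nat.cast_nonneg T
  have hK1 : y ^ K1 ≤ Y := (Nat.pow_le_pow_right hy0 (le_max_left _ _)).trans hyY
  have hK2 : y ^ K2 ≤ Y := (Nat.pow_le_pow_right hy0 (le_max_right _ _)).trans hyY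
  have hl1 : ∀ t ∈ Icc 1 T, t ∉ Δ →
      ((((pz y).filter (fun p : ℕ => T < p ∧ CoG Q p t)).card : ℕ) : ℝ) ≤ η1 * T := fun t ht htΔ =>
    (hlarge t ht htΔ).trans (mul_le_mul_of_nonneg_right (min_le_left _ _) hTr)
  have hl2 : ∀ t ∈ Icc 1 T, t ∉ Δ →
      ((((pz y).filter (fun p : ℕ => T < p ∧ CoG Q p t)).card : ℕ) : ℝ) ≤ η2 * T := fun t ht htΔ =>
    (hlarge t ht htΔ).trans (mul_le_mul_of_nonneg_right (min_le_right _ _) hTr)
  have hTY0 : (T : ℝ) ^ 0 * √(Y : ℝ) ≤ Y * Vq Q y := by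
    refine le_trans ?_ hTY
    apply mul_le_mul_of_nonneg_right _ (Real.sqrt_nonneg _)
    rw [pow_zero]
    exact one_le_pow₀ (by exact_mod_cast hTone)
  obtain ⟨col, hcol1, hcol2⟩ := exists_col Δ e hΔ T
  obtain ⟨P, hP⟩ : ∃ P : ℝ, P = Y * Vq Q y ^ B.card := ⟨_, rfl⟩
  have hV0 : 0 ≤ Vq Q y := Vq_nonneg Q y
  have hP0 : 0 ≤ P := by rw [hP]; positivity
  have hu0 : ∀ n, 0 ≤ uB Q y B n := fun n => by unfold uB; split_ifs <;> norm_num
  -- the sum of the base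
  have hbase : ∑ n ∈ Icc 1 Y, uB Q y B n ≤ 3 * P := by
    have g1 : ∀ n ∈ Icc 1 Y, uB Q y B n ≤ XX Q y Δ B (fun _ : Fin 1 => s) (fun _ => T) (fun _ => 0) n := by
      intro n _
      have := cell_choose Q y Δ B s T s T 0 n 0 col hcol2 hB le_rfl
      simpa using this
    have g2 := h2 Y y T hy2 hK2 hT2 Q hQ hadm Δ hΔ hl2 hTV hTY0 B s s T hB hs le_rfl (by omega)
    rw [pow_zero, ← hP] at g2
    have g3 := (Finset.sum_le_sum g1).trans g2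
    linarith
  have hcell : ∀ a b i : ℕ, b ≤ T → ¬ (a < s ∧ s ≤ b) →
      ∑ n ∈ Icc 1 Y, uB Q y B n * ((cell Q y Δ s col a b i n).card : ℝ) ^ M ≤ D * P := by
    intro a b i hb hab
    have g1 : ∀ n ∈ Icc 1 Y, uB Q y B n * ((cell Q y Δ s col a b i n).card : ℝ) ^ M ≤
        (2 * M : ℝ) ^ M * uB Q y B n + 2 ^ M * M.factorial *
          XX Q y Δ B (fun _ : Fin 1 => a) (fun _ => b) (fun _ => M) n := by
      intro n _
      have e1 := pow_le_choose (cell Q y Δ s col a b i n).card M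
      have e2 : ((cell Q y Δ s col a b i n).card : ℝ) ^ M ≤ (2 * M : ℝ) ^ M +
          2 ^ M * M.factorial * ((cell Q y Δ s col a b i n).card.choose M : ℝ) := by exact_mod_cast e1
      have e3 := cell_choose Q y Δ B s T a b i n M col hcol2 hB hb
      calc uB Q y B n * ((cell Q y Δ s col a b i n).card : ℝ) ^ M ≤
            uB Q y B n * ((2 * M : ℝ) ^ M +
          2 ^ M * M.factorial * ((cell Q y Δ s col a b i n).card.choose M : ℝ)) :=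
            mul_le_mul_of_nonneg_left e2 (hu0 n)
        _ = (2 * M : ℝ) ^ M * uB Q y B n + 2 ^ M * M.factorial *
            (uB Q y B n * ((cell Q y Δ s col a b i n).card.choose M : ℝ)) := by ring
        _ ≤ _ := by
            have := mul_le_mul_of_nonneg_left e3 (show (0 : ℝ) ≤ 2 ^ M * M.factorial by positivity)
            linarith
    refine (Finset.sum_le_sum g1).trans ?_
    rw [Finset.sum_add_distrib, ← Finset.mul_sum, ← Finset.mul_sum]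
    have g2 := h1 Y y T hy1 hK1 hT1 Q hQ hadm Δ hΔ hl1 hTV hTY B s a b hB hs hb hab
    rw [← hP] at g2
    have g3 := mul_le_mul_of_nonneg_left hbase (show (0 : ℝ) ≤ (2 * M : ℝ) ^ M by positivity)
    have g4 := mul_le_mul_of_nonneg_left g2 (show (0 : ℝ) ≤ 2 ^ M * M.factorial by positivity)
    rw [hD]
    linarith
  have hpt : ∀ n, (Nall Q y T n : ℝ) ^ M ≤ 3 ^ M * ((2 + 2 * e : ℝ) ^ M +
      ((e + 1 : ℝ) ^ M * ∑ i ∈ range (e + 1), ((cell Q y Δ s col 0 (s - 1) i n).card : ℝ) ^ M +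
      (e + 1 : ℝ) ^ M * ∑ i ∈ range (e + 1), ((cell Q y Δ s col s T i n).card : ℝ) ^ M)) := by
    intro n
    obtain ⟨f1, hf1⟩ : ∃ f1 : ℕ → ℕ, f1 = fun i => (cell Q y Δ s col 0 (s - 1) i n).card := ⟨_, rfl⟩
    obtain ⟨f2, hf2⟩ : ∃ f2 : ℕ → ℕ, f2 = fun i => (cell Q y Δ s col s T i n).card := ⟨_, rfl⟩
    have g1 : Nall Q y T n ≤ (2 + 2 * e) + (∑ i ∈ range (e + 1), f1 i + ∑ i ∈ range (e + 1), f2 i) := by
      rw [hf1, hf2]
      exact Nall_le Q y T n e s Δ hΔ col hcol1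
    have g2 := Nat.pow_le_pow_left g1 M
    have g3 := pow_sum_le (range (e + 1)) (by simp) f1 M
    have g4 := pow_sum_le (range (e + 1)) (by simp) f2 M
    have g5 := pow_sum_le (univ : Finset (Fin 3)) (by simp)
      ![2 + 2 * e, ∑ i ∈ range (e + 1), f1 i, ∑ i ∈ range (e + 1), f2 i] M
    rw [Fin.sum_univ_three, Fin.sum_univ_three] at g5
    simp only [Matrix.cons_val_zero, Matrix.cons_val_one, Matrix.cons_val, card_univ, Fintype.card_fin] at g5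
    rw [card_range] at g3 g4
    have g6 : (Nall Q y T n) ^ M ≤ 3 ^ M * ((2 + 2 * e) ^ M +
        ((e + 1) ^ M * ∑ i ∈ range (e + 1), f1 i ^ M + (e + 1) ^ M * ∑ i ∈ range (e + 1), f2 i ^ M)) := by
      calc (Nall Q y T n) ^ M ≤ (2 + 2 * e + (∑ i ∈ range (e + 1), f1 i + ∑ i ∈ range (e + 1), f2 i)) ^ M := g2
        _ = (2 + 2 * e + ∑ i ∈ range (e + 1), f1 i + ∑ i ∈ range (e + 1), f2 i) ^ M := by rw [← add_assoc]
        _ ≤ 3 ^ M * ((2 + 2 * e) ^ M + (∑ i ∈ range (e + 1), f1 i) ^ M + (∑ i ∈ range (e + 1), f2 i) ^ M) := g5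
        _ ≤ _ := by
          apply Nat.mul_le_mul_left
          rw [add_assoc]
          exact Nat.add_le_add_left (Nat.add_le_add g3 g4) _
    rw [hf1, hf2] at g6
    exact_mod_cast g6
  calc ∑ n ∈ Icc 1 Y, uB Q y B n * (Nall Q y T n : ℝ) ^ M ≤
        ∑ n ∈ Icc 1 Y, uB Q y B n * (3 ^ M * ((2 + 2 * e : ℝ) ^ M +
      ((e + 1 : ℝ) ^ M * ∑ i ∈ range (e + 1), ((cell Q y Δ s col 0 (s - 1) i n).card : ℝ) ^ M +
      (e + 1 : ℝ) ^ M * ∑ i ∈ range (e + 1), ((cell Q y Δ s col s T i n).card : ℝ) ^ M))) :=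
        Finset.sum_le_sum fun n _ => mul_le_mul_of_nonneg_left (hpt n) (hu0 n)
    _ = 3 ^ M * ((2 + 2 * e : ℝ) ^ M * ∑ n ∈ Icc 1 Y, uB Q y B n +
        ((e + 1 : ℝ) ^ M * ∑ i ∈ range (e + 1), ∑ n ∈ Icc 1 Y, uB Q y B n *
          ((cell Q y Δ s col 0 (s - 1) i n).card : ℝ) ^ M +
        (e + 1 : ℝ) ^ M * ∑ i ∈ range (e + 1), ∑ n ∈ Icc 1 Y, uB Q y B n *
          ((cell Q y Δ s col s T i n).card : ℝ) ^ M)) := by
        exact sum_rearr (Icc 1 Y) (range (e + 1)) _ _ _ _ _ _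
    _ ≤ 3 ^ M * ((2 + 2 * e : ℝ) ^ M * (3 * P) +
        ((e + 1 : ℝ) ^ M * ((e + 1) * (D * P)) + (e + 1 : ℝ) ^ M * ((e + 1) * (D * P)))) := by
        apply mul_le_mul_of_nonneg_left _ (by positivity)
        apply add_le_add
        · exact mul_le_mul_of_nonneg_left hbase (by positivity)
        · have hsum : ∀ a b : ℕ, b ≤ T → ¬ (a < s ∧ s ≤ b) →
              ∑ i ∈ range (e + 1), ∑ n ∈ Icc 1 Y, uB Q y B n * ((cell Q y Δ s col a b i n).card : ℝ) ^ M ≤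
              (e + 1) * (D * P) := by
            intro a b hb hab
            refine (Finset.sum_le_card_nsmul _ _ _ fun i _ => hcell a b i hb hab).trans ?_
            rw [card_range, nsmul_eq_mul]
            push_cast
            exact le_rfl
          apply add_le_add
          · exact mul_le_mul_of_nonneg_left (hsum 0 (s - 1) (by omega) (by omega)) (by positivity)
          · exact mul_le_mul_of_nonneg_left (hsum s T le_rfl (by omega)) (by positivity)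
    _ = C * P := by
        rw [hC]
        ring
    _ ≤ (C + 1) * P := by linarith
    _ = _ := by rw [hP]

end Pool.Agent.U832.RG
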