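import Pool.Agent.U832.RG.ExMom

/-!
# Colouring the shifts, and bounded moments with exceptional shifts
-/

set_option autoImplicit false

namespace Pool.Agent.U832.RG

open Finset Filter
open Pool.Agent.W123.RP Pool.Agent.H373R2.T7 Pool.Agent.W123.RU Pool.Agent.TH464.PO

/-- a colouring without exceptional differences -/
lemma exists_col (Δ : Finset ℕ) (e : ℕ) (he : Δ.card ≤ e) (N : ℕ) : ∃ col : ℕ → ℕ, (∀ n, col n ≤ e) ∧
    ∀ m n, n ≤ N → m < n → n - m ∈ Δ → col m ≠ col n := by
  induction N with
  | zero => exact ⟨fun _ => 0, fun _ => Nat.zero_le _, fun m n h1 h2 => by omega⟩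
  | succ N ih =>
    obtain ⟨col, h1, h2⟩ := ih
    obtain ⟨i, hi, hi'⟩ : ∃ i ∈ range (e + 1), i ∉ Δ.image (fun t => col (N + 1 - t)) := by
      apply Finset.exists_mem_notMem_of_card_lt_card
      rw [card_range]
      exact lt_of_le_of_lt card_image_le (by omega)
    rw [mem_range] at hi
    refine ⟨Function.update col (N + 1) i, fun n => ?_, fun m n hn hmn hd => ?_⟩
    · by_cases h : n = N + 1
      · rw [h, Function.update_self]
        omega
      · rw [Function.update_of_ne h]
        exact h1 n
    · rw [Function.update_of_ne (by omega : m ≠ N + 1)]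
      by_cases h : n = N + 1
      · rw [h, Function.update_self]
        intro h3
        apply hi'
        rw [mem_image]
        refine ⟨N + 1 - m, h ▸ hd, ?_⟩
        rw [← h3]
        congr 1
        omega
      · rw [Function.update_of_ne h]
        exact h2 m n (by omega) hmn hd

/-- powers of sums -/
lemma pow_sum_le {ι : Type*} (s : Finset ι) (hs : s.Nonempty) (f : ι → ℕ) (M : ℕ) :
    (∑ i ∈ s, f i) ^ M ≤ s.card ^ M * ∑ i ∈ s, f i ^ M := by
  obtain ⟨i0, hi0, hmax⟩ := Finset.exists_max_image s f hs
  have h1 : ∑ i ∈ s, f i ≤ s.card * f i0 := by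
    have := Finset.sum_le_card_nsmul s f (f i0) hmax
    simpa using this
  calc (∑ i ∈ s, f i) ^ M ≤ (s.card * f i0) ^ M := Nat.pow_le_pow_left h1 M
    _ = s.card ^ M * f i0 ^ M := mul_pow _ _ _
    _ ≤ _ := Nat.mul_le_mul_left _ (Finset.single_le_sum (f := fun i => f i ^ M) (fun _ _ => Nat.zero_le _) hi0)

/-- powers and binomial coefficients -/
lemma pow_le_choose (x M : ℕ) : x ^ M ≤ (2 * M) ^ M + 2 ^ M * M.factorial * x.choose M := by
  rcases Nat.lt_or_ge x (2 * M) with h | h
  · exact (Nat.pow_le_pow_left h.le M).trans (Nat.le_add_right _ _)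
  · have h1 : x ≤ 2 * (x + 1 - M) := by omega
    have h2 := Nat.pow_sub_le_descFactorial x M
    calc x ^ M ≤ (2 * (x + 1 - M)) ^ M := Nat.pow_le_pow_left h1 M
      _ = 2 ^ M * (x + 1 - M) ^ M := mul_pow _ _ _
      _ ≤ 2 ^ M * x.descFactorial M := Nat.mul_le_mul_left _ h2
      _ = 2 ^ M * M.factorial * x.choose M := by
          rw [Nat.descFactorial_eq_factorial_mul_choose, mul_assoc]
      _ ≤ _ := Nat.le_add_left _ _

open Classical in
/-- the sifted elements of one cell -/
noncomputable def cell (Q : ℕ → ℕ → Prop) (y : ℕ) (Δ : Finset ℕ) (s : ℕ) (col : ℕ → ℕ) (a b i n : ℕ) : Finset ℕ :=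
  (Ioc a b).filter (fun h => col h = i ∧ max h s - min h s ∉ Δ ∧ Sf Q y (n + h))

open Classical in
/-- all sifted elements -/
noncomputable def Nall (Q : ℕ → ℕ → Prop) (y T n : ℕ) : ℕ := ((range (T + 1)).filter (fun h => Sf Q y (n + h))).card

open Classical in
lemma Nall_le (Q : ℕ → ℕ → Prop) (y T n e s : ℕ) (Δ : Finset ℕ) (he : Δ.card ≤ e) (col : ℕ → ℕ)
    (hcol : ∀ n, col n ≤ e) :
    Nall Q y T n ≤ (2 + 2 * e) + (∑ i ∈ range (e + 1), (cell Q y Δ s col 0 (s - 1) i n).card +
      ∑ i ∈ range (e + 1), (cell Q y Δ s col s T i n).card) := by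
  have hsub : (range (T + 1)).filter (fun h => Sf Q y (n + h)) ⊆
      ({0, s} ∪ (Δ.image (fun t => s + t) ∪ Δ.image (fun t => s - t))) ∪
      ((range (e + 1)).biUnion (fun i => cell Q y Δ s col 0 (s - 1) i n) ∪
        (range (e + 1)).biUnion (fun i => cell Q y Δ s col s T i n)) := by
    intro h hh
    rw [mem_filter, mem_range] at hh
    rw [mem_union, mem_union, mem_union, mem_union]
    by_cases h0 : h = 0 ∨ h = s
    · left
      left
      rw [mem_insert, mem_singleton]
      exact h0
    · push Not at h0
      by_cases hΔ : max h s - min h s ∈ Δ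
      · left
        right
        rw [mem_image, mem_image]
        rcases Nat.lt_or_ge h s with hlt | hge
        · right
          exact ⟨_, hΔ, by omega⟩
        · left
          exact ⟨_, hΔ, by omega⟩
      · right
        rw [mem_biUnion, mem_biUnion]
        rcases Nat.lt_or_ge h s with hlt | hge
        · left
          refine ⟨col h, mem_range.2 (by have := hcol h; omega), ?_⟩
          unfold cell
          rw [mem_filter, mem_Ioc]
          exact ⟨by omega, rfl, hΔ, hh.2⟩
        · right
          refine ⟨col h, mem_range.2 (by have := hcol h; omega), ?_⟩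
          unfold cell
          rw [mem_filter, mem_Ioc]
          exact ⟨by omega, rfl, hΔ, hh.2⟩
  unfold Nall
  refine (card_le_card hsub).trans ?_
  refine (card_union_le _ _).trans ?_
  apply Nat.add_le_add
  · refine (card_union_le _ _).trans ?_
    apply Nat.add_le_add
    · exact card_le_two
    · refine (card_union_le _ _).trans ?_
      have h1 : (Δ.image (fun t => s + t)).card ≤ Δ.card := card_image_le
      have h2 : (Δ.image (fun t => s - t)).card ≤ Δ.card := card_image_le
      omega
  · refine (card_union_le _ _).trans ?_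
    exact Nat.add_le_add card_biUnion_le card_biUnion_le

open Classical in
/-- the families in a cell are good -/
lemma cell_choose (Q : ℕ → ℕ → Prop) (y : ℕ) (Δ B : Finset ℕ) (s T a b i n M : ℕ) (col : ℕ → ℕ)
    (hcol : ∀ m n, n ≤ T → m < n → n - m ∈ Δ → col m ≠ col n) (hB : B ⊆ {s}) (hb : b ≤ T) :
    uB Q y B n * ((cell Q y Δ s col a b i n).card.choose M : ℝ) ≤
      XX Q y Δ B (fun _ : Fin 1 => a) (fun _ => b) (fun _ => M) n := by
  unfold uB
  by_cases hu : ∀ h ∈ B, Sf Q y (n + h)
  swap
  · rw [if_neg hu, zero_mul]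
    unfold XX
    apply Finset.sum_nonneg
    intro H _
    split_ifs <;> norm_num
  rw [if_pos hu, one_mul, ← card_powersetCard]
  unfold XX
  rw [Finset.sum_ite, Finset.sum_const_zero, add_zero, Finset.sum_const, nsmul_eq_mul, mul_one]
  have : (powersetCard M (cell Q y Δ s col a b i n)).card ≤
      ((FamG Δ B (fun _ : Fin 1 => a) (fun _ => b) (fun _ => M)).filter
        (fun H => ∀ h ∈ GG B H, Sf Q y (n + h))).card := by
    apply Finset.card_le_card_of_injOn (fun G => fun _ => G)
    · intro G hG
      rw [mem_coe, mem_powersetCard] at hG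
      have hU : UU (fun _ : Fin 1 => G) = G := by
        ext x
        rw [mem_UU]
        simp
      have hGc : ∀ h ∈ G, h ∈ Ioc a b ∧ col h = i ∧ max h s - min h s ∉ Δ ∧ Sf Q y (n + h) := by
        intro h hh
        have := hG.1 hh
        unfold cell at this
        rw [mem_filter] at this
        exact this
      rw [mem_coe, mem_filter]
      unfold FamG
      rw [mem_filter, mem_Fam]
      refine ⟨⟨fun _ => ⟨fun h hh => (hGc h hh).1, hG.2⟩, ?_⟩, ?_⟩
      · intro x hx
        unfold prs at hx
        rw [mem_filter, mem_product] at hx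
        obtain ⟨⟨h1, h2⟩, h3⟩ := hx
        unfold GG at h1 h2
        rw [hU, mem_union] at h1 h2
        intro hd
        rcases h1 with h1 | h1
        · have e1 := mem_singleton.1 (hB h1)
          rcases h2 with h2 | h2
          · have e2 := mem_singleton.1 (hB h2)
            omega
          · apply (hGc _ h2).2.2.1
            rw [← e1, max_eq_left h3.le, min_eq_right h3.le]
            exact hd
        · rcases h2 with h2 | h2
          · have e2 := mem_singleton.1 (hB h2)
            apply (hGc _ h1).2.2.1
            rw [← e2, max_eq_right h3.le, min_eq_left h3.le]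
            exact hd
          · have g1 := hGc _ h1
            have g2 := hGc _ h2
            have g3 := mem_Ioc.1 g2.1
            exact hcol _ _ (by omega) h3 hd (g1.2.1.trans g2.2.1.symm)
      · intro h hh
        unfold GG at hh
        rw [hU, mem_union] at hh
        rcases hh with hh | hh
        · exact hu h hh
        · exact (hGc h hh).2.2.2
    · intro G _ G' _ h
      exact congrFun h 0
  exact_mod_cast this

end Pool.Agent.U832.RG
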