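import Pool.Agent.U832.RG.ExSmall

/-!
# The joint law with exceptional shifts
-/

set_option autoImplicit false

namespace Pool.Agent.U832.RG

open Finset Filter
open Pool.Agent.W123.RP Pool.Agent.H373R2.T7 Pool.Agent.W123.RU Pool.Agent.TH464.PO

variable {J : ℕ}

open Classical in
lemma xx_le (Q : ℕ → ℕ → Prop) (y : ℕ) (Δ B : Finset ℕ) (a b k : Fin J → ℕ) (n : ℕ) :
    XX Q y Δ B a b k n ≤ uB Q y B n * ∏ j, ((Nj Q y (a j) (b j) n).choose (k j) : ℝ) := by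
  have h := count_fam B a b k (fun h => Sf Q y (n + h))
  unfold uB Nj
  refine le_trans ?_ (le_of_eq h)
  unfold XX FamG
  apply Finset.sum_le_sum_of_subset_of_nonneg (filter_subset _ _)
  intro H _ _
  split_ifs <;> norm_num

open Classical in
lemma xx_eq {T : ℕ} (Q : ℕ → ℕ → Prop) (y : ℕ) (Δ B : Finset ℕ) (a b k : Fin J → ℕ) (n : ℕ)
    (hw : Win T B a b) (hE : ¬ EX Q y Δ T n) :
    XX Q y Δ B a b k n = uB Q y B n * ∏ j, ((Nj Q y (a j) (b j) n).choose (k j) : ℝ) := by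
  have h := count_fam B a b k (fun h => Sf Q y (n + h))
  unfold uB Nj
  refine Eq.trans ?_ h
  unfold XX FamG
  apply Finset.sum_subset (filter_subset _ _)
  intro H hH hH'
  rw [mem_filter] at hH'
  have hg : ¬ Gd Δ (GG B H) := fun hg => hH' ⟨hH, hg⟩
  rw [if_neg]
  intro hall
  unfold Gd at hg
  push Not at hg
  obtain ⟨x, hx, hx'⟩ := hg
  unfold prs at hx
  rw [mem_filter, mem_product] at hx
  obtain ⟨⟨h1, h2⟩, h3⟩ := hx
  apply hE
  have hT : ∀ z ∈ GG B H, z ≤ T := by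
    intro z hz
    unfold GG at hz
    rcases mem_union.1 hz with hz | hz
    · exact hw.base z hz
    · exact (mem_Icc.1 (UU_sub hw hH hz)).2
  refine ⟨x.1, x.2 - x.1, hx', by omega, ?_, hall x.1 h1, ?_⟩
  · have := hT x.2 h2
    omega
  · have := hall x.2 h2
    rwa [show n + x.1 + (x.2 - x.1) = n + x.2 by omega]

open Classical in
lemma prod_choose_le {T : ℕ} (Q : ℕ → ℕ → Prop) (y n : ℕ) {B : Finset ℕ} {a b : Fin J → ℕ} (k : Fin J → ℕ)
    (hw : Win T B a b) :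
    ∏ j, ((Nj Q y (a j) (b j) n).choose (k j) : ℝ) ≤ (Nall Q y T n : ℝ) ^ (∑ j, k j) := by
  rw [← Finset.prod_pow_eq_pow_sum]
  apply Finset.prod_le_prod
  · intro j _
    exact Nat.cast_nonneg _
  · intro j _
    have h1 : Nj Q y (a j) (b j) n ≤ Nall Q y T n := by
      unfold Nj Nall
      apply card_le_card
      intro h hh
      rw [mem_filter, mem_Ioc] at hh
      rw [mem_filter, mem_range]
      have := hw.bT j
      exact ⟨by omega, hh.2⟩
    exact_mod_cast (Nat.choose_le_pow _ _).trans (Nat.pow_le_pow_left h1 _)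

lemma QH_Qt (Q : ℕ → ℕ → Prop) (Z s t : ℕ) : QH (Qt Q Z) {s, s + t} = QH Q {s + Z, s + Z + t} := by
  funext p m
  apply propext
  unfold QH Qt
  constructor
  · rintro ⟨h, hh, hq⟩
    rw [mem_insert, mem_singleton] at hh
    rcases hh with hh | hh
    · refine ⟨s + Z, mem_insert_self _ _, ?_⟩
      rwa [hh, add_assoc] at hq
    · refine ⟨s + Z + t, mem_insert_of_mem (mem_singleton_self _), ?_⟩
      rwa [hh, show m + (s + t) + Z = m + (s + Z + t) by ring] at hq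
  · rintro ⟨h, hh, hq⟩
    rw [mem_insert, mem_singleton] at hh
    rcases hh with hh | hh
    · refine ⟨s, mem_insert_self _ _, ?_⟩
      rwa [hh, ← add_assoc] at hq
    · refine ⟨s + t, mem_insert_of_mem (mem_singleton_self _), ?_⟩
      rwa [hh, show m + (s + Z + t) = m + (s + t) + Z by ring] at hq

open Classical in
/-- **The joint law of several windows with exceptional shifts.** -/
theorem gen_proc_ex (c e : ℕ) (hc : 1 ≤ c) (J L : ℕ) (x0 ε : ℝ) (hε : 0 < ε) :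
    ∃ (K0 y0 T0 R0 : ℕ) (η' κ x1 κ' : ℝ), 0 < η' ∧ 0 < κ ∧ 0 < x1 ∧ 0 < κ' ∧
      ∀ (Q : ℕ → ℕ → Prop) (Z Y y : ℕ), PerB Q c → (∀ p : ℕ, p.Prime → nuB Q p < p) → y0 ≤ y →
      y ^ K0 ≤ Y → Vq Q y ≤ κ → ∀ Δ : Finset ℕ, Δ.card ≤ e →
      (∀ t ∈ Δ, 1 ≤ t → ∀ s, Vq (QH Q {s, s + t}) y ≤ κ' * Vq Q y) →
      (∀ T : ℕ, κ ≤ T * Vq Q y → T * Vq Q y ≤ x1 → T0 ≤ T ∧ T ^ R0 ≤ Y ∧ ∀ t ∈ Icc 1 T, t ∉ Δ →
        ((((pz y).filter (fun p : ℕ => T < p ∧ CoG Q p t)).card : ℕ) : ℝ) ≤ η' * T) →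
      ∀ (T : ℕ) (B : Finset ℕ) (a b k : Fin J → ℕ), T * Vq Q y ≤ x0 → Win T B a b → (∀ j, k j ≤ L) →
        |(Pat (Sf Q y) B a b k Z Y : ℝ) -
          Y * Vq Q y ^ B.card * ∏ j, po (k j) (((b j - a j : ℕ) : ℝ) * Vq Q y)| ≤
          ε * (Y * Vq Q y ^ B.card) := by
  obtain ⟨X0, hX0⟩ : ∃ X0 : ℝ, X0 = max x0 1 := ⟨_, rfl⟩
  have hX1 : 1 ≤ X0 := by rw [hX0]; exact le_max_right _ _
  have hxX : x0 ≤ X0 := by rw [hX0]; exact le_max_left _ _
  obtain ⟨R, η, hη, hlaw⟩ := multi_law J X0 1 (ε / 2) (by linarith) zero_le_one (by linarith) L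
  obtain ⟨η1, hη1⟩ : ∃ η1 : ℝ, η1 = min 1 (η / (4 * X0 ^ (J * R))) := ⟨_, rfl⟩
  have hη10 : 0 < η1 := by rw [hη1]; positivity
  have hη11 : η1 ≤ 1 := by rw [hη1]; exact min_le_left _ _
  have hη12 : η1 * X0 ^ (J * R) ≤ η / 4 := by
    have : η1 ≤ η / (4 * X0 ^ (J * R)) := by rw [hη1]; exact min_le_right _ _
    rw [le_div_iff₀ (by positivity)] at this
    linarith
  choose K1 y1 T1 η1' hη1' hmom using fun k : Fin J → ℕ => moment_ex c e hc k η1 hη10 hη11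
  choose C K2 y2 T2 η2' hC1 hη2' hbd using fun k : Fin J → ℕ => mom_bd c e (2 * ∑ j, k j) hc X0 hX1
  obtain ⟨KK, hKK⟩ : ∃ KK : Finset (Fin J → ℕ), KK = Fintype.piFinset (fun _ => range (R + 1)) := ⟨_, rfl⟩
  obtain ⟨CC, hCC⟩ : ∃ CC : ℝ, CC = ∑ k ∈ KK, C k + 1 := ⟨_, rfl⟩
  have hCk : ∀ k ∈ KK, C k ≤ CC := by
    intro k hk
    have : C k ≤ ∑ k ∈ KK, C k := Finset.single_le_sum (f := C) (fun k _ => by have := hC1 k; linarith) hk
    rw [hCC]
    linarith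
  have hCC0 : 0 < CC := by
    rw [hCC]
    have : 0 ≤ ∑ k ∈ KK, C k := Finset.sum_nonneg fun k _ => by have := hC1 k; linarith
    linarith
  obtain ⟨δ, hδ⟩ : ∃ δ : ℝ, δ = min (ε / 2) ((η / 4) ^ 2 / CC) := ⟨_, rfl⟩
  have hδ0 : 0 < δ := by rw [hδ]; positivity
  have hδ1 : δ ≤ ε / 2 := by rw [hδ]; exact min_le_left _ _
  have hδ2 : δ * CC ≤ (η / 4) ^ 2 := by
    have : δ ≤ (η / 4) ^ 2 / CC := by rw [hδ]; exact min_le_right _ _
    rwa [le_div_iff₀ hCC0] at this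
  obtain ⟨K3, y3, T3, η3, κ', hη3, hκ', hexc⟩ := exc_small c e hc (2 * X0) δ (by linarith) hδ0
  obtain ⟨T4, hT4⟩ : ∃ T4 : ℕ, 4 / η ≤ T4 := exists_nat_ge _
  have hη0 : ∃ η0 : ℝ, 0 < η0 ∧ ∀ k ∈ KK, η0 ≤ min (η1' k) (η2' k) := by
    have hne : KK.Nonempty := ⟨fun _ => 0, by
      rw [hKK, Fintype.mem_piFinset]
      intro j
      rw [mem_range]
      omega⟩
    obtain ⟨k0, hk0, hmin⟩ := Finset.exists_min_image KK (fun k => min (η1' k) (η2' k)) hne
    exact ⟨_, lt_min (hη1' k0) (hη2' k0), hmin⟩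
  obtain ⟨η0, hη00, hη0⟩ := hη0
  obtain ⟨M0, hM0⟩ : ∃ M0, M0 = 2 * (J * R) + 4 := ⟨_, rfl⟩
  obtain ⟨K, hK⟩ : ∃ K, K = (∑ k ∈ KK, K1 k) + (∑ k ∈ KK, K2 k) + K3 + 1 := ⟨_, rfl⟩
  refine ⟨K, (∑ k ∈ KK, y1 k) + (∑ k ∈ KK, y2 k) + y3 + 1,
    (∑ k ∈ KK, T1 k) + (∑ k ∈ KK, T2 k) + T3 + T4 + 2,
    4 * M0, min η0 η3, 1 / 2, 2 * X0, κ', lt_min hη00 hη3, by norm_num, by linarith, hκ', ?_⟩
  intro Q Z Y y hQ hadm hy hyY hVκ Δ hΔ hexcV hT T B a b k hTx hwin hk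
  obtain ⟨V, hV⟩ : ∃ V, V = Vq Q y := ⟨_, rfl⟩
  have hVpos : 0 < V := by rw [hV]; exact Vq_pos Q hadm y
  have hV1 : V ≤ 1 := by rw [hV]; exact Vq_le_one Q y
  rw [← hV] at hTx hT hVκ ⊢
  obtain ⟨T', hT'⟩ : ∃ T' : ℕ, T' = ⌊X0 / V⌋₊ := ⟨_, rfl⟩
  have hXV : 0 ≤ X0 / V := by positivity
  have hT'1 : (T' : ℝ) * V ≤ X0 := by
    have h1 : (T' : ℝ) ≤ X0 / V := by rw [hT']; exact Nat.floor_le hXV
    rwa [le_div_iff₀ hVpos] at h1
  have hT'2 : 1 / 2 ≤ (T' : ℝ) * V := by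
    have h1 : X0 / V < T' + 1 := by rw [hT']; exact Nat.lt_floor_add_one _
    rw [div_lt_iff₀ hVpos] at h1
    linarith
  have hTT' : T ≤ T' := by
    rw [hT']
    apply Nat.le_floor
    rw [le_div_iff₀ hVpos]
    linarith
  obtain ⟨hT0, hTR, hlarge⟩ := hT T' hT'2 (by linarith)
  obtain ⟨_, _, hlarge2⟩ := hT (2 * T') (by push_cast; linarith) (by push_cast; linarith)
  have hwin' := hwin.mono hTT'
  have hy1' : 1 ≤ y := by omega
  have hT2' : 2 ≤ T' := by omega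
  have hTr : (2 : ℝ) ≤ T' := by exact_mod_cast hT2'
  have hK1 : 1 ≤ K := by omega
  have hyY' : y ≤ Y := by
    calc y = y ^ 1 := (pow_one y).symm
      _ ≤ y ^ K := Nat.pow_le_pow_right hy1' hK1
      _ ≤ Y := hyY
  have hYr1 : (1 : ℝ) ≤ Y := by exact_mod_cast hy1'.trans hyY'
  have hYpos : (0 : ℝ) < Y := by linarith
  have hVlow : 1 ≤ 2 * (T' : ℝ) * V := by linarith
  -- the size of the sieve error
  have hroot : (2 * (T' : ℝ)) ^ M0 ≤ √(Y : ℝ) := by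
    apply Real.le_sqrt_of_sq_le
    calc ((2 * (T' : ℝ)) ^ M0) ^ 2 ≤ (((T' : ℝ) * T') ^ M0) ^ 2 := by
          apply pow_le_pow_left₀ (by positivity)
          apply pow_le_pow_left₀ (by positivity)
          nlinarith
      _ = (T' : ℝ) ^ (4 * M0) := by
          rw [← sq, ← pow_mul, ← pow_mul]
          congr 1
          ring
      _ ≤ Y := by exact_mod_cast hTR
  have hTYM : ∀ M : ℕ, M + 1 ≤ M0 → (2 * (T' : ℝ)) ^ M * √(Y : ℝ) ≤ Y * V := by
    intro M hM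
    have e2 : √(Y : ℝ) * √(Y : ℝ) = Y := Real.mul_self_sqrt hYpos.le
    have h1 : (2 * (T' : ℝ)) ^ (M + 1) ≤ √(Y : ℝ) :=
      (pow_le_pow_right₀ (by linarith) hM).trans hroot
    calc (2 * (T' : ℝ)) ^ M * √(Y : ℝ) ≤ ((2 * (T' : ℝ)) ^ M * √(Y : ℝ)) * (2 * (T' : ℝ) * V) :=
          le_mul_of_one_le_right (by positivity) hVlow
      _ = ((2 * (T' : ℝ)) ^ (M + 1) * √(Y : ℝ)) * V := by ring
      _ ≤ (√(Y : ℝ) * √(Y : ℝ)) * V := by gcongr
      _ = Y * V := by rw [e2]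
  obtain ⟨β, hβ⟩ : ∃ β, β = B.card := ⟨_, rfl⟩
  have hβ1 : β ≤ 1 := by rw [hβ]; exact hwin.card
  obtain ⟨s, hBs, hsT⟩ : ∃ s, B ⊆ {s} ∧ s ≤ T' := by
    rcases Finset.card_le_one_iff_subset_singleton.1 hwin.card with ⟨s, hs⟩
    rcases Finset.subset_singleton_iff.1 hs with h | h
    · exact ⟨0, by rw [h]; exact empty_subset _, Nat.zero_le _⟩
    · exact ⟨s, hs, hwin'.base s (by rw [h]; exact mem_singleton_self s)⟩
  have hVβ : V ≤ V ^ β := by
    calc V = V ^ 1 := (pow_one V).symm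
      _ ≤ V ^ β := pow_le_pow_of_le_one hVpos.le hV1 hβ1
  have hVβ0 : 0 < V ^ β := by positivity
  have hP0 : 0 < (Y : ℝ) * V ^ β := by positivity
  have hPerQ := perB_Qt Q c hQ Z
  have hVQ : Vq (Qt Q Z) y = V := by rw [Vq_Qt Q c hQ, hV]
  have hadmQ : ∀ p : ℕ, p.Prime → nuB (Qt Q Z) p < p := fun p hp => by
    rw [nuB_Qt Q c hQ]
    exact hadm p hp
  have hcoll : ∀ (U t : ℕ), ((pz y).filter (fun p : ℕ => U < p ∧ CoG (Qt Q Z) p t)).card ≤
      ((pz y).filter (fun p : ℕ => U < p ∧ CoG Q p t)).card := by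
    intro U t
    apply card_le_card
    intro p hp
    rw [mem_filter] at hp ⊢
    obtain ⟨h1, h2, m, h3, h4⟩ := hp
    refine ⟨h1, h2, m + Z, h3, ?_⟩
    unfold Qt at h4
    rwa [show m + t + Z = m + Z + t by ring] at h4
  have hlen : ∀ j, ((b j - a j : ℕ) : ℝ) ≤ T' := by
    intro j
    have := hwin'.bT j
    exact_mod_cast (by omega : b j - a j ≤ T')
  -- exceptional pairs
  have hE := hexc Y y T' (by omega) ((Nat.pow_le_pow_right hy1' (by omega)).trans hyY) (by omega)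
    (Qt Q Z) hPerQ hadmQ Δ hΔ (fun t ht htΔ => by
      have h1 : ((((pz y).filter (fun p : ℕ => 2 * T' < p ∧ CoG (Qt Q Z) p t)).card : ℕ) : ℝ) ≤
          ((((pz y).filter (fun p : ℕ => 2 * T' < p ∧ CoG Q p t)).card : ℕ) : ℝ) := by
        exact_mod_cast hcoll (2 * T') t
      exact h1.trans ((hlarge2 t ht htΔ).trans
        (mul_le_mul_of_nonneg_right (min_le_right _ _) (Nat.cast_nonneg _))))
    (fun t ht ht1 s' => by
      rw [QH_Qt, hVQ, hV]
      exact hexcV t ht ht1 (s' + Z)) (by rw [hVQ]; push_cast; linarith)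
    (by rw [hVQ]; push_cast; exact hTYM 3 (by omega)) B s hBs hsT
  rw [hVQ, ← hβ] at hE
  obtain ⟨u, hu⟩ : ∃ u : ℕ → ℝ, u = fun n => uB (Qt Q Z) y B n *
      (if EX (Qt Q Z) y Δ T' n then (0 : ℝ) else 1) := ⟨_, rfl⟩
  obtain ⟨v, hv⟩ : ∃ v : ℕ → ℝ, v = fun n => uB (Qt Q Z) y B n *
      (if EX (Qt Q Z) y Δ T' n then (1 : ℝ) else 0) := ⟨_, rfl⟩
  have hEv : ∑ n ∈ Icc 1 Y, v n ≤ δ * (Y * V ^ β) := by rw [hv]; exact hE
  have huB0 : ∀ n, 0 ≤ uB (Qt Q Z) y B n := fun n => by unfold uB; split_ifs <;> norm_num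
  have huv : ∀ n, uB (Qt Q Z) y B n = u n + v n := by
    intro n
    rw [hu, hv]
    dsimp only
    split_ifs <;> ring
  have hv0 : ∀ n, 0 ≤ v n := by
    intro n
    rw [hv]
    dsimp only
    have := huB0 n
    split_ifs <;> simp [this]
  have hu0 : ∀ n, 0 ≤ u n := by
    intro n
    rw [hu]
    dsimp only
    have := huB0 n
    split_ifs <;> simp [this]
  have hmain := hlaw (Icc 1 Y) u (fun j => Nj (Qt Q Z) y (a j) (b j))
    (Y * V ^ β) (Y * V ^ β) (fun j => ((b j - a j : ℕ) : ℝ) * V) hP0.le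
    (fun n _ => hu0 n) (fun j => by positivity)
    (fun j => (mul_le_mul_of_nonneg_right (hlen j) hVpos.le).trans hT'1) hP0.le (by linarith) ?_ k hk
  · rw [Pat_eq, ← hβ]
    have h1 : ∑ n ∈ Icc 1 Y, uB (Qt Q Z) y B n *
        (if ∀ j, Nj (Qt Q Z) y (a j) (b j) n = k j then (1 : ℝ) else 0) =
        ∑ n ∈ Icc 1 Y, u n * (if ∀ j, Nj (Qt Q Z) y (a j) (b j) n = k j then (1 : ℝ) else 0) +
        ∑ n ∈ Icc 1 Y, v n * (if ∀ j, Nj (Qt Q Z) y (a j) (b j) n = k j then (1 : ℝ) else 0) := by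
      rw [← Finset.sum_add_distrib]
      apply Finset.sum_congr rfl
      intro n _
      rw [huv n]
      ring
    have h2 : ∑ n ∈ Icc 1 Y, v n * (if ∀ j, Nj (Qt Q Z) y (a j) (b j) n = k j then (1 : ℝ) else 0) ≤
        ε / 2 * (Y * V ^ β) := by
      calc _ ≤ ∑ n ∈ Icc 1 Y, v n := by
            apply Finset.sum_le_sum
            intro n _
            apply mul_le_of_le_one_right (hv0 n)
            split_ifs <;> norm_num
        _ ≤ δ * (Y * V ^ β) := hEv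
        _ ≤ _ := mul_le_mul_of_nonneg_right hδ1 hP0.le
    have h3 : 0 ≤ ∑ n ∈ Icc 1 Y, v n * (if ∀ j, Nj (Qt Q Z) y (a j) (b j) n = k j then (1 : ℝ) else 0) := by
      apply Finset.sum_nonneg
      intro n _
      apply mul_nonneg (hv0 n)
      split_ifs <;> norm_num
    rw [h1]
    obtain ⟨m1, m2⟩ := abs_le.1 hmain
    rw [abs_le]
    constructor <;> linarith
  · intro l hl
    have hlK : l ∈ KK := by
      rw [hKK, Fintype.mem_piFinset]
      intro j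
      rw [mem_range]
      have := hl j
      omega
    have k1 : K1 l ≤ ∑ k ∈ KK, K1 k := Finset.single_le_sum (fun _ _ => Nat.zero_le _) hlK
    have k2 : K2 l ≤ ∑ k ∈ KK, K2 k := Finset.single_le_sum (fun _ _ => Nat.zero_le _) hlK
    have q1 : y1 l ≤ ∑ k ∈ KK, y1 k := Finset.single_le_sum (fun _ _ => Nat.zero_le _) hlK
    have q2 : y2 l ≤ ∑ k ∈ KK, y2 k := Finset.single_le_sum (fun _ _ => Nat.zero_le _) hlK
    have t1 : T1 l ≤ ∑ k ∈ KK, T1 k := Finset.single_le_sum (fun _ _ => Nat.zero_le _) hlK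
    have t2 : T2 l ≤ ∑ k ∈ KK, T2 k := Finset.single_le_sum (fun _ _ => Nat.zero_le _) hlK
    have hn : ∑ j, l j ≤ J * R := by
      calc ∑ j, l j ≤ ∑ _j : Fin J, R := Finset.sum_le_sum fun j _ => hl j
        _ = J * R := by simp
    have hlg : ∀ (ζ : ℝ), min η0 η3 ≤ ζ → ∀ t ∈ Icc 1 T', t ∉ Δ →
        ((((pz y).filter (fun p : ℕ => T' < p ∧ CoG (Qt Q Z) p t)).card : ℕ) : ℝ) ≤ ζ * T' := by
      intro ζ hζ t ht htΔ
      have h1 : ((((pz y).filter (fun p : ℕ => T' < p ∧ CoG (Qt Q Z) p t)).card : ℕ) : ℝ) ≤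
          ((((pz y).filter (fun p : ℕ => T' < p ∧ CoG Q p t)).card : ℕ) : ℝ) := by
        exact_mod_cast hcoll T' t
      exact h1.trans ((hlarge t ht htΔ).trans (mul_le_mul_of_nonneg_right hζ (Nat.cast_nonneg _)))
    have h1 := hmom l Y y T' (by omega)
      ((Nat.pow_le_pow_right hy1' (by omega)).trans hyY) (by omega) (Qt Q Z) hPerQ hadmQ Δ hΔ
      (hlg _ ((min_le_left _ _).trans ((hη0 l hlK).trans (min_le_left _ _)))) B a b hwin'
    rw [hVQ, ← hβ] at h1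
    have h2 := hbd l Y y T' (by omega)
      ((Nat.pow_le_pow_right hy1' (by omega)).trans hyY) (by omega) (Qt Q Z) hPerQ hadmQ Δ hΔ
      (hlg _ ((min_le_left _ _).trans ((hη0 l hlK).trans (min_le_right _ _)))) (by rw [hVQ]; exact hT'1)
      (by
        rw [hVQ]
        refine le_trans ?_ (hTYM (2 * ∑ j, l j) (by omega))
        apply mul_le_mul_of_nonneg_right _ (Real.sqrt_nonneg _)
        apply pow_le_pow_left₀ (by positivity)
        linarith) B s hBs hsT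
    rw [hVQ, ← hβ] at h2
    obtain ⟨N, hN⟩ : ∃ N : ℕ → ℝ, N = fun n => (Nall (Qt Q Z) y T' n : ℝ) ^ (∑ j, l j) := ⟨_, rfl⟩
    have hN0 : ∀ n, 0 ≤ N n := fun n => by rw [hN]; positivity
    -- the difference of the moments
    have hdiff : |∑ n ∈ Icc 1 Y, u n * ∏ j, ((Nj (Qt Q Z) y (a j) (b j) n).choose (l j) : ℝ) -
        ∑ n ∈ Icc 1 Y, XX (Qt Q Z) y Δ B a b l n| ≤ ∑ n ∈ Icc 1 Y, v n * N n := by
      rw [← Finset.sum_sub_distrib]
      refine (Finset.abs_sum_le_sum_abs _ _).trans (Finset.sum_le_sum fun n _ => ?_)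
      by_cases hEX : EX (Qt Q Z) y Δ T' n
      · have e1 : u n = 0 := by rw [hu]; dsimp only; rw [if_pos hEX, mul_zero]
        have e2 : v n = uB (Qt Q Z) y B n := by rw [hv]; dsimp only; rw [if_pos hEX, mul_one]
        have e3 : 0 ≤ XX (Qt Q Z) y Δ B a b l n := by
          unfold XX
          apply Finset.sum_nonneg
          intro H _
          split_ifs <;> norm_num
        rw [e1, e2, zero_mul, zero_sub, abs_neg, abs_of_nonneg e3]
        refine (xx_le (Qt Q Z) y Δ B a b l n).trans ?_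
        apply mul_le_mul_of_nonneg_left _ (huB0 n)
        rw [hN]
        exact prod_choose_le (Qt Q Z) y n l hwin'
      · have e1 : u n = uB (Qt Q Z) y B n := by rw [hu]; dsimp only; rw [if_neg hEX, mul_one]
        rw [e1, xx_eq (Qt Q Z) y Δ B a b l n hwin' hEX, sub_self, abs_zero]
        exact mul_nonneg (hv0 n) (hN0 n)
    have hCS : ∑ n ∈ Icc 1 Y, v n * N n ≤ η / 4 * (Y * V ^ β) := by
      have g0 : ∑ n ∈ Icc 1 Y, v n * N n = ∑ n ∈ Icc 1 Y, v n * (v n * N n) := by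
        apply Finset.sum_congr rfl
        intro n _
        have : v n = 0 ∨ v n = 1 := by
          rw [hv]
          dsimp only
          unfold uB
          split_ifs <;> simp
        rcases this with h | h <;> rw [h] <;> ring
      have g1 := Finset.sum_mul_sq_le_sq_mul_sq (Icc 1 Y) v (fun n => v n * N n)
      have g2 : ∑ n ∈ Icc 1 Y, v n ^ 2 ≤ δ * (Y * V ^ β) := by
        refine le_trans (le_of_eq ?_) hEv
        apply Finset.sum_congr rfl
        intro n _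
        have : v n = 0 ∨ v n = 1 := by
          rw [hv]
          dsimp only
          unfold uB
          split_ifs <;> simp
        rcases this with h | h <;> rw [h] <;> ring
      have g3 : ∑ n ∈ Icc 1 Y, (v n * N n) ^ 2 ≤ CC * (Y * V ^ β) := by
        calc ∑ n ∈ Icc 1 Y, (v n * N n) ^ 2 ≤
              ∑ n ∈ Icc 1 Y, uB (Qt Q Z) y B n * (Nall (Qt Q Z) y T' n : ℝ) ^ (2 * ∑ j, l j) := by
              apply Finset.sum_le_sum
              intro n _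
              have e1 : v n ^ 2 ≤ uB (Qt Q Z) y B n := by
                rw [hv]
                dsimp only
                unfold uB
                split_ifs <;> simp
              have e2 : N n ^ 2 = (Nall (Qt Q Z) y T' n : ℝ) ^ (2 * ∑ j, l j) := by
                rw [hN]
                dsimp only
                rw [← pow_mul]
                congr 1
                ring
              rw [mul_pow, e2]
              exact mul_le_mul_of_nonneg_right e1 (by positivity)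
          _ ≤ C l * (Y * V ^ β) := h2
          _ ≤ _ := mul_le_mul_of_nonneg_right (hCk l hlK) hP0.le
      have g4 : (∑ n ∈ Icc 1 Y, v n * N n) ^ 2 ≤ (η / 4 * (Y * V ^ β)) ^ 2 := by
        rw [g0]
        refine g1.trans ?_
        calc (∑ n ∈ Icc 1 Y, v n ^ 2) * (∑ n ∈ Icc 1 Y, (v n * N n) ^ 2) ≤
              (δ * (Y * V ^ β)) * (CC * (Y * V ^ β)) :=
              mul_le_mul g2 g3 (Finset.sum_nonneg fun n _ => sq_nonneg _) (by positivity)
          _ = (δ * CC) * (Y * V ^ β) ^ 2 := by ring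
          _ ≤ (η / 4) ^ 2 * (Y * V ^ β) ^ 2 := mul_le_mul_of_nonneg_right hδ2 (by positivity)
          _ = _ := by ring
      exact le_of_sq_le_sq g4 (by positivity)
    -- the main term
    have h3 : ((T' : ℝ) * V) ^ (∑ j, l j) ≤ X0 ^ (J * R) := by
      calc ((T' : ℝ) * V) ^ (∑ j, l j) ≤ X0 ^ (∑ j, l j) := pow_le_pow_left₀ (by positivity) hT'1 _
        _ ≤ X0 ^ (J * R) := pow_le_pow_right₀ hX1 hn
    have h4 : η1 * (Y * (V ^ β * ((T' : ℝ) * V) ^ (∑ j, l j))) ≤ η / 4 * (Y * V ^ β) := by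
      calc η1 * (Y * (V ^ β * ((T' : ℝ) * V) ^ (∑ j, l j))) ≤ η1 * (Y * (V ^ β * X0 ^ (J * R))) := by
            gcongr
        _ = (η1 * X0 ^ (J * R)) * (Y * V ^ β) := by ring
        _ ≤ η / 4 * (Y * V ^ β) := mul_le_mul_of_nonneg_right hη12 hP0.le
    have h5 : (T' : ℝ) ^ (∑ j, l j) * √(Y : ℝ) ≤ η / 4 * (Y * V ^ β) := by
      have g1 : (T' : ℝ) ^ (∑ j, l j) * √(Y : ℝ) ≤ (2 * (T' : ℝ)) ^ (J * R) * √(Y : ℝ) := by
        apply mul_le_mul_of_nonneg_right _ (Real.sqrt_nonneg _)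
        calc (T' : ℝ) ^ (∑ j, l j) ≤ (2 * (T' : ℝ)) ^ (∑ j, l j) :=
              pow_le_pow_left₀ (by positivity) (by linarith) _
          _ ≤ _ := pow_le_pow_right₀ (by linarith) hn
      refine g1.trans ?_
      have g2 : (2 * (T' : ℝ)) * ((2 * (T' : ℝ)) ^ (J * R) * √(Y : ℝ)) ≤ (2 * (T' : ℝ)) * (η / 4 * (Y * V ^ β)) := by
        calc (2 * (T' : ℝ)) * ((2 * (T' : ℝ)) ^ (J * R) * √(Y : ℝ)) = (2 * (T' : ℝ)) ^ (J * R + 1) * √(Y : ℝ) := by
              ring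
          _ ≤ Y * V := hTYM (J * R + 1) (by omega)
          _ ≤ Y * V ^ β := mul_le_mul_of_nonneg_left hVβ hYpos.le
          _ ≤ ((2 * (T' : ℝ)) * (η / 4)) * (Y * V ^ β) := by
              apply le_mul_of_one_le_left hP0.le
              have g3 : 4 / η ≤ T' := hT4.trans (by exact_mod_cast (by omega : T4 ≤ T'))
              rw [div_le_iff₀ hη] at g3
              linarith
          _ = _ := by ring
      exact le_of_mul_le_mul_left g2 (by linarith)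
    have e : (Y : ℝ) * V ^ β * ∏ j, ((((b j - a j : ℕ) : ℝ) * V) ^ l j / ((l j).factorial : ℝ)) =
        Y * (V ^ β * ∏ j, ((((b j - a j : ℕ) : ℝ) * V) ^ l j / ((l j).factorial : ℝ))) := by ring
    have h6 := abs_sub_le (∑ n ∈ Icc 1 Y, u n * ∏ j, ((Nj (Qt Q Z) y (a j) (b j) n).choose (l j) : ℝ))
      (∑ n ∈ Icc 1 Y, XX (Qt Q Z) y Δ B a b l n)
      (Y * V ^ β * ∏ j, ((((b j - a j : ℕ) : ℝ) * V) ^ l j / ((l j).factorial : ℝ)))
    rw [e] at h6 ⊢
    have h7 : 0 ≤ η * (Y * V ^ β) := by positivity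
    linarith

end Pool.Agent.U832.RG
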