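import Pool.Agent.TH464.PO.Comb

/-!
# From mixed binomial moments to the joint law of several counts, with weights
-/

set_option autoImplicit false

namespace Pool.Agent.U832.RG

open Finset Pool.Agent.TH464.PO

/-- The probability that a Poisson variable of mean `x` has the value `m`. -/
noncomputable def po (m : ℕ) (x : ℝ) : ℝ := Real.exp (-x) * x ^ m / m.factorial

lemma po_nonneg (m : ℕ) (x : ℝ) (hx : 0 ≤ x) : 0 ≤ po m x := by
  unfold po
  positivity

lemma po_le_one (m : ℕ) (x : ℝ) (hx : 0 ≤ x) : po m x ≤ 1 := by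
  have h := poisson_tail x hx 0 {m} (fun j _ => Nat.zero_le j)
  rw [Finset.sum_singleton] at h
  unfold po
  simpa using h

/-- the weighted Bonferroni estimate for one count -/
lemma one_bonf (Om : Finset ℕ) (u : ℕ → ℝ) (N : ℕ → ℕ) (a x W η : ℝ)
    (hu : ∀ n ∈ Om, 0 ≤ u n) (hx : 0 ≤ x) (ha : 0 ≤ a) (j m : ℕ)
    (h : ∀ k ≤ m + 1 + j, |∑ n ∈ Om, u n * ((N n).choose k : ℝ) - a * (x ^ k / k.factorial)| ≤ η * W) :
    |∑ n ∈ Om, u n * (if N n = j then (1 : ℝ) else 0) - a * po j x| ≤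
      a * (((m + 1 + j).choose j : ℝ) * (x ^ (m + 1 + j) / (m + 1 + j).factorial) * (1 + Real.exp x)) +
        η * W * ∑ i ∈ range (m + 2), ((i + j).choose j : ℝ) := by
  obtain ⟨S, hS⟩ : ∃ S : ℝ, S = ∑ i ∈ range (m + 1), (-1) ^ i * (((i + j).choose j : ℝ) *
      ∑ n ∈ Om, u n * ((N n).choose (i + j) : ℝ)) := ⟨_, rfl⟩
  have h2 : |∑ n ∈ Om, u n * (if N n = j then (1 : ℝ) else 0) - S| ≤
      ((m + 1 + j).choose j : ℝ) * ∑ n ∈ Om, u n * ((N n).choose (m + 1 + j) : ℝ) := by
    have e : S = ∑ n ∈ Om, u n * ∑ i ∈ range (m + 1), (-1) ^ i * (((i + j).choose j : ℝ) *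
        ((N n).choose (i + j) : ℝ)) := by
      rw [hS]
      simp_rw [Finset.mul_sum]
      rw [Finset.sum_comm]
      apply Finset.sum_congr rfl
      intro n _
      apply Finset.sum_congr rfl
      intro i _
      ring
    rw [e, ← Finset.sum_sub_distrib]
    refine (Finset.abs_sum_le_sum_abs _ _).trans ?_
    rw [Finset.mul_sum]
    apply Finset.sum_le_sum
    intro n hn
    rw [← mul_sub, abs_mul, abs_of_nonneg (hu n hn)]
    have := mul_le_mul_of_nonneg_left (bonf_eq (N n) j m) (hu n hn)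
    refine this.trans (le_of_eq ?_)
    ring
  obtain ⟨P, hP⟩ : ∃ P : ℝ, P = ∑ i ∈ range (m + 1), (-1) ^ i * (((i + j).choose j : ℝ) *
      (x ^ (i + j) / (i + j).factorial)) := ⟨_, rfl⟩
  have h3 := bonf_poisson x hx j m
  rw [← hP] at h3
  have h4 : |S - a * P| ≤ η * W * ∑ i ∈ range (m + 1), ((i + j).choose j : ℝ) := by
    rw [hS, hP, Finset.mul_sum, ← Finset.sum_sub_distrib]
    refine (Finset.abs_sum_le_sum_abs _ _).trans ?_
    rw [Finset.mul_sum]
    apply Finset.sum_le_sum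
    intro i hi
    rw [mem_range] at hi
    have h5 := h (i + j) (by omega)
    have e : (-1 : ℝ) ^ i * (((i + j).choose j : ℝ) * ∑ n ∈ Om, u n * ((N n).choose (i + j) : ℝ)) -
        a * ((-1) ^ i * (((i + j).choose j : ℝ) * (x ^ (i + j) / (i + j).factorial))) =
        (-1) ^ i * (((i + j).choose j : ℝ) * (∑ n ∈ Om, u n * ((N n).choose (i + j) : ℝ) -
          a * (x ^ (i + j) / (i + j).factorial))) := by ring
    rw [e, abs_mul, abs_pow, abs_neg, abs_one, one_pow, one_mul, abs_mul, Nat.abs_cast, mul_comm]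
    exact mul_le_mul_of_nonneg_right h5 (Nat.cast_nonneg _)
  have h5 : ∑ n ∈ Om, u n * ((N n).choose (m + 1 + j) : ℝ) ≤
      a * (x ^ (m + 1 + j) / (m + 1 + j).factorial) + η * W := by
    have := (abs_le.1 (h (m + 1 + j) le_rfl)).2
    linarith
  have h6 := mul_le_mul_of_nonneg_left h5 (Nat.cast_nonneg ((m + 1 + j).choose j) : (0 : ℝ) ≤ _)
  have h7 : |a * P - a * po j x| ≤ a *
      (((m + 1 + j).choose j : ℝ) * (x ^ (m + 1 + j) / (m + 1 + j).factorial) * Real.exp x) := by
    rw [← mul_sub, abs_mul, abs_of_nonneg ha, abs_sub_comm]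
    exact mul_le_mul_of_nonneg_left h3 ha
  have h8 : ∑ n ∈ Om, u n * (if N n = j then (1 : ℝ) else 0) - a * po j x =
      (∑ n ∈ Om, u n * (if N n = j then (1 : ℝ) else 0) - S) + (S - a * P) +
        (a * P - a * po j x) := by ring
  rw [h8, Finset.sum_range_succ _ (m + 1)]
  refine (abs_add_three _ _ _).trans ?_
  have e : m + 1 + j = (m + 1) + j := rfl
  nlinarith [h2, h4, h7, h6]

/-- one count, uniformly in its values up to `L` -/
lemma one_law (x0 A0 ε : ℝ) (hx0 : 0 ≤ x0) (hA0 : 0 ≤ A0) (hε : 0 < ε) (L : ℕ) :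
    ∃ (R : ℕ) (η : ℝ), 0 < η ∧ ∀ (Om : Finset ℕ) (u : ℕ → ℝ) (N : ℕ → ℕ) (a x W : ℝ),
      0 ≤ W → (∀ n ∈ Om, 0 ≤ u n) → 0 ≤ x → x ≤ x0 → 0 ≤ a → a ≤ A0 * W →
      (∀ k ≤ R, |∑ n ∈ Om, u n * ((N n).choose k : ℝ) - a * (x ^ k / k.factorial)| ≤ η * W) →
      ∀ j ≤ L, |∑ n ∈ Om, u n * (if N n = j then (1 : ℝ) else 0) - a * po j x| ≤ ε * W := by
  obtain ⟨C, hC⟩ : ∃ C : ℝ, C = A0 * ((1 + x0) ^ L * (1 + Real.exp x0)) := ⟨_, rfl⟩
  have hC0 : 0 ≤ C := by rw [hC]; positivity
  obtain ⟨m, hm⟩ := exists_small x0 C (ε / 2) (by positivity)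
  have hm1 := hm (m + 1) (by omega)
  obtain ⟨B, hB⟩ : ∃ B : ℝ, B = ∑ j ∈ range (L + 1), ∑ i ∈ range (m + 2), ((i + j).choose j : ℝ) := ⟨_, rfl⟩
  have hB0 : 0 ≤ B := by rw [hB]; positivity
  refine ⟨m + 1 + L, ε / (2 * (B + 1)), by positivity, ?_⟩
  intro Om u N a x W hW hu hx hxx ha haW h j hj
  have h1 := one_bonf Om u N a x W (ε / (2 * (B + 1))) hu hx ha j m (fun k hk => h k (by omega))
  refine h1.trans ?_
  have h2 : ((m + 1 + j).choose j : ℝ) * (x ^ (m + 1 + j) / (m + 1 + j).factorial) =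
      x ^ j / j.factorial * (x ^ (m + 1) / (m + 1).factorial) := by
    have h := Nat.add_choose_mul_factorial_mul_factorial (m + 1) j
    have h' : ((m + 1 + j).choose j : ℝ) * (m + 1).factorial * j.factorial = (m + 1 + j).factorial := by
      exact_mod_cast h
    rw [← h']
    have h1 : ((m + 1 + j).choose j : ℝ) ≠ 0 := by
      have : 0 < (m + 1 + j).choose j := Nat.choose_pos (by omega)
      positivity
    rw [pow_add x (m + 1) j]
    field_simp
  rw [h2]
  have h3 : x ^ j / (j.factorial : ℝ) ≤ (1 + x0) ^ L := by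
    have hf1 : (1 : ℝ) ≤ j.factorial := by exact_mod_cast Nat.factorial_pos j
    calc x ^ j / (j.factorial : ℝ) ≤ x ^ j := div_le_self (by positivity) hf1
      _ ≤ (1 + x0) ^ j := pow_le_pow_left₀ hx (by linarith) _
      _ ≤ (1 + x0) ^ L := pow_le_pow_right₀ (by linarith) hj
  have h4 : x ^ (m + 1) / ((m + 1).factorial : ℝ) ≤ x0 ^ (m + 1) / ((m + 1).factorial : ℝ) := by
    apply div_le_div_of_nonneg_right _ (by positivity)
    exact pow_le_pow_left₀ hx hxx _
  have h5 : Real.exp x ≤ Real.exp x0 := Real.exp_le_exp.2 hxx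
  have h6 : a * (x ^ j / j.factorial * (x ^ (m + 1) / (m + 1).factorial) * (1 + Real.exp x)) ≤ ε / 2 * W := by
    calc a * (x ^ j / j.factorial * (x ^ (m + 1) / (m + 1).factorial) * (1 + Real.exp x)) ≤
        (A0 * W) * ((1 + x0) ^ L * (x0 ^ (m + 1) / ((m + 1).factorial : ℝ)) * (1 + Real.exp x0)) := by
          gcongr
      _ = C * (x0 ^ (m + 1) / ((m + 1).factorial : ℝ)) * W := by rw [hC]; ring
      _ ≤ ε / 2 * W := mul_le_mul_of_nonneg_right hm1 hW
  have h7 : ∑ i ∈ range (m + 2), ((i + j).choose j : ℝ) ≤ B := by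
    rw [hB]
    exact Finset.single_le_sum (f := fun j => ∑ i ∈ range (m + 2), ((i + j).choose j : ℝ))
      (fun j _ => by positivity) (mem_range.2 (by omega))
  have h8 : ε / (2 * (B + 1)) * W * ∑ i ∈ range (m + 2), ((i + j).choose j : ℝ) ≤ ε / 2 * W := by
    calc ε / (2 * (B + 1)) * W * ∑ i ∈ range (m + 2), ((i + j).choose j : ℝ) ≤
        ε / (2 * (B + 1)) * W * (B + 1) := by
          apply mul_le_mul_of_nonneg_left (by linarith) (by positivity)
      _ = ε / 2 * W := by field_simp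
  linarith

/-- **From mixed binomial moments to the joint law.** -/
theorem multi_law (J : ℕ) : ∀ (x0 A0 ε : ℝ), 0 ≤ x0 → 0 ≤ A0 → 0 < ε → ∀ L : ℕ,
    ∃ (R : ℕ) (η : ℝ), 0 < η ∧ ∀ (Om : Finset ℕ) (u : ℕ → ℝ) (N : Fin J → ℕ → ℕ) (a W : ℝ)
      (x : Fin J → ℝ), 0 ≤ W → (∀ n ∈ Om, 0 ≤ u n) → (∀ j, 0 ≤ x j) → (∀ j, x j ≤ x0) →
      0 ≤ a → a ≤ A0 * W →
      (∀ k : Fin J → ℕ, (∀ j, k j ≤ R) → |∑ n ∈ Om, u n * ∏ j, ((N j n).choose (k j) : ℝ) -
        a * ∏ j, (x j ^ k j / (k j).factorial)| ≤ η * W) →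
      ∀ k : Fin J → ℕ, (∀ j, k j ≤ L) →
        |∑ n ∈ Om, u n * (if ∀ j, N j n = k j then (1 : ℝ) else 0) - a * ∏ j, po (k j) (x j)| ≤ ε * W := by
  induction J with
  | zero =>
    intro x0 A0 ε hx0 hA0 hε L
    refine ⟨0, ε, hε, ?_⟩
    intro Om u N a W x hW hu hx hxx ha haW h k hk
    have h1 := h k (fun j => j.elim0)
    simpa using h1
  | succ J ih =>
    intro x0 A0 ε hx0 hA0 hε L
    obtain ⟨R1, η1, hη1, h1⟩ := ih x0 A0 ε hx0 hA0 hε L
    obtain ⟨A1, hA1⟩ : ∃ A1 : ℝ, A1 = A0 * ((1 + x0) ^ R1) ^ J := ⟨_, rfl⟩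
    have hA10 : 0 ≤ A1 := by rw [hA1]; positivity
    obtain ⟨R2, η2, hη2, h2⟩ := one_law x0 A1 η1 hx0 hA10 hη1 L
    refine ⟨max R1 R2, η2, hη2, ?_⟩
    intro Om u N a W x hW hu hx hxx ha haW h k hk
    have key := h1 Om (fun n => u n * (if N 0 n = k 0 then (1 : ℝ) else 0)) (fun j => N j.succ)
      (a * po (k 0) (x 0)) W (fun j => x j.succ) hW
      (fun n hn => mul_nonneg (hu n hn) (by split_ifs <;> norm_num))
      (fun j => hx _) (fun j => hxx _) (mul_nonneg ha (po_nonneg _ _ (hx 0)))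
      ((mul_le_of_le_one_right ha (po_le_one _ _ (hx 0))).trans haW) ?_ (fun j => k j.succ)
      (fun j => hk _)
    · have e1 : ∑ n ∈ Om, u n * (if ∀ j, N j n = k j then (1 : ℝ) else 0) =
          ∑ n ∈ Om, u n * (if N 0 n = k 0 then (1 : ℝ) else 0) *
            (if ∀ j : Fin J, N j.succ n = k j.succ then (1 : ℝ) else 0) := by
        apply Finset.sum_congr rfl
        intro n _
        rw [mul_assoc]
        congr 1
        by_cases g1 : N 0 n = k 0
        · rw [if_pos g1, one_mul]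
          by_cases g2 : ∀ j : Fin J, N j.succ n = k j.succ
          · rw [if_pos g2, if_pos (Fin.forall_fin_succ.2 ⟨g1, g2⟩)]
          · rw [if_neg g2, if_neg (fun g => g2 (Fin.forall_fin_succ.1 g).2)]
        · rw [if_neg g1, zero_mul, if_neg (fun g => g1 (g 0))]
      rw [e1, Fin.prod_univ_succ, ← mul_assoc]
      exact key
    · intro l hl
      have h3 := h2 Om (fun n => u n * ∏ j : Fin J, ((N j.succ n).choose (l j) : ℝ)) (N 0)
        (a * ∏ j : Fin J, (x j.succ ^ l j / (l j).factorial)) (x 0) W hW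
        (fun n hn => mul_nonneg (hu n hn) (by positivity)) (hx 0) (hxx 0)
        (mul_nonneg ha (Finset.prod_nonneg fun j _ => by
          have := hx j.succ
          positivity)) ?_ ?_ (k 0) (hk 0)
      · convert h3 using 3
        · apply Finset.sum_congr rfl
          intro n _
          ring
        · ring
      · have h4 : ∏ j : Fin J, (x j.succ ^ l j / ((l j).factorial : ℝ)) ≤ ((1 + x0) ^ R1) ^ J := by
          calc ∏ j : Fin J, (x j.succ ^ l j / ((l j).factorial : ℝ)) ≤ ∏ _j : Fin J, (1 + x0) ^ R1 := by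
                apply Finset.prod_le_prod
                · intro j _
                  have := hx j.succ
                  positivity
                · intro j _
                  have hf1 : (1 : ℝ) ≤ (l j).factorial := by exact_mod_cast Nat.factorial_pos (l j)
                  have hxj := hx j.succ
                  have hxj' := hxx j.succ
                  calc x j.succ ^ l j / ((l j).factorial : ℝ) ≤ x j.succ ^ l j := div_le_self (by positivity) hf1
                    _ ≤ (1 + x0) ^ l j := pow_le_pow_left₀ hxj (by linarith) _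
                    _ ≤ (1 + x0) ^ R1 := pow_le_pow_right₀ (by linarith) (hl j)
            _ = _ := by rw [Finset.prod_const, Finset.card_univ, Fintype.card_fin]
        calc a * ∏ j : Fin J, (x j.succ ^ l j / ((l j).factorial : ℝ)) ≤ (A0 * W) * ((1 + x0) ^ R1) ^ J := by
              apply mul_le_mul haW h4 _ (mul_nonneg hA0 hW)
              apply Finset.prod_nonneg
              intro j _
              have := hx j.succ
              positivity
          _ = A1 * W := by rw [hA1]; ring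
      · intro i hi
        have h5 := h (Fin.cons i l) (by
          intro j
          refine Fin.cases ?_ (fun j => ?_) j
          · simp only [Fin.cons_zero]
            exact hi.trans (le_max_right _ _)
          · simp only [Fin.cons_succ]
            exact (hl j).trans (le_max_left _ _))
        rw [Fin.prod_univ_succ] at h5
        simp only [Fin.prod_univ_succ, Fin.cons_zero, Fin.cons_succ] at h5
        convert h5 using 3
        · apply Finset.sum_congr rfl
          intro n _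
          ring
        · ring

end Pool.Agent.U832.RG
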