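import Pool.Agent.U832.RG.SingM
import Pool.Agent.U832.RG.Multi
import Pool.Agent.TH464.PO.Law

/-!
# The joint law of the numbers of sifted integers in several windows, seen from a sifted integer
-/

set_option autoImplicit false

namespace Pool.Agent.U832.RG

open Finset Filter
open Pool.Agent.W123.RP Pool.Agent.H373R2.T7 Pool.Agent.W123.RU Pool.Agent.TH464.PO

variable {J : ℕ}

open Classical in
/-- the indicator of the base -/
noncomputable def uB (Q : ℕ → ℕ → Prop) (y : ℕ) (B : Finset ℕ) (n : ℕ) : ℝ :=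
  if ∀ h ∈ B, Sf Q y (n + h) then 1 else 0

open Classical in
/-- the number of sifted integers in a window -/
noncomputable def Nj (Q : ℕ → ℕ → Prop) (y a b n : ℕ) : ℕ :=
  ((Ioc a b).filter (fun h => Sf Q y (n + h))).card

open Classical in
/-- **Mixed binomial moments.** -/
theorem moment_multi (c : ℕ) (hc : 1 ≤ c) (k : Fin J → ℕ) (η : ℝ) (hη : 0 < η) (hη1 : η ≤ 1) :
    ∃ (K0 y0 T0 : ℕ) (η' : ℝ), 0 < η' ∧ ∀ Y y T : ℕ, y0 ≤ y → y ^ K0 ≤ Y → T0 ≤ T →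
      ∀ Q : ℕ → ℕ → Prop, PerB Q c → (∀ p : ℕ, p.Prime → nuB Q p < p) →
      (∀ t ∈ Icc 1 T, ((((pz y).filter (fun p : ℕ => T < p ∧ CoG Q p t)).card : ℕ) : ℝ) ≤ η' * T) →
      ∀ (B : Finset ℕ) (a b : Fin J → ℕ), Win T B a b →
      |∑ n ∈ Icc 1 Y, uB Q y B n * ∏ j, ((Nj Q y (a j) (b j) n).choose (k j) : ℝ) -
        Y * (Vq Q y ^ B.card * ∏ j, (((b j - a j : ℕ) : ℝ) * Vq Q y) ^ k j / (k j).factorial)| ≤
        η * (Y * (Vq Q y ^ B.card * (T * Vq Q y) ^ (∑ j, k j))) + T ^ (∑ j, k j) * √(Y : ℝ) := by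
  obtain ⟨n, hn⟩ : ∃ n, n = ∑ j, k j := ⟨_, rfl⟩
  obtain ⟨K0, x0, hK0, hfund⟩ := sys_fund ((n + 1) * c) (Nat.mul_pos (by omega) hc) (η / 4)
    (by positivity)
  obtain ⟨w, η', T0, hη', hsing⟩ := sing_multi c k (η / 4) (by positivity) (by linarith)
  refine ⟨K0, max x0 w, T0, η', hη', ?_⟩
  intro Y y T hy hyY hT Q hQ hadm hlarge B a b hwin
  have hs := hsing T hT Q hQ hadm y ((le_max_right _ _).trans hy) hlarge B a b hwin
  rw [← hn] at hs ⊢
  have hβ := hwin.card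
  obtain ⟨β, hβdef⟩ : ∃ β, β = B.card := ⟨_, rfl⟩
  rw [← hβdef] at hs hβ ⊢
  obtain ⟨V, hV⟩ : ∃ V, V = Vq Q y := ⟨_, rfl⟩
  have hV0 : 0 ≤ V := by rw [hV]; exact Vq_nonneg Q y
  rw [← hV] at hs ⊢
  obtain ⟨E, hE⟩ : ∃ E : ℝ, E = ∏ j, (((b j - a j : ℕ) : ℝ) * V) ^ k j / ((k j).factorial : ℝ) := ⟨_, rfl⟩
  rw [← hE] at hs ⊢
  have hE0 : 0 ≤ E := by rw [hE]; positivity
  have hElt : E ≤ (T * V) ^ n := by
    rw [hE, hn, ← Finset.prod_pow_eq_pow_sum]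
    apply Finset.prod_le_prod
    · intro j _
      positivity
    · intro j _
      have hf1 : (1 : ℝ) ≤ (k j).factorial := by exact_mod_cast Nat.factorial_pos (k j)
      have hl : ((b j - a j : ℕ) : ℝ) ≤ T := by
        have := hwin.bT j
        exact_mod_cast (by omega : b j - a j ≤ T)
      refine (div_le_self (by positivity) hf1).trans (pow_le_pow_left₀ (by positivity) ?_ _)
      exact mul_le_mul_of_nonneg_right hl hV0
  obtain ⟨S, hS⟩ : ∃ S, S = ∑ H ∈ Fam a b k, Vq (QH Q (GG B H)) y := ⟨_, rfl⟩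
  rw [← hS] at hs
  obtain ⟨P, hP⟩ : ∃ P : ℝ, P = V ^ β * (T * V) ^ n := ⟨_, rfl⟩
  obtain ⟨F, hF⟩ : ∃ F : ℝ, F = V ^ β * E := ⟨_, rfl⟩
  rw [← hP, ← hF] at hs
  rw [← hP, ← hF]
  have hP0 : 0 ≤ P := by rw [hP]; positivity
  have hFP : F ≤ P := by
    rw [hF, hP]
    exact mul_le_mul_of_nonneg_left hElt (by positivity)
  have hF0 : 0 ≤ F := by rw [hF]; positivity
  have hY0 : (0 : ℝ) ≤ Y := Nat.cast_nonneg Y
  have hmom : ∑ n ∈ Icc 1 Y, uB Q y B n * ∏ j, ((Nj Q y (a j) (b j) n).choose (k j) : ℝ) =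
      ∑ H ∈ Fam a b k, (((Icc 1 Y).filter (fun n => Sf (QH Q (GG B H)) y n)).card : ℝ) := by
    have h1 : ∀ H ∈ Fam a b k, (((Icc 1 Y).filter (fun n => Sf (QH Q (GG B H)) y n)).card : ℝ) =
        ∑ n ∈ Icc 1 Y, if (∀ h ∈ GG B H, Sf Q y (n + h)) then (1 : ℝ) else 0 := by
      intro H _
      rw [Finset.sum_ite, Finset.sum_const_zero, add_zero, Finset.sum_const, nsmul_eq_mul, mul_one]
      congr 2
      apply Finset.filter_congr
      intro m _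
      exact sf_QH Q (GG B H) y m
    rw [Finset.sum_congr rfl h1, Finset.sum_comm]
    apply Finset.sum_congr rfl
    intro m _
    exact (count_fam B a b k (fun h => Sf Q y (m + h))).symm
  rw [hmom]
  have h1 : |∑ H ∈ Fam a b k, (((Icc 1 Y).filter (fun n => Sf (QH Q (GG B H)) y n)).card : ℝ) - Y * S| ≤
      η / 4 * (Y * S) + T ^ n * √(Y : ℝ) := by
    have e : Y * S = ∑ H ∈ Fam a b k, (Y : ℝ) * Vq (QH Q (GG B H)) y := by
      rw [hS, Finset.mul_sum]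
    rw [e, ← Finset.sum_sub_distrib]
    refine (Finset.abs_sum_le_sum_abs _ _).trans ?_
    have h2 : ∀ H ∈ Fam a b k,
        |(((Icc 1 Y).filter (fun n => Sf (QH Q (GG B H)) y n)).card : ℝ) - Y * Vq (QH Q (GG B H)) y| ≤
        η / 4 * (Y * Vq (QH Q (GG B H)) y) + √(Y : ℝ) := by
      intro H hH
      have hper := perB_QH Q c hQ (GG B H)
      have hper' : PerB (QH Q (GG B H)) ((n + 1) * c) := by
        refine ⟨hper.per, fun p hp => (hper.few p hp).trans ?_⟩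
        apply Nat.mul_le_mul_right
        rw [GG_card hwin hH, ← hn, ← hβdef]
        omega
      have h3 := hfund Y y ((le_max_left _ _).trans hy) hyY (QH Q (GG B H)) hper' Y
      have e1 : ∏ p ∈ pz y, (1 - (nuB (QH Q (GG B H)) p : ℝ) / p) = Vq (QH Q (GG B H)) y := rfl
      rw [e1] at h3
      unfold Sf
      convert h3
    refine (Finset.sum_le_sum h2).trans ?_
    rw [Finset.sum_add_distrib, ← Finset.mul_sum, Finset.sum_const, nsmul_eq_mul]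
    have h3 := fam_card_le (k := k) hwin
    rw [← hn] at h3
    have h4 := mul_le_mul_of_nonneg_right h3 (Real.sqrt_nonneg (Y : ℝ))
    linarith
  have h5 : |Y * S - Y * F| ≤ η / 4 * (Y * P) := by
    rw [← mul_sub, abs_mul, abs_of_nonneg hY0]
    calc (Y : ℝ) * |S - F| ≤ Y * (η / 4 * P) := mul_le_mul_of_nonneg_left hs hY0
      _ = _ := by ring
  have h6 : Y * S ≤ 2 * (Y * P) := by
    have h7 := (abs_le.1 h5).2
    have h8 : 0 ≤ Y * P := mul_nonneg hY0 hP0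
    have h9 : Y * F ≤ Y * P := mul_le_mul_of_nonneg_left hFP hY0
    nlinarith
  have h8 : 0 ≤ Y * P := mul_nonneg hY0 hP0
  have h9 := abs_sub_le (∑ H ∈ Fam a b k,
      (((Icc 1 Y).filter (fun n => Sf (QH Q (GG B H)) y n)).card : ℝ)) (Y * S) (Y * F)
  have h10 : η / 4 * (Y * S) ≤ η / 4 * (2 * (Y * P)) :=
    mul_le_mul_of_nonneg_left h6 (by positivity)
  have h11 : 0 ≤ η * (Y * P) := by positivity
  calc _ ≤ _ := h9
    _ ≤ η / 4 * (2 * (Y * P)) + T ^ n * √(Y : ℝ) + η / 4 * (Y * P) := by linarith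
    _ ≤ _ := by linarith

lemma Win.mono {T T' : ℕ} {B : Finset ℕ} {a b : Fin J → ℕ} (h : Win T B a b) (hT : T ≤ T') :
    Win T' B a b :=
  ⟨h.card, fun s hs => (h.base s hs).trans hT, fun j => (h.bT j).trans hT, h.dis, h.out⟩

open Classical in
/-- the number of the `n` in `(Z, Z + Y]` with a given pattern of windows -/
noncomputable def Pat (g : ℕ → Prop) (B : Finset ℕ) (a b k : Fin J → ℕ) (Z Y : ℕ) : ℕ :=
  ((Ioc Z (Z + Y)).filter (fun n => (∀ h ∈ B, g (n + h)) ∧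
    ∀ j, ((Ioc (n + a j) (n + b j)).filter g).card = k j)).card

open Classical in
lemma Pat_eq (Q : ℕ → ℕ → Prop) (y : ℕ) (B : Finset ℕ) (a b k : Fin J → ℕ) (Z Y : ℕ) :
    (Pat (Sf Q y) B a b k Z Y : ℝ) = ∑ n ∈ Icc 1 Y, uB (Qt Q Z) y B n *
      (if ∀ j, Nj (Qt Q Z) y (a j) (b j) n = k j then (1 : ℝ) else 0) := by
  have h1 : ∀ n ∈ Icc 1 Y, uB (Qt Q Z) y B n *
      (if ∀ j, Nj (Qt Q Z) y (a j) (b j) n = k j then (1 : ℝ) else 0) =
      if ((∀ h ∈ B, Sf (Qt Q Z) y (n + h)) ∧ ∀ j, Nj (Qt Q Z) y (a j) (b j) n = k j) then (1 : ℝ) else 0 := by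
    intro n _
    unfold uB
    by_cases h1 : ∀ h ∈ B, Sf (Qt Q Z) y (n + h)
    · rw [if_pos h1, one_mul]
      by_cases h2 : ∀ j, Nj (Qt Q Z) y (a j) (b j) n = k j
      · rw [if_pos h2, if_pos ⟨h1, h2⟩]
      · rw [if_neg h2, if_neg (fun h => h2 h.2)]
    · rw [if_neg h1, zero_mul, if_neg (fun h => h1 h.1)]
  rw [Finset.sum_congr rfl h1, Finset.sum_ite, Finset.sum_const_zero, add_zero, Finset.sum_const,
    nsmul_eq_mul, mul_one]
  congr 1
  unfold Pat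
  have hN : ∀ n j, ((Ioc (n + Z + a j) (n + Z + b j)).filter (Sf Q y)).card = Nj (Qt Q Z) y (a j) (b j) n := by
    intro n j
    unfold Nj
    symm
    apply Finset.card_bij (fun h _ => n + Z + h)
    · intro h hh
      rw [mem_filter, mem_Ioc] at hh
      rw [mem_filter, mem_Ioc]
      refine ⟨by omega, ?_⟩
      have := (sf_Qt Q Z y (n + h)).1 hh.2
      rwa [show n + h + Z = n + Z + h by ring] at this
    · intro x _ y _ hxy
      omega
    · intro m hm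
      rw [mem_filter, mem_Ioc] at hm
      refine ⟨m - (n + Z), ?_, by omega⟩
      rw [mem_filter, mem_Ioc]
      refine ⟨by omega, ?_⟩
      rw [sf_Qt]
      rw [show n + (m - (n + Z)) + Z = m by omega]
      exact hm.2
  have hB : ∀ n, (∀ h ∈ B, Sf Q y (n + Z + h)) ↔ (∀ h ∈ B, Sf (Qt Q Z) y (n + h)) := by
    intro n
    apply forall₂_congr
    intro h _
    rw [sf_Qt, show n + h + Z = n + Z + h by ring]
  symm
  apply Finset.card_bij (fun n _ => n + Z)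
  · intro n hn
    rw [mem_filter, mem_Icc] at hn
    rw [mem_filter, mem_Ioc]
    refine ⟨by omega, (hB n).2 hn.2.1, fun j => ?_⟩
    rw [hN]
    exact hn.2.2 j
  · intro a _ b _ hab
    omega
  · intro n hn
    rw [mem_filter, mem_Ioc] at hn
    have e : n - Z + Z = n := by omega
    refine ⟨n - Z, ?_, e⟩
    rw [mem_filter, mem_Icc]
    refine ⟨by omega, ?_, fun j => ?_⟩
    · rw [← hB, e]
      exact hn.2.1
    · rw [← hN, e]
      exact hn.2.2 j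

open Classical in
/-- **The joint law of several windows** around a sifted integer (`B` has one element) or an arbitrary
integer (`B` is empty), for general sieve conditions and in all intervals. -/
theorem gen_proc (c : ℕ) (hc : 1 ≤ c) (J L : ℕ) (x0 ε : ℝ) (hε : 0 < ε) :
    ∃ (K0 y0 T0 R0 : ℕ) (η' κ x1 : ℝ), 0 < η' ∧ 0 < κ ∧ 0 < x1 ∧
      ∀ (Q : ℕ → ℕ → Prop) (Z Y y : ℕ), PerB Q c → (∀ p : ℕ, p.Prime → nuB Q p < p) → y0 ≤ y →
      y ^ K0 ≤ Y → Vq Q y ≤ κ →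
      (∀ T : ℕ, κ ≤ T * Vq Q y → T * Vq Q y ≤ x1 → T0 ≤ T ∧ T ^ R0 ≤ Y ∧ ∀ t ∈ Icc 1 T,
        ((((pz y).filter (fun p : ℕ => T < p ∧ CoG Q p t)).card : ℕ) : ℝ) ≤ η' * T) →
      ∀ (T : ℕ) (B : Finset ℕ) (a b k : Fin J → ℕ), T * Vq Q y ≤ x0 → Win T B a b → (∀ j, k j ≤ L) →
        |(Pat (Sf Q y) B a b k Z Y : ℝ) -
          Y * Vq Q y ^ B.card * ∏ j, po (k j) (((b j - a j : ℕ) : ℝ) * Vq Q y)| ≤
          ε * (Y * Vq Q y ^ B.card) := by
  obtain ⟨X0, hX0⟩ : ∃ X0 : ℝ, X0 = max x0 1 := ⟨_, rfl⟩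
  have hX1 : 1 ≤ X0 := by rw [hX0]; exact le_max_right _ _
  have hxX : x0 ≤ X0 := by rw [hX0]; exact le_max_left _ _
  obtain ⟨R, η, hη, hlaw⟩ := multi_law J X0 1 ε (by linarith) zero_le_one hε L
  obtain ⟨η1, hη1⟩ : ∃ η1 : ℝ, η1 = min 1 (η / (2 * X0 ^ (J * R))) := ⟨_, rfl⟩
  have hη10 : 0 < η1 := by rw [hη1]; positivity
  have hη11 : η1 ≤ 1 := by rw [hη1]; exact min_le_left _ _
  have hη12 : η1 * X0 ^ (J * R) ≤ η / 2 := by
    have : η1 ≤ η / (2 * X0 ^ (J * R)) := by rw [hη1]; exact min_le_right _ _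
    rw [le_div_iff₀ (by positivity)] at this
    linarith
  choose K0 y0 T0 η' hη' hmom using fun k : Fin J → ℕ => moment_multi c hc k η1 hη10 hη11
  obtain ⟨y1, hy1⟩ : ∃ y1 : ℕ, (4 / η) ^ 4 ≤ y1 := exists_nat_ge _
  obtain ⟨KK, hKK⟩ : ∃ KK : Finset (Fin J → ℕ), KK = Fintype.piFinset (fun _ => range (R + 1)) := ⟨_, rfl⟩
  have hη0 : ∃ η0 : ℝ, 0 < η0 ∧ ∀ k ∈ KK, η0 ≤ η' k := by
    have hne : KK.Nonempty := ⟨fun _ => 0, by
      rw [hKK, Fintype.mem_piFinset]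
      intro j
      rw [mem_range]
      omega⟩
    obtain ⟨k0, hk0, hmin⟩ := Finset.exists_min_image KK η' hne
    exact ⟨η' k0, hη' k0, hmin⟩
  obtain ⟨η0, hη00, hη0⟩ := hη0
  refine ⟨(∑ k ∈ KK, K0 k) + 1, (∑ k ∈ KK, y0 k) + y1 + 1, (∑ k ∈ KK, T0 k) + 1,
    4 * (J * R + 1), η0, 1 / 2, X0, hη00, by norm_num, by linarith, ?_⟩
  intro Q Z Y y hQ hadm hy hyY hVκ hT T B a b k hTx hwin hk
  obtain ⟨V, hV⟩ : ∃ V, V = Vq Q y := ⟨_, rfl⟩
  have hVpos : 0 < V := by rw [hV]; exact Vq_pos Q hadm y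
  have hV1 : V ≤ 1 := by rw [hV]; exact Vq_le_one Q y
  rw [← hV] at hTx hT hVκ ⊢
  obtain ⟨T', hT'⟩ : ∃ T' : ℕ, T' = ⌊X0 / V⌋₊ := ⟨_, rfl⟩
  have hXV : 0 ≤ X0 / V := by positivity
  have hT'1 : (T' : ℝ) * V ≤ X0 := by
    have h1 : (T' : ℝ) ≤ X0 / V := by rw [hT']; exact Nat.floor_le hXV
    rwa [le_div_iff₀ hVpos] at h1
  have hT'2 : 1 / 2 ≤ (T' : ℝ) * V := by
    have h1 : X0 / V < T' + 1 := by rw [hT']; exact Nat.lt_floor_add_one _
    rw [div_lt_iff₀ hVpos] at h1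
    linarith
  have hTT' : T ≤ T' := by
    rw [hT']
    apply Nat.le_floor
    rw [le_div_iff₀ hVpos]
    linarith
  obtain ⟨hT0, hTR, hlarge⟩ := hT T' hT'2 hT'1
  have hwin' := hwin.mono hTT'
  have hy1' : 1 ≤ y := by omega
  have hT1 : 1 ≤ T' := by omega
  have hyY' : y ≤ Y := by
    calc y = y ^ 1 := (pow_one y).symm
      _ ≤ y ^ ((∑ k ∈ KK, K0 k) + 1) := Nat.pow_le_pow_right hy1' (by omega)
      _ ≤ Y := hyY
  have hY1 : (4 / η) ^ 4 ≤ (Y : ℝ) := hy1.trans (by exact_mod_cast (by omega : y1 ≤ Y))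
  have hYpos : (0 : ℝ) < Y := lt_of_lt_of_le (by positivity) hY1
  have hs4 : 4 / η ≤ √(√(Y : ℝ)) := by
    apply Real.le_sqrt_of_sq_le
    apply Real.le_sqrt_of_sq_le
    calc ((4 / η) ^ 2) ^ 2 = (4 / η) ^ 4 := by ring
      _ ≤ (Y : ℝ) := hY1
  have hT4 : (T' : ℝ) ^ (J * R + 1) ≤ √(√(Y : ℝ)) := by
    apply Real.le_sqrt_of_sq_le
    apply Real.le_sqrt_of_sq_le
    calc (((T' : ℝ) ^ (J * R + 1)) ^ 2) ^ 2 = (T' : ℝ) ^ (4 * (J * R + 1)) := by
          rw [← pow_mul, ← pow_mul]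
          congr 1
          ring
      _ ≤ Y := by exact_mod_cast hTR
  obtain ⟨β, hβ⟩ : ∃ β, β = B.card := ⟨_, rfl⟩
  have hβ1 : β ≤ 1 := by rw [hβ]; exact hwin.card
  rw [← hβ]
  have hVβ : V ≤ V ^ β := by
    calc V = V ^ 1 := (pow_one V).symm
      _ ≤ V ^ β := pow_le_pow_of_le_one hVpos.le hV1 hβ1
  have hVβ0 : 0 < V ^ β := by positivity
  have hTY : (T' : ℝ) ^ (J * R) * √(Y : ℝ) ≤ η / 2 * (Y * V ^ β) := by
    have e1 : √(√(Y : ℝ)) * √(√(Y : ℝ)) = √(Y : ℝ) := Real.mul_self_sqrt (Real.sqrt_nonneg _)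
    have e2 : √(Y : ℝ) * √(Y : ℝ) = Y := Real.mul_self_sqrt hYpos.le
    have h1 : (T' : ℝ) ^ (J * R + 1) * (4 / η) ≤ √(Y : ℝ) := by
      rw [← e1]
      exact mul_le_mul hT4 hs4 (by positivity) (Real.sqrt_nonneg _)
    have h2 : (T' : ℝ) ^ (J * R) ≤ (T' : ℝ) ^ (J * R) * (2 * (T' * V)) := by
      apply le_mul_of_one_le_right (by positivity)
      linarith
    calc (T' : ℝ) ^ (J * R) * √(Y : ℝ) ≤ ((T' : ℝ) ^ (J * R) * (2 * (T' * V))) * √(Y : ℝ) :=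
          mul_le_mul_of_nonneg_right h2 (Real.sqrt_nonneg _)
      _ = η / 2 * ((T' : ℝ) ^ (J * R + 1) * (4 / η)) * (√(Y : ℝ) * V) := by
          rw [pow_succ]
          field_simp
          ring
      _ ≤ η / 2 * √(Y : ℝ) * (√(Y : ℝ) * V) := by gcongr
      _ = η / 2 * ((√(Y : ℝ) * √(Y : ℝ)) * V) := by ring
      _ = η / 2 * (Y * V) := by rw [e2]
      _ ≤ η / 2 * (Y * V ^ β) := by gcongr
  have hPerQ := perB_Qt Q c hQ Z
  have hVQ : Vq (Qt Q Z) y = V := by rw [Vq_Qt Q c hQ, hV]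
  have hlen : ∀ j, ((b j - a j : ℕ) : ℝ) ≤ T' := by
    intro j
    have := hwin'.bT j
    exact_mod_cast (by omega : b j - a j ≤ T')
  have hmain := hlaw (Icc 1 Y) (uB (Qt Q Z) y B) (fun j => Nj (Qt Q Z) y (a j) (b j))
    (Y * V ^ β) (Y * V ^ β) (fun j => ((b j - a j : ℕ) : ℝ) * V) (by positivity)
    (fun n _ => by unfold uB; split_ifs <;> norm_num) (fun j => by positivity)
    (fun j => (mul_le_mul_of_nonneg_right (hlen j) hVpos.le).trans hT'1) (by positivity) (by linarith) ?_ k hk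
  · rw [Pat_eq]
    exact hmain
  · intro l hl
    have hlK : l ∈ KK := by
      rw [hKK, Fintype.mem_piFinset]
      intro j
      rw [mem_range]
      have := hl j
      omega
    have hKk : K0 l ≤ ∑ k ∈ KK, K0 k := Finset.single_le_sum (fun _ _ => Nat.zero_le _) hlK
    have hyk : y0 l ≤ ∑ k ∈ KK, y0 k := Finset.single_le_sum (fun _ _ => Nat.zero_le _) hlK
    have hTk : T0 l ≤ ∑ k ∈ KK, T0 k := Finset.single_le_sum (fun _ _ => Nat.zero_le _) hlK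
    have h1 := hmom l Y y T' (by omega)
      ((Nat.pow_le_pow_right hy1' (by omega)).trans hyY) (by omega) (Qt Q Z) hPerQ (fun p hp => by
        rw [nuB_Qt Q c hQ]
        exact hadm p hp) (fun t ht => by
        refine le_trans ?_ ((hlarge t ht).trans (mul_le_mul_of_nonneg_right (hη0 l hlK) (Nat.cast_nonneg _)))
        have : ((pz y).filter (fun p : ℕ => T' < p ∧ CoG (Qt Q Z) p t)).card ≤
            ((pz y).filter (fun p : ℕ => T' < p ∧ CoG Q p t)).card := by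
          apply card_le_card
          intro p hp
          rw [mem_filter] at hp ⊢
          obtain ⟨h1, h2, m, h3, h4⟩ := hp
          refine ⟨h1, h2, m + Z, h3, ?_⟩
          unfold Qt at h4
          rwa [show m + t + Z = m + Z + t by ring] at h4
        exact_mod_cast this) B a b hwin'
    rw [hVQ, ← hβ] at h1
    have hn : ∑ j, l j ≤ J * R := by
      calc ∑ j, l j ≤ ∑ _j : Fin J, R := Finset.sum_le_sum fun j _ => hl j
        _ = J * R := by simp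
    rw [mul_assoc (Y : ℝ)]
    refine h1.trans ?_
    have h2 : ((T' : ℝ) * V) ^ (∑ j, l j) ≤ X0 ^ (J * R) := by
      calc ((T' : ℝ) * V) ^ (∑ j, l j) ≤ X0 ^ (∑ j, l j) := pow_le_pow_left₀ (by positivity) hT'1 _
        _ ≤ X0 ^ (J * R) := pow_le_pow_right₀ hX1 hn
    have h3 : (T' : ℝ) ^ (∑ j, l j) * √(Y : ℝ) ≤ η / 2 * (Y * V ^ β) := by
      refine le_trans ?_ hTY
      apply mul_le_mul_of_nonneg_right _ (Real.sqrt_nonneg _)
      exact pow_le_pow_right₀ (by exact_mod_cast hT1) hn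
    have h4 : η1 * (Y * (V ^ β * ((T' : ℝ) * V) ^ (∑ j, l j))) ≤ η / 2 * (Y * V ^ β) := by
      calc η1 * (Y * (V ^ β * ((T' : ℝ) * V) ^ (∑ j, l j))) ≤ η1 * (Y * (V ^ β * X0 ^ (J * R))) := by
            gcongr
        _ = (η1 * X0 ^ (J * R)) * (Y * V ^ β) := by ring
        _ ≤ η / 2 * (Y * V ^ β) := mul_le_mul_of_nonneg_right hη12 (by positivity)
    have e : (Y : ℝ) * V ^ β * ∏ j, ((((b j - a j : ℕ) : ℝ) * V) ^ l j / ((l j).factorial : ℝ)) =
        Y * (V ^ β * ∏ j, ((((b j - a j : ℕ) : ℝ) * V) ^ l j / ((l j).factorial : ℝ))) := by ring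
    linarith

end Pool.Agent.U832.RG
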