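import Pool.Agent.U832.RG.ExSing
import Pool.Agent.U832.RG.ProcLaw

/-!
# Mixed binomial moments with exceptional shifts
-/

set_option autoImplicit false

namespace Pool.Agent.U832.RG

open Finset Filter
open Pool.Agent.W123.RP Pool.Agent.H373R2.T7 Pool.Agent.W123.RU Pool.Agent.TH464.PO

variable {J : ℕ}

open Classical in
/-- the number of the families of sifted integers without exceptional differences -/
noncomputable def XX (Q : ℕ → ℕ → Prop) (y : ℕ) (Δ B : Finset ℕ) (a b k : Fin J → ℕ) (n : ℕ) : ℝ :=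
  ∑ H ∈ FamG Δ B a b k, (if ∀ h ∈ GG B H, Sf Q y (n + h) then (1 : ℝ) else 0)

open Classical in
/-- **Mixed binomial moments.** -/
theorem moment_ex (c e : ℕ) (hc : 1 ≤ c) (k : Fin J → ℕ) (η : ℝ) (hη : 0 < η) (hη1 : η ≤ 1) :
    ∃ (K0 y0 T0 : ℕ) (η' : ℝ), 0 < η' ∧ ∀ Y y T : ℕ, y0 ≤ y → y ^ K0 ≤ Y → T0 ≤ T →
      ∀ Q : ℕ → ℕ → Prop, PerB Q c → (∀ p : ℕ, p.Prime → nuB Q p < p) → ∀ Δ : Finset ℕ, Δ.card ≤ e →
      (∀ t ∈ Icc 1 T, t ∉ Δ → ((((pz y).filter (fun p : ℕ => T < p ∧ CoG Q p t)).card : ℕ) : ℝ) ≤ η' * T) →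
      ∀ (B : Finset ℕ) (a b : Fin J → ℕ), Win T B a b →
      |∑ n ∈ Icc 1 Y, XX Q y Δ B a b k n -
        Y * (Vq Q y ^ B.card * ∏ j, (((b j - a j : ℕ) : ℝ) * Vq Q y) ^ k j / (k j).factorial)| ≤
        η * (Y * (Vq Q y ^ B.card * (T * Vq Q y) ^ (∑ j, k j))) + T ^ (∑ j, k j) * √(Y : ℝ) := by
  obtain ⟨n, hn⟩ : ∃ n, n = ∑ j, k j := ⟨_, rfl⟩
  obtain ⟨K0, x0, hK0, hfund⟩ := sys_fund ((n + 1) * c) (Nat.mul_pos (by omega) hc) (η / 4)
    (by positivity)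
  obtain ⟨w, η', T0, hη', hsing⟩ := sing_ex c e k (η / 4) (by positivity) (by linarith)
  refine ⟨K0, max x0 w, T0, η', hη', ?_⟩
  intro Y y T hy hyY hT Q hQ hadm Δ hΔ hlarge B a b hwin
  have hs := hsing T hT Q hQ hadm y ((le_max_right _ _).trans hy) Δ hΔ hlarge B a b hwin
  rw [← hn] at hs ⊢
  have hβ := hwin.card
  obtain ⟨β, hβdef⟩ : ∃ β, β = B.card := ⟨_, rfl⟩
  rw [← hβdef] at hs hβ ⊢
  obtain ⟨V, hV⟩ : ∃ V, V = Vq Q y := ⟨_, rfl⟩
  have hV0 : 0 ≤ V := by rw [hV]; exact Vq_nonneg Q y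
  rw [← hV] at hs ⊢
  obtain ⟨E, hE⟩ : ∃ E : ℝ, E = ∏ j, (((b j - a j : ℕ) : ℝ) * V) ^ k j / ((k j).factorial : ℝ) := ⟨_, rfl⟩
  rw [← hE] at hs ⊢
  have hE0 : 0 ≤ E := by rw [hE]; positivity
  have hElt : E ≤ (T * V) ^ n := by
    rw [hE, hn, ← Finset.prod_pow_eq_pow_sum]
    apply Finset.prod_le_prod
    · intro j _
      positivity
    · intro j _
      have hf1 : (1 : ℝ) ≤ (k j).factorial := by exact_mod_cast Nat.factorial_pos (k j)
      have hl : ((b j - a j : ℕ) : ℝ) ≤ T := by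
        have := hwin.bT j
        exact_mod_cast (by omega : b j - a j ≤ T)
      refine (div_le_self (by positivity) hf1).trans (pow_le_pow_left₀ (by positivity) ?_ _)
      exact mul_le_mul_of_nonneg_right hl hV0
  obtain ⟨S, hS⟩ : ∃ S, S = ∑ H ∈ FamG Δ B a b k, Vq (QH Q (GG B H)) y := ⟨_, rfl⟩
  rw [← hS] at hs
  obtain ⟨P, hP⟩ : ∃ P : ℝ, P = V ^ β * (T * V) ^ n := ⟨_, rfl⟩
  obtain ⟨F, hF⟩ : ∃ F : ℝ, F = V ^ β * E := ⟨_, rfl⟩
  rw [← hP, ← hF] at hs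
  rw [← hP, ← hF]
  have hP0 : 0 ≤ P := by rw [hP]; positivity
  have hFP : F ≤ P := by
    rw [hF, hP]
    exact mul_le_mul_of_nonneg_left hElt (by positivity)
  have hF0 : 0 ≤ F := by rw [hF]; positivity
  have hY0 : (0 : ℝ) ≤ Y := Nat.cast_nonneg Y
  have hmom : ∑ n ∈ Icc 1 Y, XX Q y Δ B a b k n =
      ∑ H ∈ FamG Δ B a b k, (((Icc 1 Y).filter (fun n => Sf (QH Q (GG B H)) y n)).card : ℝ) := by
    unfold XX
    rw [Finset.sum_comm]
    apply Finset.sum_congr rfl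
    intro H _
    rw [Finset.sum_ite, Finset.sum_const_zero, add_zero, Finset.sum_const, nsmul_eq_mul, mul_one]
    congr 2
    apply Finset.filter_congr
    intro m _
    exact (sf_QH Q (GG B H) y m).symm
  rw [hmom]
  have h1 : |∑ H ∈ FamG Δ B a b k, (((Icc 1 Y).filter (fun n => Sf (QH Q (GG B H)) y n)).card : ℝ) - Y * S| ≤
      η / 4 * (Y * S) + T ^ n * √(Y : ℝ) := by
    have e : Y * S = ∑ H ∈ FamG Δ B a b k, (Y : ℝ) * Vq (QH Q (GG B H)) y := by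
      rw [hS, Finset.mul_sum]
    rw [e, ← Finset.sum_sub_distrib]
    refine (Finset.abs_sum_le_sum_abs _ _).trans ?_
    have h2 : ∀ H ∈ FamG Δ B a b k,
        |(((Icc 1 Y).filter (fun n => Sf (QH Q (GG B H)) y n)).card : ℝ) - Y * Vq (QH Q (GG B H)) y| ≤
        η / 4 * (Y * Vq (QH Q (GG B H)) y) + √(Y : ℝ) := by
      intro H hH
      have hper := perB_QH Q c hQ (GG B H)
      have hper' : PerB (QH Q (GG B H)) ((n + 1) * c) := by
        refine ⟨hper.per, fun p hp => (hper.few p hp).trans ?_⟩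
        apply Nat.mul_le_mul_right
        rw [GG_card hwin (mem_filter.1 hH).1, ← hn, ← hβdef]
        omega
      have h3 := hfund Y y ((le_max_left _ _).trans hy) hyY (QH Q (GG B H)) hper' Y
      have e1 : ∏ p ∈ pz y, (1 - (nuB (QH Q (GG B H)) p : ℝ) / p) = Vq (QH Q (GG B H)) y := rfl
      rw [e1] at h3
      unfold Sf
      convert h3
    refine (Finset.sum_le_sum h2).trans ?_
    rw [Finset.sum_add_distrib, ← Finset.mul_sum, Finset.sum_const, nsmul_eq_mul]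
    have h3 : ((FamG Δ B a b k).card : ℝ) ≤ (T : ℝ) ^ (∑ j, k j) := by
      refine le_trans ?_ (fam_card_le (k := k) hwin)
      have : (FamG Δ B a b k).card ≤ (Fam a b k).card := by
        unfold FamG
        exact card_filter_le _ _
      exact_mod_cast this
    rw [← hn] at h3
    have h4 := mul_le_mul_of_nonneg_right h3 (Real.sqrt_nonneg (Y : ℝ))
    linarith
  have h5 : |Y * S - Y * F| ≤ η / 4 * (Y * P) := by
    rw [← mul_sub, abs_mul, abs_of_nonneg hY0]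
    calc (Y : ℝ) * |S - F| ≤ Y * (η / 4 * P) := mul_le_mul_of_nonneg_left hs hY0
      _ = _ := by ring
  have h6 : Y * S ≤ 2 * (Y * P) := by
    have h7 := (abs_le.1 h5).2
    have h8 : 0 ≤ Y * P := mul_nonneg hY0 hP0
    have h9 : Y * F ≤ Y * P := mul_le_mul_of_nonneg_left hFP hY0
    nlinarith
  have h8 : 0 ≤ Y * P := mul_nonneg hY0 hP0
  have h9 := abs_sub_le (∑ H ∈ FamG Δ B a b k,
      (((Icc 1 Y).filter (fun n => Sf (QH Q (GG B H)) y n)).card : ℝ)) (Y * S) (Y * F)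
  have h10 : η / 4 * (Y * S) ≤ η / 4 * (2 * (Y * P)) :=
    mul_le_mul_of_nonneg_left h6 (by positivity)
  have h11 : 0 ≤ η * (Y * P) := by positivity
  calc _ ≤ _ := h9
    _ ≤ η / 4 * (2 * (Y * P)) + T ^ n * √(Y : ℝ) + η / 4 * (Y * P) := by linarith
    _ ≤ _ := by linarith

end Pool.Agent.U832.RG
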