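import Pool.Agent.U832.RG.ExBd

/-!
# Exceptional pairs are rare
-/

set_option autoImplicit false

namespace Pool.Agent.U832.RG

open Finset Filter
open Pool.Agent.W123.RP Pool.Agent.H373R2.T7 Pool.Agent.W123.RU Pool.Agent.TH464.PO

/-- there is an exceptional pair in the window -/
def EX (Q : ℕ → ℕ → Prop) (y : ℕ) (Δ : Finset ℕ) (T n : ℕ) : Prop :=
  ∃ h t, t ∈ Δ ∧ 1 ≤ t ∧ h + t ≤ T ∧ Sf Q y (n + h) ∧ Sf Q y (n + h + t)

open Classical in
lemma pair_cnt (c : ℕ) (hc : 1 ≤ c) : ∃ K0 y0 : ℕ, ∀ Y y : ℕ, y0 ≤ y → y ^ K0 ≤ Y →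
    ∀ Q : ℕ → ℕ → Prop, PerB Q c → ∀ s t : ℕ,
      (((Icc 1 Y).filter (fun n => Sf Q y (n + s) ∧ Sf Q y (n + s + t))).card : ℝ) ≤
        2 * (Y * Vq (QH Q {s, s + t}) y) + √(Y : ℝ) := by
  obtain ⟨K0, y0, hK0, h⟩ := sys_fund (2 * c) (by omega) 1 one_pos
  refine ⟨K0, y0, fun Y y hy hyY Q hQ s t => ?_⟩
  have hper := perB_QH Q c hQ {s, s + t}
  have hper' : PerB (QH Q {s, s + t}) (2 * c) := by
    refine ⟨hper.per, fun p hp => (hper.few p hp).trans ?_⟩
    exact Nat.mul_le_mul_right c card_le_two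
  have h1 := h Y y hy hyY (QH Q {s, s + t}) hper' Y
  have e1 : ∏ p ∈ pz y, (1 - (nuB (QH Q {s, s + t}) p : ℝ) / p) = Vq (QH Q {s, s + t}) y := rfl
  rw [e1] at h1
  have h2 := (abs_le.1 h1).2
  have e2 : (Icc 1 Y).filter (fun n => Sf Q y (n + s) ∧ Sf Q y (n + s + t)) =
      (Icc 1 Y).filter (fun n : ℕ => ∀ p ∈ pz y, ¬ QH Q {s, s + t} p n) := by
    apply Finset.filter_congr
    intro n _
    have h3 := sf_QH Q {s, s + t} y n
    unfold Sf at h3
    rw [h3]
    constructor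
    · rintro ⟨h4, h5⟩ x hx
      rw [mem_insert, mem_singleton] at hx
      rcases hx with hx | hx
      · rw [hx]
        exact h4
      · rw [hx, ← add_assoc]
        exact h5
    · intro h4
      refine ⟨h4 s (mem_insert_self _ _), ?_⟩
      have := h4 (s + t) (mem_insert_of_mem (mem_singleton_self _))
      rwa [← add_assoc] at this
  rw [e2]
  have : (((Icc 1 Y).filter (fun n : ℕ => ∀ p ∈ pz y, ¬ QH Q {s, s + t} p n)).card : ℝ) ≤
      Y * Vq (QH Q {s, s + t}) y + (1 * (Y * Vq (QH Q {s, s + t}) y) + √(Y : ℝ)) := by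
    convert sub_le_iff_le_add'.1 h2 using 1
  linarith

open Classical in
/-- swapping the roles of the base and of the pair -/
lemma swap_roles (Q : ℕ → ℕ → Prop) (y T Y s t : ℕ) (hs : s ≤ T) :
    ∑ n ∈ Icc 1 Y, uB Q y {s} n *
      (((range (T + 1)).filter (fun h => Sf Q y (n + h) ∧ Sf Q y (n + h + t))).card : ℝ) ≤
    T * (T + 1) + ∑ n ∈ Icc 1 Y, (if Sf Q y (n + T) ∧ Sf Q y (n + T + t) then (1 : ℝ) else 0) *
      (Nall Q y (2 * T) n : ℝ) := by
  obtain ⟨P, hP⟩ : ∃ P : Finset (ℕ × ℕ), P = ((Icc 1 Y) ×ˢ range (T + 1)).filter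
      (fun x => Sf Q y (x.1 + s) ∧ Sf Q y (x.1 + x.2) ∧ Sf Q y (x.1 + x.2 + t)) := ⟨_, rfl⟩
  obtain ⟨R, hR⟩ : ∃ R : Finset (ℕ × ℕ), R = ((Icc 1 Y) ×ˢ range (2 * T + 1)).filter
      (fun x => (Sf Q y (x.1 + T) ∧ Sf Q y (x.1 + T + t)) ∧ Sf Q y (x.1 + x.2)) := ⟨_, rfl⟩
  have e1 : ∑ n ∈ Icc 1 Y, uB Q y {s} n *
      (((range (T + 1)).filter (fun h => Sf Q y (n + h) ∧ Sf Q y (n + h + t))).card : ℝ) = P.card := by
    rw [hP, Finset.card_filter, Finset.sum_product]
    push_cast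
    apply Finset.sum_congr rfl
    intro n _
    unfold uB
    rw [Finset.card_filter]
    push_cast
    by_cases h : Sf Q y (n + s)
    · rw [if_pos (by simpa using h), one_mul]
      apply Finset.sum_congr rfl
      intro x _
      simp [h]
    · rw [if_neg (by simpa using h), zero_mul]
      symm
      apply Finset.sum_eq_zero
      intro x _
      simp [h]
  have e2 : ∑ n ∈ Icc 1 Y, (if Sf Q y (n + T) ∧ Sf Q y (n + T + t) then (1 : ℝ) else 0) *
      (Nall Q y (2 * T) n : ℝ) = R.card := by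
    rw [hR, Finset.card_filter, Finset.sum_product]
    push_cast
    apply Finset.sum_congr rfl
    intro n _
    unfold Nall
    rw [Finset.card_filter]
    push_cast
    by_cases h : Sf Q y (n + T) ∧ Sf Q y (n + T + t)
    · rw [if_pos h, one_mul]
      apply Finset.sum_congr rfl
      intro x _
      simp [h]
    · rw [if_neg h, zero_mul]
      symm
      apply Finset.sum_eq_zero
      intro x _
      rw [if_neg]
      exact fun h1 => h h1.1
  rw [e1, e2]
  have h1 : P.card ≤ T * (T + 1) + R.card := by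
    have hsplit := Finset.card_filter_add_card_filter_not (s := P) (fun x : ℕ × ℕ => x.1 + x.2 ≤ T)
    have g1 : (P.filter (fun x : ℕ × ℕ => x.1 + x.2 ≤ T)).card ≤ T * (T + 1) := by
      have : P.filter (fun x : ℕ × ℕ => x.1 + x.2 ≤ T) ⊆ (Icc 1 T) ×ˢ range (T + 1) := by
        intro x hx
        rw [mem_filter, hP, mem_filter, mem_product, mem_Icc, mem_range] at hx
        rw [mem_product, mem_Icc, mem_range]
        omega
      refine (card_le_card this).trans ?_
      rw [card_product, Nat.card_Icc, card_range]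
      simp
    have g2 : (P.filter (fun x : ℕ × ℕ => ¬ x.1 + x.2 ≤ T)).card ≤ R.card := by
      apply Finset.card_le_card_of_injOn (fun x => (x.1 + x.2 - T, T - x.2 + s))
      · intro x hx
        rw [mem_coe, mem_filter, hP, mem_filter, mem_product, mem_Icc, mem_range] at hx
        obtain ⟨⟨⟨⟨h1, h2⟩, h3⟩, h4, h5, h6⟩, h7⟩ := hx
        rw [mem_coe, hR, mem_filter, mem_product, mem_Icc, mem_range]
        dsimp only
        rw [show x.1 + x.2 - T + T = x.1 + x.2 by omega, show x.1 + x.2 - T + (T - x.2 + s) = x.1 + s by omega]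
        exact ⟨⟨⟨by omega, by omega⟩, by omega⟩, ⟨h5, h6⟩, h4⟩
      · intro x hx z hz hxz
        rw [mem_coe, mem_filter, hP, mem_filter, mem_product, mem_Icc, mem_range] at hx hz
        simp only [Prod.mk.injEq] at hxz
        ext
        · omega
        · omega
    omega
  exact_mod_cast h1

end Pool.Agent.U832.RG
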