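import Pool.Agent.U832.RG.SingM

/-!
# The average of the singular series over a base point and several windows, with exceptional shifts
-/

set_option autoImplicit false

namespace Pool.Agent.U832.RG

open Finset Filter
open Pool.Agent.W123.RP Pool.Agent.H373R2.T7 Pool.Agent.W123.RU Pool.Agent.TH464.PO

variable {J : ℕ}

/-- no two elements of `G` differ by an element of `Δ` -/
def Gd (Δ : Finset ℕ) (G : Finset ℕ) : Prop := ∀ x ∈ prs G, x.2 - x.1 ∉ Δ

open Classical in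
/-- the families without exceptional differences -/
noncomputable def FamG (Δ B : Finset ℕ) (a b k : Fin J → ℕ) : Finset (Fin J → Finset ℕ) :=
  (Fam a b k).filter (fun H => Gd Δ (GG B H))

/-- the collisions without the exceptional shifts -/
def CoE (Q : ℕ → ℕ → Prop) (Δ : Finset ℕ) (T p h : ℕ) : Prop := CoG Q p h ∧ ¬ (T < p ∧ h % p ∈ Δ)

lemma coll_ex (Q : ℕ → ℕ → Prop) (c : ℕ) (hQ : PerB Q c) (Δ : Finset ℕ) (T p0 : ℕ) :
    Coll (CoE Q Δ T) p0 (c ^ 2) := by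
  have h := coll_gen Q c hQ p0
  constructor
  · intro p n
    unfold CoE
    rw [h.per p n, Nat.mod_mod]
  · intro p hp h0
    classical
    refine le_trans (card_le_card ?_) (h.few p hp h0)
    intro r hr
    rw [mem_filter] at hr ⊢
    exact ⟨hr.1, hr.2.1⟩

open Classical in
lemma avg_ex (K c w : ℕ) (hw : 1 ≤ w) (η : ℝ) (hη : 0 < η) (hη1 : η ≤ 1)
    (hKD : (K * c ^ 2 : ℕ) / (w : ℝ) ≤ η) : ∃ T0 : ℕ, 2 ≤ T0 ∧ ∀ T : ℕ, T0 ≤ T →
    ∀ Q : ℕ → ℕ → Prop, PerB Q c → ∀ Δ : Finset ℕ, ∀ y : ℕ, ∀ η' : ℝ, 0 ≤ η' → K * η' ≤ η →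
    (∀ h ∈ Icc 1 T, h ∉ Δ → ((((pz y).filter (fun p : ℕ => T < p ∧ CoG Q p h)).card : ℕ) : ℝ) ≤ η' * T) →
    ∑ t ∈ Icc 1 T, (if t ∈ Δ then 0 else Fp Q K w y t - 1) ≤ 12 * η * T := by
  obtain ⟨T1, hT1, havg⟩ := avg_sharp K (c ^ 2) w hw η hη hKD
  refine ⟨T1, hT1, fun T hT Q hQ Δ y η' hη' hKη hlarge => ?_⟩
  have h4 := havg T hT (CoE Q Δ T) (coll_ex Q c hQ Δ T w) y η' hη' hKη (by
    intro h hh
    by_cases hΔ : h ∈ Δ
    · rw [filter_eq_empty_iff.2, card_empty, Nat.cast_zero]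
      · positivity
      · intro p _ h1
        have hh' := mem_Icc.1 hh
        apply h1.2.2
        exact ⟨h1.1, by rw [Nat.mod_eq_of_lt (by omega)]; exact hΔ⟩
    · refine le_trans ?_ (hlarge h hh hΔ)
      have : ((pz y).filter (fun p : ℕ => T < p ∧ CoE Q Δ T p h)).card ≤
          ((pz y).filter (fun p : ℕ => T < p ∧ CoG Q p h)).card := by
        apply card_le_card
        intro p hp
        rw [mem_filter] at hp ⊢
        exact ⟨hp.1, hp.2.1, hp.2.2.1⟩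
      exact_mod_cast this)
  have h5 : ∀ t ∈ Icc 1 T, (if t ∈ Δ then 0 else Fp Q K w y t - 1) ≤
      (∏ p ∈ (pz y).filter (fun p : ℕ => w < p ∧ CoE Q Δ T p t), (1 + (K : ℝ) / p)) - 1 := by
    intro t ht
    by_cases hΔ : t ∈ Δ
    · rw [if_pos hΔ]
      have : (1 : ℝ) ≤ ∏ p ∈ (pz y).filter (fun p : ℕ => w < p ∧ CoE Q Δ T p t), (1 + (K : ℝ) / p) := by
        apply Finset.one_le_prod
        intro p _
        have : 0 ≤ (K : ℝ) / p := by positivity
        linarith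
      linarith
    · rw [if_neg hΔ]
      apply le_of_eq
      unfold Fp
      congr 2
      apply Finset.filter_congr
      intro p _
      unfold CoE
      constructor
      · rintro ⟨h1, h2⟩
        refine ⟨h1, h2, fun h3 => hΔ ?_⟩
        rw [mem_Icc] at ht
        rw [Nat.mod_eq_of_lt (by omega)] at h3
        exact h3.2
      · rintro ⟨h1, h2, _⟩
        exact ⟨h1, h2⟩
  refine (Finset.sum_le_sum h5).trans ?_
  rw [Finset.sum_sub_distrib, Finset.sum_const, Nat.card_Icc, Nat.add_sub_cancel, nsmul_eq_mul,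
    mul_one]
  have h6 := exp_bound η hη.le hη1
  have hT0 : (0 : ℝ) ≤ T := Nat.cast_nonneg T
  have h7 := mul_le_mul_of_nonneg_right h6 hT0
  linarith

open Classical in
/-- the number of the bad families -/
lemma bad_card {T : ℕ} {B : Finset ℕ} {a b k : Fin J → ℕ} (w : Win T B a b) (Δ : Finset ℕ) :
    (T : ℝ) * (((Fam a b k).filter (fun H => ¬ Gd Δ (GG B H))).card : ℝ) ≤
      3 * (T : ℝ) ^ (∑ j, k j) * (Δ.card : ℝ) := by
  have h := sum_pairs (k := k) w (fun t => if t ∈ Δ then (1 : ℝ) else 0) (fun t => by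
    split_ifs <;> norm_num)
  have h1 : (((Fam a b k).filter (fun H => ¬ Gd Δ (GG B H))).card : ℝ) ≤
      ∑ H ∈ Fam a b k, ∑ x ∈ prs (GG B H), (if x.2 - x.1 ∈ Δ then (1 : ℝ) else 0) := by
    rw [Finset.card_filter]
    push_cast
    apply Finset.sum_le_sum
    intro H _
    by_cases hg : Gd Δ (GG B H)
    · rw [if_neg (not_not.2 hg)]
      apply Finset.sum_nonneg
      intro x _
      split_ifs <;> norm_num
    · rw [if_pos hg]
      unfold Gd at hg
      push Not at hg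
      obtain ⟨x, hx, hx'⟩ := hg
      calc (1 : ℝ) = if x.2 - x.1 ∈ Δ then (1 : ℝ) else 0 := by rw [if_pos hx']
        _ ≤ _ := Finset.single_le_sum (f := fun x : ℕ × ℕ => if x.2 - x.1 ∈ Δ then (1 : ℝ) else 0)
            (fun y _ => by split_ifs <;> norm_num) hx
  have h2 : ∑ t ∈ Icc 1 T, (if t ∈ Δ then (1 : ℝ) else 0) ≤ Δ.card := by
    rw [Finset.sum_ite, Finset.sum_const_zero, add_zero, Finset.sum_const, nsmul_eq_mul, mul_one]
    have : ((Icc 1 T).filter (fun t => t ∈ Δ)).card ≤ Δ.card := by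
      apply card_le_card
      intro t ht
      exact (mem_filter.1 ht).2
    exact_mod_cast this
  have hT : (0 : ℝ) ≤ T := Nat.cast_nonneg T
  calc (T : ℝ) * (((Fam a b k).filter (fun H => ¬ Gd Δ (GG B H))).card : ℝ) ≤ _ :=
        mul_le_mul_of_nonneg_left h1 hT
    _ ≤ _ := h
    _ ≤ _ := mul_le_mul_of_nonneg_left h2 (by positivity)

open Classical in
/-- **The average of the singular series** over a base point and several windows, with exceptional shifts. -/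
theorem sing_ex (c e : ℕ) (k : Fin J → ℕ) (η : ℝ) (hη : 0 < η) (hη1 : η ≤ 1) :
    ∃ (w : ℕ) (η' : ℝ) (T0 : ℕ), 0 < η' ∧ ∀ T : ℕ, T0 ≤ T → ∀ Q : ℕ → ℕ → Prop, PerB Q c →
      (∀ p : ℕ, p.Prime → nuB Q p < p) → ∀ y : ℕ, w ≤ y → ∀ Δ : Finset ℕ, Δ.card ≤ e →
      (∀ t ∈ Icc 1 T, t ∉ Δ → ((((pz y).filter (fun p : ℕ => T < p ∧ CoG Q p t)).card : ℕ) : ℝ) ≤ η' * T) →
      ∀ (B : Finset ℕ) (a b : Fin J → ℕ), Win T B a b →
      |∑ H ∈ FamG Δ B a b k, Vq (QH Q (GG B H)) y -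
        Vq Q y ^ B.card * ∏ j, (((b j - a j : ℕ) : ℝ) * Vq Q y) ^ k j / (k j).factorial| ≤
        η * (Vq Q y ^ B.card * (T * Vq Q y) ^ (∑ j, k j)) := by
  obtain ⟨c1, B1, w1, hc1, hw12, hW⟩ := W_low c
  obtain ⟨n, hn⟩ : ∃ n, n = ∑ j, k j := ⟨_, rfl⟩
  obtain ⟨K, hK⟩ : ∃ K : ℕ, K = (1 + 2 * ((n + 1) * c)) ^ ((n + 1) ^ 2) - 1 := ⟨_, rfl⟩
  obtain ⟨A, hA⟩ : ∃ A : ℕ, A = 36 * (K * c ^ 2 + 1) + ((n + 1) * c) ^ 2 := ⟨_, rfl⟩
  obtain ⟨w, hw0, hw2, hAw, hAw'⟩ := exists_w A B1 (n + 1) c1 (η / 4) hc1 (by positivity)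
    (max w1 (2 * ((n + 1) * c)))
  have hww1 : w1 ≤ w := (le_max_left _ _).trans hw0
  have hwc : 2 * ((n + 1) * c) ≤ w := (le_max_right _ _).trans hw0
  have hwr : (0 : ℝ) < w := by exact_mod_cast (by omega : 0 < w)
  have hlog : 0 < Real.log w := Real.log_pos (by exact_mod_cast (by omega : 1 < w))
  obtain ⟨η1, hη1def⟩ : ∃ η1 : ℝ, η1 = ((K * c ^ 2 + 1 : ℕ) : ℝ) / w := ⟨_, rfl⟩
  have hη10 : 0 < η1 := by rw [hη1def]; positivity
  have hAge : 36 * η1 ≤ (A : ℝ) / w := by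
    rw [hη1def, le_div_iff₀ hwr]
    have : ((36 * (K * c ^ 2 + 1) : ℕ) : ℝ) ≤ A := by
      exact_mod_cast (by omega : 36 * (K * c ^ 2 + 1) ≤ A)
    refine le_trans (le_of_eq ?_) this
    push_cast
    field_simp
  have hAge2 : (((n + 1) * c : ℕ) : ℝ) ^ 2 / w ≤ η / 4 := by
    refine le_trans ?_ hAw'
    apply div_le_div_of_nonneg_right _ hwr.le
    exact_mod_cast (by omega : ((n + 1) * c) ^ 2 ≤ A)
  have hη1le : η1 ≤ 1 := by linarith
  obtain ⟨T1, hT1, havg⟩ := avg_ex K c w (by omega) η1 hη10 hη1le (by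
    rw [hη1def]
    apply div_le_div_of_nonneg_right _ hwr.le
    push_cast
    linarith)
  obtain ⟨D, hD0, hsmall⟩ := small_multi k w
  obtain ⟨W0, hW0⟩ : ∃ W0 : ℝ, W0 = c1 / Real.log w ^ B1 := ⟨_, rfl⟩
  have hW0pos : 0 < W0 := by rw [hW0]; positivity
  rw [← hW0] at hAw
  obtain ⟨T2, hT2⟩ : ∃ T2 : ℕ, D / (η / 8 * W0 ^ n) ≤ T2 := exists_nat_ge _
  obtain ⟨T3, hT3⟩ : ∃ T3 : ℕ, 3 * (e : ℝ) / (η / 8 * W0 ^ (n + 1)) ≤ T3 := exists_nat_ge _
  refine ⟨w, η1 / (K + 1), max (max T1 T2) (max T3 1), by positivity, ?_⟩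
  intro T hT Q hQ hadm y hwy Δ hΔe hlarge B a b hwin
  have hT1' : T1 ≤ T := (le_max_left _ _).trans ((le_max_left _ _).trans hT)
  have hT2' : T2 ≤ T := (le_max_right _ _).trans ((le_max_left _ _).trans hT)
  have hT3' : T3 ≤ T := (le_max_left _ _).trans ((le_max_right _ _).trans hT)
  have hT1'' : 1 ≤ T := (le_max_right _ _).trans ((le_max_right _ _).trans hT)
  have hTpos : (0 : ℝ) < T := by exact_mod_cast hT1''
  have hWpos := Vq_pos Q hadm w
  have hWW := hW w hww1 Q hQ hadm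
  have hs := hsmall T Q c hQ B a b hwin
  obtain ⟨W, hWdef⟩ : ∃ W, W = Vq Q w := ⟨_, rfl⟩
  obtain ⟨V, hV⟩ : ∃ V, V = Vt Q w y := ⟨_, rfl⟩
  have hV0 : 0 ≤ V := by rw [hV]; exact Vt_nonneg Q w y
  rw [← hWdef, ← hW0] at hWW
  have hW1 : W ≤ 1 := by rw [hWdef]; exact Vq_le_one Q w
  rw [← hWdef] at hs hWpos
  rw [Vq_split Q w y hwy, ← hWdef, ← hV]
  obtain ⟨E, hE⟩ : ∃ E : ℝ, E = ∏ j, (((b j - a j : ℕ) : ℝ) * W) ^ k j / ((k j).factorial : ℝ) := ⟨_, rfl⟩
  rw [← hE, ← hn] at hs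
  rw [← hn]
  have hE0 : 0 ≤ E := by rw [hE]; positivity
  have hElt : E ≤ (T * W) ^ n := by
    rw [hE, hn, ← Finset.prod_pow_eq_pow_sum]
    apply Finset.prod_le_prod
    · intro j _
      positivity
    · intro j _
      have hf1 : (1 : ℝ) ≤ (k j).factorial := by exact_mod_cast Nat.factorial_pos (k j)
      have hl : ((b j - a j : ℕ) : ℝ) ≤ T := by
        have := hwin.bT j
        exact_mod_cast (by omega : b j - a j ≤ T)
      refine (div_le_self (by positivity) hf1).trans (pow_le_pow_left₀ (by positivity) ?_ _)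
      exact mul_le_mul_of_nonneg_right hl hWpos.le
  have e0 : ∏ j, (((b j - a j : ℕ) : ℝ) * (W * V)) ^ k j / ((k j).factorial : ℝ) = V ^ n * E := by
    rw [hE, hn, ← Finset.prod_pow_eq_pow_sum, ← Finset.prod_mul_distrib]
    apply Finset.prod_congr rfl
    intro j _
    rw [← mul_assoc, mul_pow _ V]
    ring
  rw [e0]
  obtain ⟨β, hβ⟩ : ∃ β, β = B.card := ⟨_, rfl⟩
  have hβ1 : β ≤ 1 := by rw [hβ]; exact hwin.card
  rw [← hβ] at hs ⊢
  have e1 : (W * V) ^ β * (V ^ n * E) = V ^ (β + n) * (W ^ β * E) := by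
    rw [mul_pow, pow_add]
    ring
  have e2 : (W * V) ^ β * (T * (W * V)) ^ n = V ^ (β + n) * (W ^ β * (T * W) ^ n) := by
    rw [← mul_assoc (T : ℝ), mul_pow W, mul_pow _ V, pow_add]
    ring
  rw [e1, e2]
  have hVk : 0 ≤ V ^ (β + n) := by positivity
  obtain ⟨S, hS⟩ : ∃ S, S = ∑ H ∈ Fam a b k, Vq (QH Q (GG B H)) w := ⟨_, rfl⟩
  rw [← hS] at hs
  have hcard : ∀ H ∈ Fam a b k, (GG B H).card = β + n := fun H hH => by
    rw [GG_card hwin hH, hβ, hn]
  -- the local part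
  have hWβ : 0 < W ^ β := by positivity
  have hX : W ^ n * (T : ℝ) ^ n = (T * W) ^ n := by rw [mul_pow]; ring
  have hs0 : |S - W ^ β * E| ≤ η / 8 * (W ^ β * (T * W) ^ n) := by
    have h1 : D ≤ η / 8 * W ^ n * T := by
      have h2 : D / (η / 8 * W0 ^ n) ≤ T := hT2.trans (by exact_mod_cast hT2')
      rw [div_le_iff₀ (by positivity)] at h2
      calc D ≤ T * (η / 8 * W0 ^ n) := h2
        _ ≤ T * (η / 8 * W ^ n) := by gcongr
        _ = _ := by ring
    have h2 : T * |S - W ^ β * E| ≤ T * (η / 8 * (W ^ β * (T * W) ^ n)) := by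
      refine hs.trans ?_
      calc D * (W ^ β * (T : ℝ) ^ n) ≤ (η / 8 * W ^ n * T) * (W ^ β * (T : ℝ) ^ n) :=
            mul_le_mul_of_nonneg_right h1 (by positivity)
        _ = T * (η / 8 * (W ^ β * (W ^ n * (T : ℝ) ^ n))) := by ring
        _ = _ := by rw [hX]
    exact le_of_mul_le_mul_left h2 hTpos
  obtain ⟨SG, hSG⟩ : ∃ SG, SG = ∑ H ∈ FamG Δ B a b k, Vq (QH Q (GG B H)) w := ⟨_, rfl⟩
  have hbad : (((Fam a b k).filter (fun H => ¬ Gd Δ (GG B H))).card : ℝ) ≤ η / 8 * (W ^ β * (T * W) ^ n) := by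
    have h1 := bad_card (k := k) hwin Δ
    rw [← hn] at h1
    have h2 : 3 * (e : ℝ) ≤ η / 8 * (W ^ β * W ^ n) * T := by
      have h3 : 3 * (e : ℝ) / (η / 8 * W0 ^ (n + 1)) ≤ T := hT3.trans (by exact_mod_cast hT3')
      rw [div_le_iff₀ (by positivity)] at h3
      have h4 : W0 ^ (n + 1) ≤ W ^ β * W ^ n := by
        rw [← pow_add]
        calc W0 ^ (n + 1) ≤ W ^ (n + 1) := pow_le_pow_left₀ hW0pos.le hWW _
          _ ≤ W ^ (β + n) := pow_le_pow_of_le_one hWpos.le hW1 (by omega)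
      calc 3 * (e : ℝ) ≤ T * (η / 8 * W0 ^ (n + 1)) := h3
        _ ≤ T * (η / 8 * (W ^ β * W ^ n)) := by gcongr
        _ = _ := by ring
    have h3 : (Δ.card : ℝ) ≤ e := by exact_mod_cast hΔe
    have h4 : (T : ℝ) * (((Fam a b k).filter (fun H => ¬ Gd Δ (GG B H))).card : ℝ) ≤
        T * (η / 8 * (W ^ β * (T * W) ^ n)) := by
      calc _ ≤ 3 * (T : ℝ) ^ n * (Δ.card : ℝ) := h1
        _ ≤ 3 * (T : ℝ) ^ n * e := mul_le_mul_of_nonneg_left h3 (by positivity)
        _ = (T : ℝ) ^ n * (3 * e) := by ring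
        _ ≤ (T : ℝ) ^ n * (η / 8 * (W ^ β * W ^ n) * T) := mul_le_mul_of_nonneg_left h2 (by positivity)
        _ = T * (η / 8 * (W ^ β * (W ^ n * (T : ℝ) ^ n))) := by ring
        _ = _ := by rw [hX]
    exact le_of_mul_le_mul_left h4 hTpos
  have hSS : S = SG + ∑ H ∈ (Fam a b k).filter (fun H => ¬ Gd Δ (GG B H)), Vq (QH Q (GG B H)) w := by
    rw [hS, hSG]
    unfold FamG
    exact (Finset.sum_filter_add_sum_filter_not _ _ _).symm
  have hB0 : 0 ≤ ∑ H ∈ (Fam a b k).filter (fun H => ¬ Gd Δ (GG B H)), Vq (QH Q (GG B H)) w :=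
    Finset.sum_nonneg fun H _ => Vq_nonneg _ w
  have hB1 : ∑ H ∈ (Fam a b k).filter (fun H => ¬ Gd Δ (GG B H)), Vq (QH Q (GG B H)) w ≤
      η / 8 * (W ^ β * (T * W) ^ n) := by
    refine le_trans ?_ hbad
    refine (Finset.sum_le_card_nsmul _ _ 1 fun H _ => Vq_le_one _ w).trans ?_
    rw [nsmul_eq_mul, mul_one]
  have hs' : |SG - W ^ β * E| ≤ η / 4 * (W ^ β * (T * W) ^ n) := by
    obtain ⟨r1, r2⟩ := abs_le.1 hs0
    rw [abs_le]
    constructor <;> linarith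
  have hSubG : ∀ H ∈ FamG Δ B a b k, H ∈ Fam a b k ∧ Gd Δ (GG B H) := by
    intro H hH
    unfold FamG at hH
    exact mem_filter.1 hH
  obtain ⟨s1, s2⟩ := abs_le.1 hs'
  have hterm : ∀ H ∈ FamG Δ B a b k, Vq (QH Q (GG B H)) y = Vq (QH Q (GG B H)) w * Vt (QH Q (GG B H)) w y :=
    fun H _ => Vq_split _ w y hwy
  have hbn : 2 * ((β + n) * c) ≤ w := by
    refine le_trans ?_ hwc
    have : β + n ≤ n + 1 := by omega
    exact Nat.mul_le_mul_left 2 (Nat.mul_le_mul_right c this)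
  have hXX : 0 ≤ W ^ β * (T * W) ^ n := by positivity
  rw [abs_le]
  constructor
  · -- lower bound
    have h1 : ∀ H ∈ FamG Δ B a b k, V ^ (β + n) * (1 - η / 4) * Vq (QH Q (GG B H)) w ≤ Vq (QH Q (GG B H)) y := by
      intro H hH
      rw [hterm H hH]
      have h2 := tail_lo Q c hQ (GG B H) w y (by omega) (by rw [hcard H (hSubG H hH).1]; exact hbn)
      rw [hcard H (hSubG H hH).1, ← hV] at h2
      have h3 : V ^ (β + n) * (1 - η / 4) ≤ Vt (QH Q (GG B H)) w y := by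
        refine le_trans ?_ h2
        apply mul_le_mul_of_nonneg_left _ hVk
        have h4 : (((β + n) * c : ℕ) : ℝ) ^ 2 / w ≤ (((n + 1) * c : ℕ) : ℝ) ^ 2 / w := by
          apply div_le_div_of_nonneg_right _ hwr.le
          apply pow_le_pow_left₀ (Nat.cast_nonneg _)
          exact_mod_cast Nat.mul_le_mul_right c (by omega : β + n ≤ n + 1)
        linarith
      calc V ^ (β + n) * (1 - η / 4) * Vq (QH Q (GG B H)) w ≤
            Vt (QH Q (GG B H)) w y * Vq (QH Q (GG B H)) w :=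
            mul_le_mul_of_nonneg_right h3 (Vq_nonneg _ w)
        _ = _ := mul_comm _ _
    have h2 := Finset.sum_le_sum h1
    rw [← Finset.mul_sum, ← hSG] at h2
    have h3 : V ^ (β + n) * (W ^ β * E - η * (W ^ β * (T * W) ^ n)) ≤ V ^ (β + n) * ((1 - η / 4) * SG) := by
      apply mul_le_mul_of_nonneg_left _ hVk
      have h4 : (1 - η / 4) * (W ^ β * E - η / 4 * (W ^ β * (T * W) ^ n)) ≤ (1 - η / 4) * SG := by
        apply mul_le_mul_of_nonneg_left _ (by linarith)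
        linarith
      have h5 : W ^ β * E ≤ W ^ β * (T * W) ^ n := mul_le_mul_of_nonneg_left hElt hWβ.le
      have h6 : η / 4 * (W ^ β * E) ≤ η / 4 * (W ^ β * (T * W) ^ n) :=
        mul_le_mul_of_nonneg_left h5 (by positivity)
      have h7 : 0 ≤ η / 4 * (η / 4 * (W ^ β * (T * W) ^ n)) := by positivity
      have h8 : 0 ≤ η * (W ^ β * (T * W) ^ n) := by positivity
      linarith
    linarith
  · -- upper bound
    have hgE : ∀ H ∈ FamG Δ B a b k, ∑ x ∈ prs (GG B H), (Fp Q K w y (x.2 - x.1) - 1) =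
        ∑ x ∈ prs (GG B H), (if x.2 - x.1 ∈ Δ then 0 else Fp Q K w y (x.2 - x.1) - 1) := by
      intro H hH
      apply Finset.sum_congr rfl
      intro x hx
      rw [if_neg ((hSubG H hH).2 x hx)]
    have h1 : ∀ H ∈ FamG Δ B a b k, Vq (QH Q (GG B H)) y ≤
        V ^ (β + n) * (Vq (QH Q (GG B H)) w + ∑ x ∈ prs (GG B H), (Fp Q K w y (x.2 - x.1) - 1)) := by
      intro H hH
      rw [hterm H hH]
      have h2 := tail_up Q c hQ (GG B H) w y (by rw [hcard H (hSubG H hH).1]; exact hbn)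
      rw [hcard H (hSubG H hH).1, ← hV] at h2
      have hKK : (1 + 2 * ((β + n) * c)) ^ ((β + n) ^ 2) - 1 ≤ K := by
        rw [hK]
        apply Nat.sub_le_sub_right
        have h3 : β + n ≤ n + 1 := by omega
        have h4 : 1 + 2 * ((β + n) * c) ≤ 1 + 2 * ((n + 1) * c) :=
          Nat.add_le_add_left (Nat.mul_le_mul_left 2 (Nat.mul_le_mul_right c h3)) 1
        exact (Nat.pow_le_pow_left h4 _).trans
          (Nat.pow_le_pow_right (by omega) (Nat.pow_le_pow_left h3 2))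
      have h2' : Vt (QH Q (GG B H)) w y ≤ V ^ (β + n) *
          (1 + ∑ x ∈ prs (GG B H), (Fp Q K w y (x.2 - x.1) - 1)) := by
        refine h2.trans ?_
        apply mul_le_mul_of_nonneg_left _ hVk
        gcongr
        apply Fp_mono
        exact hKK
      have h3 : 0 ≤ ∑ x ∈ prs (GG B H), (Fp Q K w y (x.2 - x.1) - 1) := by
        apply Finset.sum_nonneg
        intro x _
        have := Fp_ge Q K w y (x.2 - x.1)
        linarith
      have h4 := Vq_nonneg (QH Q (GG B H)) w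
      have h5 := Vq_le_one (QH Q (GG B H)) w
      calc Vq (QH Q (GG B H)) w * Vt (QH Q (GG B H)) w y ≤ Vq (QH Q (GG B H)) w * (V ^ (β + n) *
            (1 + ∑ x ∈ prs (GG B H), (Fp Q K w y (x.2 - x.1) - 1))) := mul_le_mul_of_nonneg_left h2' h4
        _ = V ^ (β + n) * (Vq (QH Q (GG B H)) w +
            Vq (QH Q (GG B H)) w * ∑ x ∈ prs (GG B H), (Fp Q K w y (x.2 - x.1) - 1)) := by ring
        _ ≤ _ := by
          apply mul_le_mul_of_nonneg_left _ hVk
          have := mul_le_mul_of_nonneg_right h5 h3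
          linarith
    have h2 := Finset.sum_le_sum h1
    rw [← Finset.mul_sum, Finset.sum_add_distrib, ← hSG, Finset.sum_congr rfl hgE] at h2
    have hg0 : ∀ t, 0 ≤ (if t ∈ Δ then 0 else Fp Q K w y t - 1) := by
      intro t
      have := Fp_ge Q K w y t
      split_ifs
      · exact le_rfl
      · linarith
    have h3' := sum_pairs (k := k) hwin (fun t => if t ∈ Δ then 0 else Fp Q K w y t - 1) hg0
    rw [← hn] at h3'
    have h3 : (T : ℝ) * ∑ H ∈ FamG Δ B a b k, ∑ x ∈ prs (GG B H),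
        (if x.2 - x.1 ∈ Δ then 0 else Fp Q K w y (x.2 - x.1) - 1) ≤
        3 * (T : ℝ) ^ n * ∑ t ∈ Icc 1 T, (if t ∈ Δ then 0 else Fp Q K w y t - 1) := by
      refine le_trans ?_ h3'
      apply mul_le_mul_of_nonneg_left _ hTpos.le
      apply Finset.sum_le_sum_of_subset_of_nonneg
      · intro H hH
        exact (hSubG H hH).1
      · intro H _ _
        exact Finset.sum_nonneg fun x _ => hg0 _
    have h5 := havg T hT1' Q hQ Δ y (η1 / (K + 1)) (by positivity) (by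
      rw [← mul_div_assoc, div_le_iff₀ (by positivity)]
      have : (0 : ℝ) ≤ K := Nat.cast_nonneg K
      nlinarith) hlarge
    have h6 : ∑ H ∈ FamG Δ B a b k, ∑ x ∈ prs (GG B H),
        (if x.2 - x.1 ∈ Δ then 0 else Fp Q K w y (x.2 - x.1) - 1) ≤
        η / 4 * (W ^ β * (T * W) ^ n) := by
      have h7 : (T : ℝ) * ∑ H ∈ FamG Δ B a b k, ∑ x ∈ prs (GG B H),
          (if x.2 - x.1 ∈ Δ then 0 else Fp Q K w y (x.2 - x.1) - 1) ≤
          T * (36 * η1 * (T : ℝ) ^ n) := by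
        calc _ ≤ 3 * (T : ℝ) ^ n * ∑ t ∈ Icc 1 T, (if t ∈ Δ then 0 else Fp Q K w y t - 1) := h3
          _ ≤ 3 * (T : ℝ) ^ n * (12 * η1 * T) := mul_le_mul_of_nonneg_left h5 (by positivity)
          _ = _ := by ring
      have h8 := le_of_mul_le_mul_left h7 hTpos
      refine h8.trans ?_
      calc 36 * η1 * (T : ℝ) ^ n ≤ (η / 4 * W0 ^ (n + 1)) * (T : ℝ) ^ n :=
            mul_le_mul_of_nonneg_right (hAge.trans hAw) (by positivity)
        _ ≤ (η / 4 * W ^ (β + n)) * (T : ℝ) ^ n := by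
            apply mul_le_mul_of_nonneg_right _ (by positivity)
            apply mul_le_mul_of_nonneg_left _ (by positivity)
            calc W0 ^ (n + 1) ≤ W ^ (n + 1) := pow_le_pow_left₀ hW0pos.le hWW _
              _ ≤ W ^ (β + n) := pow_le_pow_of_le_one hWpos.le hW1 (by omega)
        _ = _ := by
            rw [mul_pow, pow_add]
            ring
    have h9 : V ^ (β + n) * (SG + ∑ H ∈ FamG Δ B a b k, ∑ x ∈ prs (GG B H),
        (if x.2 - x.1 ∈ Δ then 0 else Fp Q K w y (x.2 - x.1) - 1)) ≤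
        V ^ (β + n) * (W ^ β * E + η * (W ^ β * (T * W) ^ n)) := by
      apply mul_le_mul_of_nonneg_left _ hVk
      have : 0 ≤ η * (W ^ β * (T * W) ^ n) := by positivity
      linarith
    linarith

end Pool.Agent.U832.RG
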