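import Pool.Agent.U832.RG.ExPair

/-!
# Exceptional pairs are rare, seen from a sifted integer or from an arbitrary integer
-/

set_option autoImplicit false

namespace Pool.Agent.U832.RG

open Finset Filter
open Pool.Agent.W123.RP Pool.Agent.H373R2.T7 Pool.Agent.W123.RU Pool.Agent.TH464.PO

open Classical in
/-- the indicator of an exceptional pair is at most the number of the pairs -/
lemma ex_le (Q : ℕ → ℕ → Prop) (y T n : ℕ) (Δ : Finset ℕ) :
    (if EX Q y Δ T n then (1 : ℝ) else 0) ≤ ∑ t ∈ Δ.filter (fun t => 1 ≤ t),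
      (((range (T + 1)).filter (fun h => Sf Q y (n + h) ∧ Sf Q y (n + h + t))).card : ℝ) := by
  by_cases h : EX Q y Δ T n
  · rw [if_pos h]
    obtain ⟨x, t, h1, h2, h3, h4, h5⟩ := h
    have g1 : (1 : ℝ) ≤ (((range (T + 1)).filter (fun h => Sf Q y (n + h) ∧ Sf Q y (n + h + t))).card : ℝ) := by
      have : 1 ≤ ((range (T + 1)).filter (fun h => Sf Q y (n + h) ∧ Sf Q y (n + h + t))).card := by
        rw [Nat.one_le_iff_ne_zero, Finset.card_ne_zero]
        exact ⟨x, mem_filter.2 ⟨mem_range.2 (by omega), h4, h5⟩⟩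
      exact_mod_cast this
    refine g1.trans ?_
    exact Finset.single_le_sum (f := fun t =>
      (((range (T + 1)).filter (fun h => Sf Q y (n + h) ∧ Sf Q y (n + h + t))).card : ℝ))
      (fun _ _ => Nat.cast_nonneg _) (mem_filter.2 ⟨h1, h2⟩)
  · rw [if_neg h]
    exact Finset.sum_nonneg fun _ _ => Nat.cast_nonneg _

open Classical in
/-- **Exceptional pairs are rare.** -/
theorem exc_small (c e : ℕ) (hc : 1 ≤ c) (X0 δ : ℝ) (hX0 : 1 ≤ X0) (hδ : 0 < δ) :
    ∃ (K0 y0 T0 : ℕ) (η' κ' : ℝ), 0 < η' ∧ 0 < κ' ∧ ∀ Y y T : ℕ, y0 ≤ y → y ^ K0 ≤ Y → T0 ≤ T →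
      ∀ Q : ℕ → ℕ → Prop, PerB Q c → (∀ p : ℕ, p.Prime → nuB Q p < p) → ∀ Δ : Finset ℕ, Δ.card ≤ e →
      (∀ t ∈ Icc 1 (2 * T), t ∉ Δ →
        ((((pz y).filter (fun p : ℕ => 2 * T < p ∧ CoG Q p t)).card : ℕ) : ℝ) ≤ η' * (2 * T : ℕ)) →
      (∀ t ∈ Δ, 1 ≤ t → ∀ s, Vq (QH Q {s, s + t}) y ≤ κ' * Vq Q y) →
      ((2 * T : ℕ) : ℝ) * Vq Q y ≤ X0 → ((2 * T : ℕ) : ℝ) ^ 3 * √(Y : ℝ) ≤ Y * Vq Q y →
      ∀ (B : Finset ℕ) (s : ℕ), B ⊆ {s} → s ≤ T →
        ∑ n ∈ Icc 1 Y, uB Q y B n * (if EX Q y Δ T n then (1 : ℝ) else 0) ≤ δ * (Y * Vq Q y ^ B.card) := by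
  obtain ⟨C, K1, y1, T1, η1, hC1, hη1, hmom⟩ := mom_bd c e 2 hc X0 hX0
  obtain ⟨K2, y2, hpair⟩ := pair_cnt c hc
  obtain ⟨d, hd⟩ : ∃ d : ℝ, d = δ / (2 * (e + 1)) := ⟨_, rfl⟩
  have he0 : (0 : ℝ) ≤ e := Nat.cast_nonneg e
  have hd0 : 0 < d := by rw [hd]; positivity
  obtain ⟨T2, hT2⟩ : ∃ T2 : ℕ, max (C / d ^ 2) ((e + 1) / δ) ≤ T2 := exists_nat_ge _
  refine ⟨max K1 K2, max (max y1 y2) 1, max (max T1 T2) 1, η1, min (d ^ 2 / (4 * C)) (δ / (8 * (e + 1) * X0)),
    hη1, by positivity, ?_⟩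
  intro Y y T hy hyY hT Q hQ hadm Δ hΔ hlarge hexc hTV hTY B s hB hs
  have hy1 : y1 ≤ y := (le_max_left _ _).trans ((le_max_left _ _).trans hy)
  have hy2 : y2 ≤ y := (le_max_right _ _).trans ((le_max_left _ _).trans hy)
  have hy0 : 1 ≤ y := (le_max_right _ _).trans hy
  have hT1 : T1 ≤ T := (le_max_left _ _).trans ((le_max_left _ _).trans hT)
  have hT2' : T2 ≤ T := (le_max_right _ _).trans ((le_max_left _ _).trans hT)
  have hTone : 1 ≤ T := (le_max_right _ _).trans hT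
  have hK1 : y ^ K1 ≤ Y := (Nat.pow_le_pow_right hy0 (le_max_left _ _)).trans hyY
  have hK2 : y ^ K2 ≤ Y := (Nat.pow_le_pow_right hy0 (le_max_right _ _)).trans hyY
  have hYone : 1 ≤ Y := (Nat.one_le_pow _ _ hy0).trans hK1
  obtain ⟨V, hV⟩ : ∃ V, V = Vq Q y := ⟨_, rfl⟩
  have hV0 : 0 < V := by rw [hV]; exact Vq_pos Q hadm y
  have hV1 : V ≤ 1 := by rw [hV]; exact Vq_le_one Q y
  have hYr : (1 : ℝ) ≤ Y := by exact_mod_cast hYone
  have hTr : (1 : ℝ) ≤ T := by exact_mod_cast hTone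
  have hsq : (1 : ℝ) ≤ √(Y : ℝ) := by
    rw [Real.one_le_sqrt]
    exact hYr
  rw [← hV] at hTV hTY
  push_cast at hTV hTY
  have hYV : 0 < (Y : ℝ) * V := by positivity
  -- the small errors
  have hTC : C / d ^ 2 ≤ T := (le_max_left _ _).trans (hT2.trans (by exact_mod_cast hT2'))
  have hTe : (e + 1) / δ ≤ T := (le_max_right _ _).trans (hT2.trans (by exact_mod_cast hT2'))
  rw [div_le_iff₀ (by positivity)] at hTC hTe
  have hs1 : 2 * (T : ℝ) * √(Y : ℝ) ≤ Y * V := by
    calc 2 * (T : ℝ) * √(Y : ℝ) ≤ (2 * (T : ℝ)) ^ 3 * √(Y : ℝ) := by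
          apply mul_le_mul_of_nonneg_right _ (Real.sqrt_nonneg _)
          calc 2 * (T : ℝ) = (2 * (T : ℝ)) ^ 1 := (pow_one _).symm
            _ ≤ _ := pow_le_pow_right₀ (by linarith) (by norm_num)
      _ ≤ _ := hTY
  have hs2 : (2 * (T : ℝ)) * ((2 * (T : ℝ)) ^ 2 * √(Y : ℝ)) ≤ Y * V := by
    calc _ = (2 * (T : ℝ)) ^ 3 * √(Y : ℝ) := by ring
      _ ≤ _ := hTY
  have hs3 : (2 * (T : ℝ)) ^ 2 * √(Y : ℝ) ≤ Y * V := by
    refine le_trans ?_ hs2
    apply le_mul_of_one_le_left (by positivity)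
    linarith
  have hcut : ∀ t ∈ Δ.filter (fun t => 1 ≤ t), t ∈ Δ ∧ 1 ≤ t := fun t ht => mem_filter.1 ht
  have hcardΔ : (((Δ.filter (fun t => 1 ≤ t)).card : ℕ) : ℝ) ≤ e := by
    have : (Δ.filter (fun t => 1 ≤ t)).card ≤ Δ.card := card_filter_le _ _
    exact_mod_cast this.trans hΔ
  have hu0 : ∀ n, 0 ≤ uB Q y B n := fun n => by unfold uB; split_ifs <;> norm_num
  have hstart : ∑ n ∈ Icc 1 Y, uB Q y B n * (if EX Q y Δ T n then (1 : ℝ) else 0) ≤
      ∑ t ∈ Δ.filter (fun t => 1 ≤ t), ∑ n ∈ Icc 1 Y, uB Q y B n *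
        (((range (T + 1)).filter (fun h => Sf Q y (n + h) ∧ Sf Q y (n + h + t))).card : ℝ) := by
    rw [Finset.sum_comm]
    apply Finset.sum_le_sum
    intro n _
    rw [← Finset.mul_sum]
    exact mul_le_mul_of_nonneg_left (ex_le Q y T n Δ) (hu0 n)
  refine hstart.trans ?_
  rcases Finset.subset_singleton_iff.1 hB with hB0 | hB1
  · -- no base
    rw [hB0, card_empty, pow_zero, mul_one]
    have hone : ∀ t ∈ Δ.filter (fun t => 1 ≤ t), ∑ n ∈ Icc 1 Y, uB Q y ∅ n *
        (((range (T + 1)).filter (fun h => Sf Q y (n + h) ∧ Sf Q y (n + h + t))).card : ℝ) ≤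
        δ / (e + 1) * Y := by
      intro t ht
      have e1 : ∑ n ∈ Icc 1 Y, uB Q y ∅ n *
          (((range (T + 1)).filter (fun h => Sf Q y (n + h) ∧ Sf Q y (n + h + t))).card : ℝ) =
          ∑ h ∈ range (T + 1), (((Icc 1 Y).filter (fun n => Sf Q y (n + h) ∧ Sf Q y (n + h + t))).card : ℝ) := by
        have e2 : ∀ n, uB Q y ∅ n = 1 := by
          intro n
          unfold uB
          rw [if_pos]
          simp
        simp only [e2, one_mul, Finset.card_filter]
        push_cast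
        exact Finset.sum_comm
      rw [e1]
      have h2 : ∀ h ∈ range (T + 1),
          (((Icc 1 Y).filter (fun n => Sf Q y (n + h) ∧ Sf Q y (n + h + t))).card : ℝ) ≤
          2 * (Y * (δ / (8 * (e + 1) * X0) * V)) + √(Y : ℝ) := by
        intro h _
        refine (hpair Y y hy2 hK2 Q hQ h t).trans ?_
        have h3 := hexc t (hcut t ht).1 (hcut t ht).2 h
        rw [← hV] at h3
        have h4 : min (d ^ 2 / (4 * C)) (δ / (8 * (e + 1) * X0)) * V ≤ δ / (8 * (e + 1) * X0) * V :=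
          mul_le_mul_of_nonneg_right (min_le_right _ _) hV0.le
        have h5 := mul_le_mul_of_nonneg_left (h3.trans h4) (Nat.cast_nonneg (α := ℝ) Y)
        linarith
      refine (Finset.sum_le_card_nsmul _ _ _ h2).trans ?_
      rw [card_range, nsmul_eq_mul]
      push_cast
      have h6 : (T : ℝ) + 1 ≤ 2 * T := by linarith
      have h7 : 0 ≤ 2 * ((Y : ℝ) * (δ / (8 * (e + 1) * X0) * V)) + √(Y : ℝ) := by positivity
      have h8 : (2 * (T : ℝ)) * √(Y : ℝ) ≤ δ / (2 * (e + 1)) * Y := by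
        have h9 : (2 * (T : ℝ)) * ((2 * (T : ℝ)) * √(Y : ℝ)) ≤ Y * V := by
          calc _ = (2 * (T : ℝ)) ^ 2 * √(Y : ℝ) := by ring
            _ ≤ _ := hs3
        have h10 : (2 * (T : ℝ)) * ((2 * (T : ℝ)) * √(Y : ℝ)) ≤ (2 * (T : ℝ)) * (δ / (2 * (e + 1)) * Y) := by
          refine h9.trans ?_
          have h11 : (1 : ℝ) ≤ (2 * (T : ℝ)) * (δ / (2 * (e + 1))) := by
            rw [mul_div_assoc', le_div_iff₀ (by positivity)]
            linarith
          calc (Y : ℝ) * V ≤ Y * 1 := mul_le_mul_of_nonneg_left hV1 (by linarith)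
            _ ≤ Y * ((2 * (T : ℝ)) * (δ / (2 * (e + 1)))) := mul_le_mul_of_nonneg_left h11 (by linarith)
            _ = _ := by ring
        exact le_of_mul_le_mul_left h10 (by linarith)
      have h12 : (2 * (T : ℝ)) * (2 * (Y * (δ / (8 * (e + 1) * X0) * V))) ≤ δ / (4 * (e + 1)) * Y := by
        calc (2 * (T : ℝ)) * (2 * (Y * (δ / (8 * (e + 1) * X0) * V))) =
              (2 * (T : ℝ) * V) * (δ / (4 * (e + 1) * X0) * Y) := by
                field_simp
                ring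
          _ ≤ X0 * (δ / (4 * (e + 1) * X0) * Y) := mul_le_mul_of_nonneg_right hTV (by positivity)
          _ = _ := by field_simp
      calc ((T : ℝ) + 1) * (2 * (Y * (δ / (8 * (e + 1) * X0) * V)) + √(Y : ℝ)) ≤
            (2 * T) * (2 * (Y * (δ / (8 * (e + 1) * X0) * V)) + √(Y : ℝ)) :=
            mul_le_mul_of_nonneg_right h6 h7
        _ = (2 * (T : ℝ)) * (2 * (Y * (δ / (8 * (e + 1) * X0) * V))) + (2 * (T : ℝ)) * √(Y : ℝ) := by ring
        _ ≤ δ / (4 * (e + 1)) * Y + δ / (2 * (e + 1)) * Y := add_le_add h12 h8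
        _ = (3 / 4) * (δ / (e + 1) * Y) := by
            field_simp
            ring
        _ ≤ _ := by
            have : 0 ≤ δ / (e + 1) * (Y : ℝ) := by positivity
            linarith
    refine (Finset.sum_le_card_nsmul _ _ _ hone).trans ?_
    rw [nsmul_eq_mul]
    calc _ ≤ (e : ℝ) * (δ / (e + 1) * Y) := mul_le_mul_of_nonneg_right hcardΔ (by positivity)
      _ ≤ (e + 1) * (δ / (e + 1) * Y) := by
          apply mul_le_mul_of_nonneg_right _ (by positivity)
          linarith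
      _ = δ * Y := by field_simp
  · -- one base point
    rw [hB1, card_singleton, pow_one, ← hV]
    have hone : ∀ t ∈ Δ.filter (fun t => 1 ≤ t), ∑ n ∈ Icc 1 Y, uB Q y {s} n *
        (((range (T + 1)).filter (fun h => Sf Q y (n + h) ∧ Sf Q y (n + h + t))).card : ℝ) ≤
        δ / (e + 1) * (Y * V) := by
      intro t ht
      refine (swap_roles Q y T Y s t hs).trans ?_
      obtain ⟨f, hf⟩ : ∃ f : ℕ → ℝ, f = fun n => if Sf Q y (n + T) ∧ Sf Q y (n + T + t) then (1 : ℝ) else 0 :=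
        ⟨_, rfl⟩
      obtain ⟨g, hg⟩ : ∃ g : ℕ → ℝ, g = fun n => (if Sf Q y (n + T) then (1 : ℝ) else 0) * (Nall Q y (2 * T) n : ℝ) :=
        ⟨_, rfl⟩
      have hfg : ∑ n ∈ Icc 1 Y, (if Sf Q y (n + T) ∧ Sf Q y (n + T + t) then (1 : ℝ) else 0) *
          (Nall Q y (2 * T) n : ℝ) = ∑ n ∈ Icc 1 Y, f n * g n := by
        apply Finset.sum_congr rfl
        intro n _
        rw [hf, hg]
        dsimp only
        by_cases h : Sf Q y (n + T)
        · rw [if_pos h]
          ring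
        · rw [if_neg h, if_neg (fun h1 => h h1.1)]
          ring
      rw [hfg]
      have hCS := Finset.sum_mul_sq_le_sq_mul_sq (Icc 1 Y) f g
      have hf2 : ∑ n ∈ Icc 1 Y, f n ^ 2 ≤ 2 * (Y * (d ^ 2 / (4 * C) * V)) + √(Y : ℝ) := by
        have h1 : ∑ n ∈ Icc 1 Y, f n ^ 2 =
            (((Icc 1 Y).filter (fun n => Sf Q y (n + T) ∧ Sf Q y (n + T + t))).card : ℝ) := by
          rw [Finset.card_filter]
          push_cast
          apply Finset.sum_congr rfl
          intro n _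
          rw [hf]
          dsimp only
          split_ifs <;> norm_num
        rw [h1]
        refine (hpair Y y hy2 hK2 Q hQ T t).trans ?_
        have h3 := hexc t (hcut t ht).1 (hcut t ht).2 T
        rw [← hV] at h3
        have h4 : min (d ^ 2 / (4 * C)) (δ / (8 * (e + 1) * X0)) * V ≤ d ^ 2 / (4 * C) * V :=
          mul_le_mul_of_nonneg_right (min_le_left _ _) hV0.le
        have h5 := mul_le_mul_of_nonneg_left (h3.trans h4) (Nat.cast_nonneg (α := ℝ) Y)
        linarith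
      have hg2 : ∑ n ∈ Icc 1 Y, g n ^ 2 ≤ C * (Y * V) := by
        have h1 := hmom Y y (2 * T) hy1 hK1 (by omega) Q hQ hadm Δ hΔ hlarge (by rw [← hV]; push_cast; exact hTV)
          (by rw [← hV]; push_cast; exact hs3) {T} T subset_rfl (by omega)
        rw [card_singleton, pow_one, ← hV] at h1
        refine le_trans (le_of_eq ?_) h1
        apply Finset.sum_congr rfl
        intro n _
        rw [hg]
        unfold uB
        dsimp only
        by_cases h : Sf Q y (n + T)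
        · rw [if_pos h, if_pos (by simpa using h)]
          ring
        · rw [if_neg h, if_neg (by simpa using h)]
          ring
      have hC0 : 0 < C := by linarith
      have h6 : (∑ n ∈ Icc 1 Y, f n * g n) ^ 2 ≤ (d * (Y * V)) ^ 2 := by
        refine hCS.trans ?_
        have h7 : 2 * (Y * (d ^ 2 / (4 * C) * V)) + √(Y : ℝ) ≤ d ^ 2 / C * (Y * V) := by
          have h8 : √(Y : ℝ) ≤ d ^ 2 / (2 * C) * (Y * V) := by
            have h9 : (2 * (T : ℝ)) * √(Y : ℝ) ≤ (2 * (T : ℝ)) * (d ^ 2 / (2 * C) * (Y * V)) := by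
              refine hs1.trans ?_
              have h10 : (1 : ℝ) ≤ (2 * (T : ℝ)) * (d ^ 2 / (2 * C)) := by
                rw [mul_div_assoc', le_div_iff₀ (by positivity)]
                linarith
              calc (Y : ℝ) * V = 1 * (Y * V) := (one_mul _).symm
                _ ≤ ((2 * (T : ℝ)) * (d ^ 2 / (2 * C))) * (Y * V) := mul_le_mul_of_nonneg_right h10 hYV.le
                _ = _ := by ring
            exact le_of_mul_le_mul_left h9 (by linarith)
          calc 2 * (Y * (d ^ 2 / (4 * C) * V)) + √(Y : ℝ) ≤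
                2 * (Y * (d ^ 2 / (4 * C) * V)) + d ^ 2 / (2 * C) * (Y * V) := by linarith
            _ = _ := by
                field_simp
                ring
        calc (∑ n ∈ Icc 1 Y, f n ^ 2) * (∑ n ∈ Icc 1 Y, g n ^ 2) ≤
              (d ^ 2 / C * (Y * V)) * (C * (Y * V)) :=
              mul_le_mul (hf2.trans h7) hg2 (Finset.sum_nonneg fun n _ => sq_nonneg _) (by positivity)
          _ = _ := by
              field_simp
      have h11 : ∑ n ∈ Icc 1 Y, f n * g n ≤ d * (Y * V) := by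
        have h12 : 0 ≤ d * (Y * V) := by positivity
        exact le_of_sq_le_sq h6 h12
      have h13 : (T : ℝ) * (T + 1) ≤ d * (Y * V) := by
        have h14 : (T : ℝ) * (T + 1) ≤ (2 * (T : ℝ)) ^ 2 * √(Y : ℝ) := by
          calc (T : ℝ) * (T + 1) ≤ (2 * (T : ℝ)) ^ 2 * 1 := by nlinarith
            _ ≤ _ := mul_le_mul_of_nonneg_left hsq (by positivity)
        refine h14.trans ?_
        have h15 : (2 * (T : ℝ)) * ((2 * (T : ℝ)) ^ 2 * √(Y : ℝ)) ≤ (2 * (T : ℝ)) * (d * (Y * V)) := by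
          refine hs2.trans ?_
          have h16 : (1 : ℝ) ≤ (2 * (T : ℝ)) * d := by
            rw [hd, mul_div_assoc', le_div_iff₀ (by positivity)]
            linarith
          calc (Y : ℝ) * V = 1 * (Y * V) := (one_mul _).symm
            _ ≤ ((2 * (T : ℝ)) * d) * (Y * V) := mul_le_mul_of_nonneg_right h16 hYV.le
            _ = _ := by ring
        exact le_of_mul_le_mul_left h15 (by linarith)
      calc (T : ℝ) * (T + 1) + ∑ n ∈ Icc 1 Y, f n * g n ≤ d * (Y * V) + d * (Y * V) := add_le_add h13 h11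
        _ = δ / (e + 1) * (Y * V) := by
            rw [hd]
            field_simp
            ring
    refine (Finset.sum_le_card_nsmul _ _ _ hone).trans ?_
    rw [nsmul_eq_mul]
    calc _ ≤ (e : ℝ) * (δ / (e + 1) * (Y * V)) := mul_le_mul_of_nonneg_right hcardΔ (by positivity)
      _ ≤ (e + 1) * (δ / (e + 1) * (Y * V)) := by
          apply mul_le_mul_of_nonneg_right _ (by positivity)
          linarith
      _ = δ * (Y * V) := by field_simp

end Pool.Agent.U832.RG
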