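import Pool.Agent.TH464.PO.Sing2
import Pool.Agent.TH464.PO.Gen

/-!
# Families of sets of shifts: one base point and several windows
-/

set_option autoImplicit false

namespace Pool.Agent.U832.RG

open Finset Filter
open Pool.Agent.W123.RP Pool.Agent.H373R2.T7 Pool.Agent.W123.RU Pool.Agent.TH464.PO

variable {J : ℕ}

/-- a base (at most one point) and disjoint windows -/
structure Win (T : ℕ) (B : Finset ℕ) (a b : Fin J → ℕ) : Prop where
  card : B.card ≤ 1
  base : ∀ s ∈ B, s ≤ T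
  bT : ∀ j, b j ≤ T
  dis : ∀ i j, i ≠ j → Disjoint (Ioc (a i) (b i)) (Ioc (a j) (b j))
  out : ∀ s ∈ B, ∀ j, s ∉ Ioc (a j) (b j)

/-- the shifts: `k j` of them in the window `j` -/
def Fam (a b k : Fin J → ℕ) : Finset (Fin J → Finset ℕ) :=
  Fintype.piFinset (fun j => powersetCard (k j) (Ioc (a j) (b j)))

/-- all shifts of the windows -/
def UU (H : Fin J → Finset ℕ) : Finset ℕ := univ.biUnion H

lemma mem_UU (H : Fin J → Finset ℕ) (h : ℕ) : h ∈ UU H ↔ ∃ j, h ∈ H j := by
  unfold UU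
  simp

lemma mem_Fam {a b k : Fin J → ℕ} {H : Fin J → Finset ℕ} :
    H ∈ Fam a b k ↔ ∀ j, H j ⊆ Ioc (a j) (b j) ∧ (H j).card = k j := by
  unfold Fam
  simp only [Fintype.mem_piFinset, mem_powersetCard]

lemma UU_card {T : ℕ} {B : Finset ℕ} {a b k : Fin J → ℕ} (w : Win T B a b) {H : Fin J → Finset ℕ}
    (hH : H ∈ Fam a b k) : (UU H).card = ∑ j, k j := by
  rw [mem_Fam] at hH
  unfold UU
  rw [card_biUnion]
  · exact Finset.sum_congr rfl fun j _ => (hH j).2
  · intro i _ j _ hij
    exact Disjoint.mono (hH i).1 (hH j).1 (w.dis i j hij)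

lemma UU_sub {T : ℕ} {B : Finset ℕ} {a b k : Fin J → ℕ} (w : Win T B a b) {H : Fin J → Finset ℕ}
    (hH : H ∈ Fam a b k) : UU H ⊆ Icc 1 T := by
  rw [mem_Fam] at hH
  intro h hh
  rw [mem_UU] at hh
  obtain ⟨j, hj⟩ := hh
  have h1 := (hH j).1 hj
  rw [mem_Ioc] at h1
  rw [mem_Icc]
  have := w.bT j
  omega

lemma UU_inj {T : ℕ} {B : Finset ℕ} {a b k : Fin J → ℕ} (w : Win T B a b) {H H' : Fin J → Finset ℕ}
    (hH : H ∈ Fam a b k) (hH' : H' ∈ Fam a b k) (h : UU H = UU H') : H = H' := by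
  have key : ∀ H : Fin J → Finset ℕ, H ∈ Fam a b k → ∀ j, H j = (UU H).filter (· ∈ Ioc (a j) (b j)) := by
    intro H hH j
    rw [mem_Fam] at hH
    ext x
    rw [mem_filter, mem_UU]
    constructor
    · exact fun hx => ⟨⟨j, hx⟩, (hH j).1 hx⟩
    · rintro ⟨⟨i, hi⟩, hx⟩
      by_cases hij : i = j
      · exact hij ▸ hi
      · exact absurd hx (Finset.disjoint_left.1 (w.dis i j hij) ((hH i).1 hi))
  funext j
  rw [key H hH j, key H' hH' j, h]

/-- the union with the base -/
def GG (B : Finset ℕ) (H : Fin J → Finset ℕ) : Finset ℕ := B ∪ UU H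

lemma GG_card {T : ℕ} {B : Finset ℕ} {a b k : Fin J → ℕ} (w : Win T B a b) {H : Fin J → Finset ℕ}
    (hH : H ∈ Fam a b k) : (GG B H).card = B.card + ∑ j, k j := by
  unfold GG
  rw [card_union_of_disjoint, UU_card w hH]
  rw [Finset.disjoint_left]
  intro s hs hs'
  rw [mem_UU] at hs'
  obtain ⟨j, hj⟩ := hs'
  exact w.out s hs j ((mem_Fam.1 hH j).1 hj)

lemma sum_fam_le {T : ℕ} {B : Finset ℕ} {a b k : Fin J → ℕ} (w : Win T B a b) (f : Finset ℕ → ℝ)
    (hf : ∀ G, 0 ≤ f G) :
    ∑ H ∈ Fam a b k, f (UU H) ≤ ∑ G ∈ powersetCard (∑ j, k j) (Icc 1 T), f G := by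
  rw [← Finset.sum_image (f := f) (s := Fam a b k) (g := UU)
    (fun H hH H' hH' h => UU_inj w hH hH' h)]
  apply Finset.sum_le_sum_of_subset_of_nonneg
  · intro G hG
    rw [mem_image] at hG
    obtain ⟨H, hH, rfl⟩ := hG
    rw [mem_powersetCard]
    exact ⟨UU_sub w hH, UU_card w hH⟩
  · intro G _ _
    exact hf G

lemma fam_card_le {T : ℕ} {B : Finset ℕ} {a b k : Fin J → ℕ} (w : Win T B a b) :
    ((Fam a b k).card : ℝ) ≤ (T : ℝ) ^ (∑ j, k j) := by
  have h := sum_fam_le (k := k) w (fun _ => 1) (fun _ => zero_le_one)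
  rw [Finset.sum_const, Finset.sum_const, nsmul_eq_mul, nsmul_eq_mul, mul_one, mul_one, card_powersetCard,
    Nat.card_Icc, Nat.add_sub_cancel] at h
  refine h.trans ?_
  exact_mod_cast Nat.choose_le_pow T _

open Classical in
lemma card_one (k T u : ℕ) :
    ((powersetCard (k + 1) (Icc 1 T)).filter (fun H => u ∈ H)).card ≤ T ^ k := by
  have h1 : ((powersetCard (k + 1) (Icc 1 T)).filter (fun H => u ∈ H)).card ≤
      (powersetCard k (Icc 1 T)).card := by
    apply Finset.card_le_card_of_injOn (fun H => H.erase u)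
    · intro H hH
      rw [Finset.mem_coe, mem_filter, mem_powersetCard] at hH
      obtain ⟨⟨h1, h2⟩, h3⟩ := hH
      rw [Finset.mem_coe, mem_powersetCard]
      refine ⟨(erase_subset _ _).trans h1, ?_⟩
      beta_reduce
      rw [card_erase_of_mem h3, h2]
      omega
    · intro H hH H' hH' h
      rw [Finset.mem_coe, mem_filter] at hH hH'
      simp only at h
      rw [← insert_erase hH.2, ← insert_erase hH'.2, h]
  refine h1.trans ?_
  rw [card_powersetCard, Nat.card_Icc, Nat.add_sub_cancel]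
  exact Nat.choose_le_pow T k

/-- the distances from the base point -/
lemma sum_dist (T s : ℕ) (hs : s ≤ T) (g : ℕ → ℝ) (hg : ∀ t, 0 ≤ g t) :
    ∑ u ∈ (Icc 1 T).filter (fun u => u ≠ s), g (max u s - min u s) ≤ 2 * ∑ t ∈ Icc 1 T, g t := by
  rw [← Finset.sum_filter_add_sum_filter_not _ (fun u => u < s), two_mul]
  apply add_le_add
  · rw [← Finset.sum_image (f := g) (g := fun u => max u s - min u s)]
    · apply Finset.sum_le_sum_of_subset_of_nonneg
      · intro t ht
        rw [mem_image] at ht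
        obtain ⟨u, hu, rfl⟩ := ht
        rw [mem_filter, mem_filter, mem_Icc] at hu
        rw [mem_Icc]
        omega
      · intros
        exact hg _
    · intro u hu v hv h
      rw [mem_coe, mem_filter, mem_filter, mem_Icc] at hu hv
      simp only at h
      omega
  · rw [← Finset.sum_image (f := g) (g := fun u => max u s - min u s)]
    · apply Finset.sum_le_sum_of_subset_of_nonneg
      · intro t ht
        rw [mem_image] at ht
        obtain ⟨u, hu, rfl⟩ := ht
        rw [mem_filter, mem_filter, mem_Icc] at hu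
        rw [mem_Icc]
        omega
      · intros
        exact hg _
    · intro u hu v hv h
      rw [mem_coe, mem_filter, mem_filter, mem_Icc] at hu hv
      simp only at h
      omega

open Classical in
/-- pairs with the base point -/
lemma sum_base (k T s : ℕ) (hs : s ≤ T) (g : ℕ → ℝ) (hg : ∀ t, 0 ≤ g t) :
    ∑ G ∈ powersetCard (k + 1) (Icc 1 T), ∑ u ∈ G.filter (fun u => u ≠ s), g (max u s - min u s) ≤
      (T : ℝ) ^ k * (2 * ∑ t ∈ Icc 1 T, g t) := by
  have h1 : ∀ G ∈ powersetCard (k + 1) (Icc 1 T),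
      ∑ u ∈ G.filter (fun u => u ≠ s), g (max u s - min u s) =
      ∑ u ∈ (Icc 1 T).filter (fun u => u ≠ s), if u ∈ G then g (max u s - min u s) else 0 := by
    intro G hG
    rw [mem_powersetCard] at hG
    rw [← Finset.sum_filter]
    apply Finset.sum_congr _ (fun _ _ => rfl)
    ext u
    rw [mem_filter, mem_filter, mem_filter]
    constructor
    · rintro ⟨h1, h2⟩
      exact ⟨⟨hG.1 h1, h2⟩, h1⟩
    · rintro ⟨⟨_, h2⟩, h1⟩
      exact ⟨h1, h2⟩
  rw [Finset.sum_congr rfl h1, Finset.sum_comm]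
  have h2 : ∀ u ∈ (Icc 1 T).filter (fun u => u ≠ s), ∑ G ∈ powersetCard (k + 1) (Icc 1 T),
      (if u ∈ G then g (max u s - min u s) else 0) ≤ (T : ℝ) ^ k * g (max u s - min u s) := by
    intro u _
    rw [← Finset.sum_filter, Finset.sum_const, nsmul_eq_mul]
    apply mul_le_mul_of_nonneg_right _ (hg _)
    exact_mod_cast card_one k T u
  refine (Finset.sum_le_sum h2).trans ?_
  rw [← Finset.mul_sum]
  exact mul_le_mul_of_nonneg_left (sum_dist T s hs g hg) (by positivity)

/-- the pairs of the union with one point -/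
lemma prs_insert (G : Finset ℕ) (s : ℕ) (g : ℕ → ℝ) (hg : ∀ t, 0 ≤ g t) :
    ∑ x ∈ prs ({s} ∪ G), g (x.2 - x.1) ≤
      ∑ x ∈ prs G, g (x.2 - x.1) + ∑ u ∈ G.filter (fun u => u ≠ s), g (max u s - min u s) := by
  have h1 : prs ({s} ∪ G) ⊆ prs G ∪ (G.filter (fun u => u ≠ s)).image (fun u => (min u s, max u s)) := by
    intro x hx
    unfold prs at hx ⊢
    rw [mem_filter, mem_product, mem_union, mem_union, mem_singleton, mem_singleton] at hx
    rw [mem_union, mem_filter, mem_product, mem_image]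
    obtain ⟨⟨h1, h2⟩, h3⟩ := hx
    rcases h1 with h1 | h1
    · rcases h2 with h2 | h2
      · omega
      · right
        refine ⟨x.2, mem_filter.2 ⟨h2, by omega⟩, ?_⟩
        ext
        · simp only
          omega
        · simp only
          omega
    · rcases h2 with h2 | h2
      · right
        refine ⟨x.1, mem_filter.2 ⟨h1, by omega⟩, ?_⟩
        ext
        · simp only
          omega
        · simp only
          omega
      · left
        exact ⟨⟨h1, h2⟩, h3⟩
  have h2 : ∑ u ∈ G.filter (fun u => u ≠ s), g (max u s - min u s) =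
      ∑ x ∈ (G.filter (fun u => u ≠ s)).image (fun u => (min u s, max u s)), g (x.2 - x.1) := by
    rw [Finset.sum_image]
    intro u hu v hv h
    simp only [Prod.mk.injEq] at h
    omega
  rw [h2]
  refine (Finset.sum_le_sum_of_subset_of_nonneg h1 (fun x _ _ => hg _)).trans ?_
  rw [← Finset.sum_union_inter]
  have : 0 ≤ ∑ x ∈ prs G ∩ (G.filter (fun u => u ≠ s)).image (fun u => (min u s, max u s)), g (x.2 - x.1) :=
    Finset.sum_nonneg fun x _ => hg _
  linarith

/-- **Double counting of the pairs.** -/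
lemma sum_pairs {T : ℕ} {B : Finset ℕ} {a b k : Fin J → ℕ} (w : Win T B a b) (g : ℕ → ℝ)
    (hg : ∀ t, 0 ≤ g t) :
    (T : ℝ) * ∑ H ∈ Fam a b k, ∑ x ∈ prs (GG B H), g (x.2 - x.1) ≤
      3 * (T : ℝ) ^ (∑ j, k j) * ∑ t ∈ Icc 1 T, g t := by
  classical
  have hS : 0 ≤ ∑ t ∈ Icc 1 T, g t := Finset.sum_nonneg fun t _ => hg t
  have hT0 : (0 : ℝ) ≤ T := Nat.cast_nonneg T
  obtain ⟨K, hK⟩ : ∃ K, K = ∑ j, k j := ⟨_, rfl⟩
  rcases K with _ | K
  · have h0 : ∀ H ∈ Fam a b k, ∑ x ∈ prs (GG B H), g (x.2 - x.1) = 0 := by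
      intro H hH
      apply Finset.sum_eq_zero
      intro x hx
      exfalso
      have h1 := GG_card w hH
      rw [← hK, add_zero] at h1
      have h2 : (GG B H).card ≤ 1 := h1 ▸ w.card
      unfold prs at hx
      rw [mem_filter, mem_product] at hx
      have := Finset.card_le_one.1 h2 _ hx.1.1 _ hx.1.2
      omega
    rw [Finset.sum_eq_zero h0, mul_zero]
    positivity
  · rw [← hK]
    have h1 : ∀ f : Finset ℕ → ℝ, (∀ G, 0 ≤ f G) →
        ∑ H ∈ Fam a b k, f (UU H) ≤ ∑ G ∈ powersetCard (K + 1) (Icc 1 T), f G := by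
      intro f hf
      have := sum_fam_le (k := k) w f hf
      rwa [← hK] at this
    have h2 : ∑ H ∈ Fam a b k, ∑ x ∈ prs (UU H), g (x.2 - x.1) ≤ (T : ℝ) ^ K * ∑ t ∈ Icc 1 T, g t :=
      (h1 (fun G => ∑ x ∈ prs G, g (x.2 - x.1)) (fun G => Finset.sum_nonneg fun x _ => hg _)).trans
        (sum_prs K T g hg)
    have h3 : ∑ H ∈ Fam a b k, ∑ x ∈ prs (GG B H), g (x.2 - x.1) ≤ 3 * (T : ℝ) ^ K * ∑ t ∈ Icc 1 T, g t := by
      rcases Finset.card_le_one_iff_subset_singleton.1 w.card with ⟨s, hs⟩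
      rcases Finset.subset_singleton_iff.1 hs with hB | hB
      · have e : ∀ H : Fin J → Finset ℕ, GG B H = UU H := by
          intro H
          unfold GG
          rw [hB, empty_union]
        simp only [e]
        refine h2.trans ?_
        have : 0 ≤ (T : ℝ) ^ K * ∑ t ∈ Icc 1 T, g t := by positivity
        linarith
      · have hsT : s ≤ T := w.base s (by rw [hB]; exact mem_singleton_self s)
        have h4 : ∑ H ∈ Fam a b k, ∑ u ∈ (UU H).filter (fun u => u ≠ s), g (max u s - min u s) ≤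
            (T : ℝ) ^ K * (2 * ∑ t ∈ Icc 1 T, g t) :=
          (h1 (fun G => ∑ u ∈ G.filter (fun u => u ≠ s), g (max u s - min u s))
            (fun G => Finset.sum_nonneg fun x _ => hg _)).trans (sum_base K T s hsT g hg)
        calc ∑ H ∈ Fam a b k, ∑ x ∈ prs (GG B H), g (x.2 - x.1) ≤
            ∑ H ∈ Fam a b k, (∑ x ∈ prs (UU H), g (x.2 - x.1) +
              ∑ u ∈ (UU H).filter (fun u => u ≠ s), g (max u s - min u s)) := by
              apply Finset.sum_le_sum
              intro H _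
              unfold GG
              rw [hB]
              exact prs_insert (UU H) s g hg
          _ ≤ (T : ℝ) ^ K * ∑ t ∈ Icc 1 T, g t + (T : ℝ) ^ K * (2 * ∑ t ∈ Icc 1 T, g t) := by
              rw [Finset.sum_add_distrib]
              exact add_le_add h2 h4
          _ = _ := by ring
    calc (T : ℝ) * ∑ H ∈ Fam a b k, ∑ x ∈ prs (GG B H), g (x.2 - x.1) ≤
        T * (3 * (T : ℝ) ^ K * ∑ t ∈ Icc 1 T, g t) := mul_le_mul_of_nonneg_left h3 hT0
      _ = _ := by ring

open Classical in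
/-- the count of the families contained in a set -/
lemma count_fam (B : Finset ℕ) (a b k : Fin J → ℕ) (P : ℕ → Prop) :
    ∑ H ∈ Fam a b k, (if ∀ h ∈ GG B H, P h then (1 : ℝ) else 0) =
      (if ∀ h ∈ B, P h then (1 : ℝ) else 0) *
        ∏ j, ((((Ioc (a j) (b j)).filter P).card.choose (k j) : ℕ) : ℝ) := by
  have h1 : ∀ j, ((((Ioc (a j) (b j)).filter P).card.choose (k j) : ℕ) : ℝ) =
      ∑ G ∈ powersetCard (k j) (Ioc (a j) (b j)), (if ∀ h ∈ G, P h then (1 : ℝ) else 0) := by
    intro j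
    rw [Finset.sum_ite, Finset.sum_const_zero, add_zero, Finset.sum_const, nsmul_eq_mul, mul_one,
      ← Finset.card_powersetCard]
    congr 2
    ext H
    rw [mem_filter, mem_powersetCard, mem_powersetCard]
    constructor
    · rintro ⟨a1, a2⟩
      exact ⟨⟨fun h hh => (mem_filter.1 (a1 hh)).1, a2⟩, fun h hh => (mem_filter.1 (a1 hh)).2⟩
    · rintro ⟨⟨a1, a2⟩, a3⟩
      exact ⟨fun h hh => mem_filter.2 ⟨a1 hh, a3 h hh⟩, a2⟩
  simp_rw [h1]
  rw [Finset.prod_univ_sum, Finset.mul_sum]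
  apply Finset.sum_congr rfl
  intro H _
  have h2 : ∏ j, (if ∀ h ∈ H j, P h then (1 : ℝ) else 0) = if ∀ j, ∀ h ∈ H j, P h then (1 : ℝ) else 0 := by
    by_cases h : ∀ j, ∀ h ∈ H j, P h
    · rw [if_pos h]
      exact Finset.prod_eq_one fun j _ => if_pos (h j)
    · rw [if_neg h]
      push Not at h
      obtain ⟨j, x, hx, hx'⟩ := h
      exact Finset.prod_eq_zero (mem_univ j) (if_neg (fun h => hx' (h x hx)))
  rw [h2]
  by_cases hB : ∀ h ∈ B, P h
  · rw [if_pos hB, one_mul]
    congr 1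
    apply propext
    constructor
    · intro h j x hx
      exact h x (mem_union.2 (Or.inr ((mem_UU H x).2 ⟨j, hx⟩)))
    · intro h x hx
      rcases mem_union.1 hx with hx | hx
      · exact hB x hx
      · obtain ⟨j, hj⟩ := (mem_UU H x).1 hx
        exact h j x hj
  · rw [if_neg hB, zero_mul, if_neg]
    exact fun h => hB (fun x hx => h x (mem_union.2 (Or.inl hx)))

end Pool.Agent.U832.RG
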