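import Pool.Agent.U832.RG.Use
import Pool.Agent.W123.RU.PolyV

/-!
# The law for fixed systems of polynomials
-/

set_option autoImplicit false

namespace Pool.Agent.U832.RG

open Polynomial Finset Filter
open Pool.Agent.W123.RP Pool.Agent.H373R2.T7 Pool.Agent.W123.RU Pool.Agent.W123.RU.Poly
open Pool.Agent.TH464.PW Pool.Agent.TH464.PO Pool.Agent.Y879.GL

variable {m : ℕ}

/-- no two polynomials of the system are translates of each other -/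
def NoShift (f : Fin m → ℤ[X]) : Prop :=
  ∀ i j, ∀ t : ℕ, 1 ≤ t → ¬ Associated (f i) ((f j).comp (X + C (t : ℤ)))

lemma fixed_us (f : Fin m → ℤ[X]) (hf : Sys f) (hT : NoShift f) : ∃ D : ℕ, ∀ᶠ X : ℕ in atTop,
    ∀ U : ℝ, US m D ((X : ℝ) ^ (1 : ℝ)) U f := by
  obtain ⟨H, hH⟩ : ∃ H : ℕ, ∀ i n, ((f i).coeff n).natAbs ≤ H := by
    refine ⟨∑ i, ∑ n ∈ (f i).support, ((f i).coeff n).natAbs, fun i n => ?_⟩
    by_cases hn : n ∈ (f i).support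
    · exact (Finset.single_le_sum (f := fun n => ((f i).coeff n).natAbs) (fun _ _ => Nat.zero_le _) hn).trans
        (Finset.single_le_sum (f := fun i => ∑ n ∈ (f i).support, ((f i).coeff n).natAbs)
          (fun _ _ => Nat.zero_le _) (mem_univ i))
    · rw [mem_support_iff, not_not] at hn
      rw [hn]
      simp
  refine ⟨∑ i, (f i).natDegree, ?_⟩
  filter_upwards [eventually_ge_atTop H] with X hX U
  exact
    { irr := hf.irr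
      deg := fun i => (hf.deg i).ne'
      degD := fun i => Finset.single_le_sum (f := fun i => (f i).natDegree) (fun _ _ => Nat.zero_le _) (mem_univ i)
      hgt := fun i n => by
        rw [Real.rpow_one]
        have h1 := (hH i n).trans hX
        rw [← Int.cast_abs, Int.abs_eq_natAbs]
        exact_mod_cast h1
      adm := hf.adm
      tr := fun i j t ht _ => hT i j t ht }

lemma fixed_V (f : Fin m → ℤ[X]) (hf : Sys f) (hm : 1 ≤ m) (r : ℕ) (hr : 2 ≤ r) : ∃ Cv : ℝ, 0 < Cv ∧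
    ∀ᶠ X : ℕ in atTop, Vq (Q f) ⌊(X : ℝ) ^ (1 / (r : ℝ))⌋₊ ≤ Cv / Real.log X := by
  have : Nonempty (Fin m) := ⟨⟨0, hm⟩⟩
  obtain ⟨Cv, hCv, h⟩ := V_from_sys f hf r hr
  refine ⟨Cv, hCv, ?_⟩
  filter_upwards [h] with X hX
  exact (hX (Q f) (fun _ _ _ h => h)).2

/-- **The law for fixed systems.** -/
theorem law_fixed (f : Fin m → ℤ[X]) (hf : Sys f) (hm : 1 ≤ m) (hT : NoShift f) (θ : ℝ) (hθ : 0 < θ) (J L : ℕ)
    (x0 ε : ℝ) (hε : 0 < ε) :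
    ∃ r0 : ℕ, ∀ r : ℕ, r0 ≤ r → ∀ᶠ X : ℕ in atTop,
      ∀ Z Y : ℕ, (X : ℝ) ^ θ ≤ Y → ∀ T : ℕ, T * Vq (Q f) ⌊(X : ℝ) ^ (1 / (r : ℝ))⌋₊ ≤ x0 →
      ∀ S : Set ℕ, (∀ m ≤ Z + Y + T, (m ∈ S ↔ Sf (Q f) ⌊(X : ℝ) ^ (1 / (r : ℝ))⌋₊ m)) →
        PoissonLaw S (Vq (Q f) ⌊(X : ℝ) ^ (1 / (r : ℝ))⌋₊) J L ε Z Y T := by
  obtain ⟨D, hD⟩ := fixed_us f hf hT
  obtain ⟨r0, h⟩ := law_polys m D 1 1 θ one_pos one_pos hθ J L x0 ε hε
  refine ⟨max r0 2, fun r hr => ?_⟩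
  obtain ⟨Cv, hCv, hV⟩ := fixed_V f hf hm r ((le_max_right _ _).trans hr)
  filter_upwards [h r ((le_max_left _ _).trans hr) Cv, hD, hV] with X hX hDX hVX
  exact hX f (hDX _) hVX

/-- **Regular points for fixed systems.** -/
theorem her_fixed (f : Fin m → ℤ[X]) (hf : Sys f) (hm : 1 ≤ m) (hT : NoShift f) (θ : ℝ) (hθ : 0 < θ) :
    ∃ r0 : ℕ, 2 ≤ r0 ∧ ∀ r : ℕ, r0 ≤ r → ∀ ε : ℝ, 0 < ε → ∃ κ : ℝ, 0 < κ ∧
      ∀ δ : ℝ, 0 < δ → ∃ M : ℕ, ∀ᶠ X : ℕ in atTop, ∀ u Y : ℕ, (X : ℝ) ^ θ ≤ Y → Y ≤ X → Y ≤ u →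
      ∀ S : Set ℕ, (∀ m ∈ S, Sf (Q f) ⌊(X : ℝ) ^ (1 / (r : ℝ))⌋₊ m) →
        (count (Irregular S (1 / Vq (Q f) ⌊(X : ℝ) ^ (1 / (r : ℝ))⌋₊) κ δ M Y) u (u + Y) : ℝ) ≤
          ε * (Y * Vq (Q f) ⌊(X : ℝ) ^ (1 / (r : ℝ))⌋₊) := by
  obtain ⟨D, hD⟩ := fixed_us f hf hT
  obtain ⟨r0, hr0, h⟩ := hered_polys m D 0 1 1 θ one_pos one_pos hθ
  refine ⟨r0, hr0, fun r hr ε hε => ?_⟩
  obtain ⟨Cv, hCv, hV⟩ := fixed_V f hf hm r (hr0.trans hr)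
  obtain ⟨κ, hκ, h1⟩ := h r hr Cv hCv ε hε
  refine ⟨κ, hκ, fun δ hδ => ?_⟩
  obtain ⟨M, h2⟩ := h1 δ hδ
  refine ⟨M, ?_⟩
  filter_upwards [h2, hD, hV] with X hX hDX hVX
  intro u Y hY hYX hYu S hS
  exact hX f (hDX 0) ∅ (by simp) (fun i j t ht _ _ => hT i j t ht) hVX u Y hY hYX hYu S hS

end Pool.Agent.U832.RG
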