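import Pool.Agent.U832.RG.ExUnif
import Pool.Agent.U832.RG.Slopes
import Pool.Agent.Y879.GL.QuadU

/-!
# The product of `1 - 1 / p` over the primes `p ≤ y` that do not divide `R`
-/

set_option autoImplicit false

namespace Pool.Agent.U832.RG

open Finset Filter
open Pool.Agent.W123.RP Pool.Agent.H373R2.T7 Pool.Agent.W123.RU Pool.Agent.TH464.PO Pool.Agent.Y879.GL

lemma one_sub_sum_le (S : Finset ℕ) (x : ℕ → ℝ) (h0 : ∀ p ∈ S, 0 ≤ x p) (h1 : ∀ p ∈ S, x p ≤ 1) :
    1 - ∑ p ∈ S, x p ≤ ∏ p ∈ S, (1 - x p) := by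
  classical
  induction S using Finset.induction_on with
  | empty => simp
  | insert a S ha ih =>
    rw [sum_insert ha, prod_insert ha]
    have h2 := ih (fun p hp => h0 p (mem_insert_of_mem hp)) (fun p hp => h1 p (mem_insert_of_mem hp))
    have h3 := h0 a (mem_insert_self _ _)
    have h4 := h1 a (mem_insert_self _ _)
    have h5 : 0 ≤ ∑ p ∈ S, x p := sum_nonneg fun p hp => h0 p (mem_insert_of_mem hp)
    calc 1 - (x a + ∑ p ∈ S, x p) ≤ (1 - x a) * (1 - ∑ p ∈ S, x p) := by nlinarith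
      _ ≤ _ := mul_le_mul_of_nonneg_left h2 (by linarith)

open Classical in
/-- **The product over the primes that do not divide `R` is small.** -/
theorem good_prod (A : ℝ) (hA : 0 < A) (r : ℕ) (hr : 2 ≤ r) (η : ℝ) (hη : 0 < η) : ∀ᶠ X : ℕ in atTop,
    ∀ R : ℕ, 0 < R → (R : ℝ) ≤ (X : ℝ) ^ A →
      ∏ p ∈ (pz ⌊(X : ℝ) ^ (1 / (r : ℝ))⌋₊).filter (fun p => ¬ p ∣ R), (1 - 1 / (p : ℝ)) ≤ η := by
  obtain ⟨C, hC, hup⟩ := Vz_up r hr
  obtain ⟨c, C', hc, hC', hb⟩ := Vz_bounds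
  have hlogX : Tendsto (fun X : ℕ => Real.log (X : ℝ)) atTop atTop :=
    Real.tendsto_log_atTop.comp tendsto_natCast_atTop_atTop
  filter_upwards [hup, hlogX.eventually_ge_atTop 3, hlogX.eventually_ge_atTop (Real.exp (2 * A)),
    hlogX.eventually_ge_atTop ((8 * C / (c * η)) ^ 2), eventually_ge_atTop 2] with X h1 h3 h4 h5 hX2
  intro R hR0 hRX
  obtain ⟨y, hy⟩ : ∃ y, y = ⌊(X : ℝ) ^ (1 / (r : ℝ))⌋₊ := ⟨_, rfl⟩
  rw [← hy] at h1 ⊢
  have hX0 : (0 : ℝ) < X := by exact_mod_cast (by omega : 0 < X)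
  obtain ⟨lX, hlX⟩ : ∃ lX, lX = Real.log (X : ℝ) := ⟨_, rfl⟩
  rw [← hlX] at h1 h3 h4 h5
  have hlX0 : 0 < lX := by linarith
  obtain ⟨z, hz⟩ : ∃ z : ℕ, z = ⌈lX⌉₊ := ⟨_, rfl⟩
  have hz1 : lX ≤ z := by rw [hz]; exact Nat.le_ceil _
  have hz2 : (z : ℝ) ≤ 4 * lX := by
    have := (Nat.ceil_lt_add_one hlX0.le).le
    rw [← hz] at this
    linarith
  have hz3 : 3 ≤ z := by
    have : (3 : ℝ) ≤ z := by linarith
    exact_mod_cast this
  have hzpos : (0 : ℝ) < z := by linarith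
  have hlz1 : 0 < Real.log z := Real.log_pos (by exact_mod_cast (by omega : 1 < z))
  have hlz2 : 2 * A ≤ Real.log z := by
    have h6 : Real.exp (2 * A) ≤ z := h4.trans hz1
    have h7 := Real.log_le_log (Real.exp_pos _) h6
    rwa [Real.log_exp] at h7
  have hlz3 : Real.log z ≤ 4 * √lX := by
    have h6 := Real.log_le_sub_one_of_pos (Real.sqrt_pos.2 hzpos)
    rw [Real.log_sqrt hzpos.le] at h6
    have h7 : √(z : ℝ) ≤ 2 * √lX := by
      calc √(z : ℝ) ≤ √(4 * lX) := Real.sqrt_le_sqrt hz2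
        _ = √4 * √lX := Real.sqrt_mul (by norm_num) _
        _ = 2 * √lX := by
            rw [show (4 : ℝ) = 2 ^ 2 by norm_num, Real.sqrt_sq (by norm_num)]
    linarith
  -- the parts
  obtain ⟨G, hG⟩ : ∃ G : ℝ, G = ∏ p ∈ (pz y).filter (fun p => ¬ p ∣ R), (1 - 1 / (p : ℝ)) := ⟨_, rfl⟩
  obtain ⟨E, hE⟩ : ∃ E : ℝ, E = ∏ p ∈ (pz y).filter (fun p => p ∣ R), (1 - 1 / (p : ℝ)) := ⟨_, rfl⟩
  rw [← hG]
  have hfac : ∀ p : ℕ, p.Prime → 0 < 1 - 1 / (p : ℝ) ∧ 1 - 1 / (p : ℝ) ≤ 1 := by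
    intro p hp
    have hp2 : (2 : ℝ) ≤ p := by exact_mod_cast hp.two_le
    have : 1 / (p : ℝ) ≤ 1 / 2 := one_div_le_one_div_of_le (by norm_num) hp2
    have h0 : 0 ≤ 1 / (p : ℝ) := by positivity
    constructor <;> linarith
  have hpzp : ∀ {w p : ℕ}, p ∈ pz w → p.Prime := fun {w p} h => (Pool.Agent.H373R2.T7.mem_pz.1 h).2
  have hG0 : 0 ≤ G := by
    rw [hG]
    exact prod_nonneg fun p hp => (hfac p (hpzp (mem_filter.1 hp).1)).1.le
  have hVz : Vz y = E * G := by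
    rw [hE, hG]
    unfold Vz
    exact (Finset.prod_filter_mul_prod_filter_not _ _ _).symm
  have hE1 : c / Real.log z * (1 / 2) ≤ E := by
    have hsplit : E = (∏ p ∈ ((pz y).filter (fun p => p ∣ R)).filter (fun p => p ≤ z), (1 - 1 / (p : ℝ))) *
        ∏ p ∈ ((pz y).filter (fun p => p ∣ R)).filter (fun p => ¬ p ≤ z), (1 - 1 / (p : ℝ)) := by
      rw [hE]
      exact (Finset.prod_filter_mul_prod_filter_not _ _ _).symm
    rw [hsplit]
    apply mul_le_mul
    · refine (hb z (by omega)).1.trans ?_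
      unfold Vz
      have hsub : ((pz y).filter (fun p => p ∣ R)).filter (fun p => p ≤ z) ⊆ pz z := by
        intro p hp
        rw [mem_filter, mem_filter] at hp
        exact Pool.Agent.H373R2.T7.mem_pz.2 ⟨hp.2, hpzp hp.1.1⟩
      rw [← Finset.prod_sdiff hsub]
      apply mul_le_of_le_one_left
      · exact prod_nonneg fun p hp => (hfac p (hpzp (mem_filter.1 (mem_filter.1 hp).1).1)).1.le
      · exact prod_le_one (fun p hp => (hfac p (hpzp (mem_sdiff.1 hp).1)).1.le)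
          (fun p hp => (hfac p (hpzp (mem_sdiff.1 hp).1)).2)
    · obtain ⟨S, hS⟩ : ∃ S, S = ((pz y).filter (fun p => p ∣ R)).filter (fun p => ¬ p ≤ z) := ⟨_, rfl⟩
      have hSp : ∀ p ∈ S, p.Prime ∧ z < p ∧ p ∣ R := by
        intro p hp
        rw [hS, mem_filter, mem_filter] at hp
        exact ⟨hpzp hp.1.1, by omega, hp.1.2⟩
      rw [← hS]
      have h6 := one_sub_sum_le S (fun p => 1 / (p : ℝ)) (fun p _ => by positivity) (fun p hp => by
        have := (hfac p (hSp p hp).1).1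
        linarith)
      refine le_trans ?_ h6
      have h7 := card_primes_le S z R (by omega) hR0 ((X : ℝ) ^ A) hRX hSp
      rw [Real.log_rpow hX0, ← hlX] at h7
      have h8 : ∑ p ∈ S, 1 / (p : ℝ) ≤ S.card * (1 / (z : ℝ)) := by
        have := Finset.sum_le_card_nsmul S (fun p => 1 / (p : ℝ)) (1 / (z : ℝ)) (fun p hp => by
          apply one_div_le_one_div_of_le hzpos
          exact_mod_cast (hSp p hp).2.1.le)
        rwa [nsmul_eq_mul] at this
      have h9 : (S.card : ℝ) * (1 / (z : ℝ)) ≤ 1 / 2 := by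
        rw [mul_one_div, div_le_div_iff₀ hzpos (by norm_num)]
        have h10 : (S.card : ℝ) * (2 * A) ≤ A * lX :=
          (mul_le_mul_of_nonneg_left hlz2 (Nat.cast_nonneg _)).trans h7
        have h11 : (S.card : ℝ) * 2 ≤ lX := by
          have : A * ((S.card : ℝ) * 2) ≤ A * lX := by linarith
          exact le_of_mul_le_mul_left this hA
        linarith
      linarith
    · norm_num
    · exact prod_nonneg fun p hp => (hfac p (hpzp (mem_filter.1 (mem_filter.1 hp).1).1)).1.le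
  have hE0 : 0 < E := lt_of_lt_of_le (by positivity) hE1
  have h8 : E * G ≤ C / lX := by rw [← hVz]; exact h1.2
  have h9 : c / Real.log z * (1 / 2) * G ≤ C / lX := (mul_le_mul_of_nonneg_right hE1 hG0).trans h8
  have hsl : 0 < √lX := Real.sqrt_pos.2 hlX0
  have hss : √lX * √lX = lX := Real.mul_self_sqrt hlX0.le
  have h10 : 8 * C / (c * η) ≤ √lX := Real.le_sqrt_of_sq_le h5
  rw [div_le_iff₀ (by positivity)] at h10
  have h11 : c * G * lX ≤ 2 * C * Real.log z := by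
    rw [le_div_iff₀ hlX0] at h9
    have h12 : c / Real.log z * (1 / 2) * G * lX = (c * G * lX) / (2 * Real.log z) := by
      field_simp
    rw [h12, div_le_iff₀ (by positivity)] at h9
    linarith
  have h13 : c * G * lX ≤ c * η * lX := by
    calc c * G * lX ≤ 2 * C * Real.log z := h11
      _ ≤ 2 * C * (4 * √lX) := mul_le_mul_of_nonneg_left hlz3 (by positivity)
      _ = (8 * C) * √lX := by ring
      _ ≤ (√lX * (c * η)) * √lX := mul_le_mul_of_nonneg_right h10 hsl.le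
      _ = c * η * (√lX * √lX) := by ring
      _ = c * η * lX := by rw [hss]
  have h14 := le_of_mul_le_mul_right h13 hlX0
  exact le_of_mul_le_mul_left h14 hc

end Pool.Agent.U832.RG
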