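import Pool.Agent.U832.RG.GoodP

/-!
# All admissible systems of linear forms, uniformly in the coefficients
-/

set_option autoImplicit false

namespace Pool.Agent.U832.RG

open Polynomial Finset Filter
open Pool.Agent.W123.RP Pool.Agent.H373R2.T7 Pool.Agent.W123.RU Pool.Agent.W123.RU.Poly
open Pool.Agent.TH464.PW Pool.Agent.TH464.PO Pool.Agent.Y879.GL

/-- admissible systems of distinct linear forms with positive slopes -/
structure LF {k : ℕ} (a b : Fin k → ℤ) : Prop where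
  pos : ∀ i, 0 < a i
  dist : ∀ i j, a i = a j → b i = b j → i = j
  cop : ∀ i, IsCoprime (a i) (b i)
  adm : ∀ p : ℕ, p.Prime → ∃ m : ℕ, ∀ i, ¬ (p : ℤ) ∣ a i * m + b i

variable {k : ℕ} {a b : Fin k → ℤ}

lemma det_eq_zero (α β γ δ : ℤ) (hα : 0 < α) (hγ : 0 < γ) (h1 : IsCoprime α β) (h2 : IsCoprime γ δ)
    (h : α * δ - γ * β = 0) : α = γ ∧ β = δ := by
  have h3 : α * δ = γ * β := by linarith
  have h4 : α ∣ γ := h1.dvd_of_dvd_mul_right (h3 ▸ Dvd.intro _ rfl)
  have h5 : γ ∣ α := h2.dvd_of_dvd_mul_right (h3 ▸ Dvd.intro _ rfl)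
  have h6 := Int.dvd_antisymm hα.le hγ.le h4 h5
  refine ⟨h6, ?_⟩
  subst h6
  exact (mul_left_cancel₀ hα.ne' h3).symm

lemma root_unique (p : ℕ) (hp : p.Prime) (α β : ℤ) (h : ¬ (p : ℤ) ∣ α) (r m : ℕ) (hr : r < p) (hm : m < p)
    (h1 : (p : ℤ) ∣ α * r + β) (h2 : (p : ℤ) ∣ α * m + β) : m = r := by
  have hpi : Prime (p : ℤ) := Nat.prime_iff_prime_int.1 hp
  have h3 : (p : ℤ) ∣ α * ((m : ℤ) - r) := by
    have := dvd_sub h2 h1
    rwa [show α * (m : ℤ) + β - (α * r + β) = α * ((m : ℤ) - r) by ring] at this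
  have h4 := (hpi.dvd_or_dvd h3).resolve_left h
  have h5 : (m : ℤ) ≡ r [ZMOD p] := (Int.modEq_iff_dvd.2 (by
    rw [← dvd_neg, neg_sub]
    exact h4))
  have h6 : m ≡ r [MOD p] := Int.natCast_modEq_iff.1 h5
  exact Nat.ModEq.eq_of_lt_of_lt h6 hm hr

lemma nu_upper {ι : Type} [Fintype ι] (α β : ι → ℤ) (Q : ℕ → ℕ → Prop) (p : ℕ) (hp : p.Prime)
    (hα : ∀ i, ¬ (p : ℤ) ∣ α i) (hQ : ∀ m : ℕ, Q p m → ∃ i, (p : ℤ) ∣ α i * m + β i) :
    nuB Q p ≤ Fintype.card ι := by
  classical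
  choose r hr h1 using fun i => root_ex p hp (α i) (β i) (hα i)
  have hsub : (range p).filter (fun m => Q p m) ⊆ univ.image r := by
    intro m hm
    rw [mem_filter, mem_range] at hm
    obtain ⟨i, hi⟩ := hQ m hm.2
    rw [mem_image]
    exact ⟨i, mem_univ _, (root_unique p hp (α i) (β i) (hα i) (r i) m (hr i) hm.1 (h1 i) hi).symm⟩
  have h2 : nuB Q p = ((range p).filter (fun m => Q p m)).card := by
    unfold nuB
    congr
  rw [h2]
  exact (card_le_card hsub).trans (card_image_le.trans (by rw [card_univ]))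

lemma nu_lower {ι : Type} [Fintype ι] (α β : ι → ℤ) (Q : ℕ → ℕ → Prop) (p : ℕ) (hp : p.Prime)
    (hα : ∀ i, ¬ (p : ℤ) ∣ α i) (hQ : ∀ (i : ι) (m : ℕ), (p : ℤ) ∣ α i * m + β i → Q p m)
    (hdet : ∀ i j, i ≠ j → ¬ (p : ℤ) ∣ α i * β j - α j * β i) : Fintype.card ι ≤ nuB Q p := by
  classical
  choose r hr h1 using fun i => root_ex p hp (α i) (β i) (hα i)
  have hinj : Function.Injective r := by
    intro i j hij
    by_contra hne
    apply hdet i j hne
    have h2 := dvd_sub (Dvd.dvd.mul_left (h1 j) (α i)) (Dvd.dvd.mul_left (h1 i) (α j))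
    rw [hij] at h2
    rwa [show α i * (α j * (r j : ℤ) + β j) - α j * (α i * (r j : ℤ) + β i) = α i * β j - α j * β i by ring] at h2
  have hsub : univ.image r ⊆ (range p).filter (fun m => Q p m) := by
    intro m hm
    rw [mem_image] at hm
    obtain ⟨i, _, rfl⟩ := hm
    rw [mem_filter, mem_range]
    exact ⟨hr i, hQ i _ (h1 i)⟩
  have h2 : nuB Q p = ((range p).filter (fun m => Q p m)).card := by
    unfold nuB
    congr
  rw [h2]
  refine le_trans ?_ (card_le_card hsub)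
  rw [card_image_of_injective _ hinj, card_univ]

lemma nu_le_p (Q : ℕ → ℕ → Prop) (p : ℕ) : nuB Q p ≤ p := nuB_le Q p

open Classical in
lemma Vq_ratio_le (Q Q' : ℕ → ℕ → Prop) (y R : ℕ) (h1 : ∀ p : ℕ, p.Prime → nuB Q p ≤ nuB Q' p)
    (h2 : ∀ p : ℕ, p.Prime → ¬ p ∣ R → nuB Q p + 1 ≤ nuB Q' p) :
    Vq Q' y ≤ Vq Q y * ∏ p ∈ (pz y).filter (fun p => ¬ p ∣ R), (1 - 1 / (p : ℝ)) := by
  rw [Finset.prod_filter]
  unfold Vq
  rw [← Finset.prod_mul_distrib]
  apply Finset.prod_le_prod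
  · intro p hp
    have hpp := (Pool.Agent.H373R2.T7.mem_pz.1 hp).2
    have hp0 : (0 : ℝ) < p := by exact_mod_cast hpp.pos
    have h3 : (nuB Q' p : ℝ) ≤ p := by exact_mod_cast nu_le_p Q' p
    have : (nuB Q' p : ℝ) / p ≤ 1 := by rw [div_le_one hp0]; exact h3
    linarith
  · intro p hp
    have hpp := (Pool.Agent.H373R2.T7.mem_pz.1 hp).2
    have hp0 : (0 : ℝ) < p := by exact_mod_cast hpp.pos
    by_cases hR : p ∣ R
    · rw [if_neg (not_not.2 hR), mul_one]
      have h3 : (nuB Q p : ℝ) ≤ nuB Q' p := by exact_mod_cast h1 p hpp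
      have := div_le_div_of_nonneg_right h3 hp0.le
      linarith
    · rw [if_pos hR]
      have h3 : (nuB Q p : ℝ) + 1 ≤ nuB Q' p := by exact_mod_cast h2 p hpp hR
      have h4 := div_le_div_of_nonneg_right h3 hp0.le
      have h5 : (1 - (nuB Q p : ℝ) / p) * (1 - 1 / (p : ℝ)) =
          1 - ((nuB Q p : ℝ) + 1) / p + (nuB Q p : ℝ) / p ^ 2 := by
        field_simp
        ring
      rw [h5]
      have h6 : 0 ≤ (nuB Q p : ℝ) / (p : ℝ) ^ 2 := by positivity
      linarith

/-- the forms of the union with a translate -/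
def ua (a : Fin k → ℤ) (i0 : Fin k) : Option (Fin k) → ℤ := fun x => x.elim (a i0) a

/-- the forms of the union with a translate -/
def ub (a b : Fin k → ℤ) (i0 : Fin k) (t : ℕ) : Option (Fin k) → ℤ := fun x => x.elim (b i0 + a i0 * t) b

/-- the determinants -/
def ud (a b : Fin k → ℤ) (i0 : Fin k) (t : ℕ) (x : Option (Fin k) × Option (Fin k)) : ℤ :=
  ua a i0 x.1 * ub a b i0 t x.2 - ua a i0 x.2 * ub a b i0 t x.1

/-- the product of the slopes and of the determinants -/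
def RU (a b : Fin k → ℤ) (i0 : Fin k) (t : ℕ) : ℕ :=
  (∏ i : Option (Fin k), (ua a i0 i).natAbs) *
    ∏ x ∈ (univ : Finset (Option (Fin k) × Option (Fin k))).filter (fun x => x.1 ≠ x.2), (ud a b i0 t x).natAbs

lemma ua_pos (h : LF a b) (i0 : Fin k) (x : Option (Fin k)) : 0 < ua a i0 x := by
  cases x with
  | none => exact h.pos i0
  | some i => exact h.pos i

lemma u_cop (h : LF a b) (i0 : Fin k) (t : ℕ) (x : Option (Fin k)) : IsCoprime (ua a i0 x) (ub a b i0 t x) := by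
  cases x with
  | none =>
    show IsCoprime (a i0) (b i0 + a i0 * t)
    exact (h.cop i0).add_mul_left_right t
  | some i => exact h.cop i

lemma ud_ne (h : LF a b) (i0 : Fin k) (hmax : ∀ j, b j ≤ b i0) (t : ℕ) (ht : 1 ≤ t)
    (x : Option (Fin k) × Option (Fin k)) (hx : x.1 ≠ x.2) : ud a b i0 t x ≠ 0 := by
  intro h0
  obtain ⟨h1, h2⟩ := det_eq_zero _ _ _ _ (ua_pos h i0 x.1) (ua_pos h i0 x.2) (u_cop h i0 t x.1)
    (u_cop h i0 t x.2) h0
  have ht' : (1 : ℤ) ≤ t := by exact_mod_cast ht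
  have hp := mul_pos (h.pos i0) (by linarith : (0 : ℤ) < t)
  obtain ⟨x1, x2⟩ := x
  cases x1 with
  | none =>
    cases x2 with
    | none => exact hx rfl
    | some j =>
      have h3 : b i0 + a i0 * t = b j := h2
      have := hmax j
      linarith
  | some i =>
    cases x2 with
    | none =>
      have h3 : b i = b i0 + a i0 * t := h2
      have := hmax i
      linarith
    | some j =>
      apply hx
      rw [h.dist i j h1 h2]

lemma RU_pos (h : LF a b) (i0 : Fin k) (hmax : ∀ j, b j ≤ b i0) (t : ℕ) (ht : 1 ≤ t) : 0 < RU a b i0 t := by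
  unfold RU
  apply Nat.mul_pos
  · apply Finset.prod_pos
    intro i _
    exact Int.natAbs_pos.2 (ua_pos h i0 i).ne'
  · apply Finset.prod_pos
    intro x hx
    exact Int.natAbs_pos.2 (ud_ne h i0 hmax t ht x (mem_filter.1 hx).2)

lemma RU_slope (i0 : Fin k) (t p : ℕ) (hR : ¬ p ∣ RU a b i0 t) (i : Option (Fin k)) :
    ¬ (p : ℤ) ∣ ua a i0 i := by
  intro h1
  apply hR
  unfold RU
  apply Dvd.dvd.mul_right
  exact (Int.natCast_dvd.1 h1).trans (Finset.dvd_prod_of_mem (fun i => (ua a i0 i).natAbs) (mem_univ i))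

lemma RU_det (i0 : Fin k) (t p : ℕ) (hR : ¬ p ∣ RU a b i0 t) (i j : Option (Fin k)) (hij : i ≠ j) :
    ¬ (p : ℤ) ∣ ua a i0 i * ub a b i0 t j - ua a i0 j * ub a b i0 t i := by
  intro h1
  apply hR
  unfold RU
  apply Dvd.dvd.mul_left
  refine (Int.natCast_dvd.1 h1).trans ?_
  exact Finset.dvd_prod_of_mem (fun x => (ud a b i0 t x).natAbs)
    (show (i, j) ∈ (univ : Finset (Option (Fin k) × Option (Fin k))).filter (fun x => x.1 ≠ x.2) from
      mem_filter.2 ⟨mem_univ _, hij⟩)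

lemma RU_le (i0 : Fin k) (t : ℕ) (H : ℝ) (hH : 1 ≤ H) (ha : ∀ i, |(a i : ℝ)| ≤ H) (hb : ∀ i, |(b i : ℝ)| ≤ H)
    (ht : (t : ℝ) ≤ 2 * H) : (RU a b i0 t : ℝ) ≤ H ^ (k + 1) * (6 * H ^ 3) ^ ((k + 1) ^ 2) := by
  have hua : ∀ i, |(ua a i0 i : ℝ)| ≤ H := by
    intro i
    cases i with
    | none => exact ha i0
    | some i => exact ha i
  have hub : ∀ i, |(ub a b i0 t i : ℝ)| ≤ 3 * H ^ 2 := by
    intro i
    have hHH : H ≤ H ^ 2 := by nlinarith
    cases i with
    | none =>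
      have e : ((ub a b i0 t none : ℤ) : ℝ) = b i0 + a i0 * t := by
        show ((b i0 + a i0 * (t : ℤ) : ℤ) : ℝ) = _
        push_cast
        ring
      rw [e]
      refine (abs_add_le _ _).trans ?_
      rw [abs_mul, Nat.abs_cast]
      have h1 : |(a i0 : ℝ)| * t ≤ H * (2 * H) := mul_le_mul (ha i0) ht (Nat.cast_nonneg _) (by linarith)
      have := hb i0
      nlinarith
    | some i =>
      refine (hb i).trans ?_
      nlinarith
  have hud : ∀ x, |(ud a b i0 t x : ℝ)| ≤ 6 * H ^ 3 := by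
    intro x
    unfold ud
    push_cast
    refine (abs_sub _ _).trans ?_
    rw [abs_mul, abs_mul]
    have h1 : |(ua a i0 x.1 : ℝ)| * |(ub a b i0 t x.2 : ℝ)| ≤ H * (3 * H ^ 2) :=
      mul_le_mul (hua _) (hub _) (abs_nonneg _) (by linarith)
    have h2 : |(ua a i0 x.2 : ℝ)| * |(ub a b i0 t x.1 : ℝ)| ≤ H * (3 * H ^ 2) :=
      mul_le_mul (hua _) (hub _) (abs_nonneg _) (by linarith)
    nlinarith
  have hH3 : (1 : ℝ) ≤ 6 * H ^ 3 := by
    have := one_le_pow₀ (n := 3) hH
    linarith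
  unfold RU
  push_cast
  apply mul_le_mul
  · refine (Finset.prod_le_prod (fun i _ => by positivity) (fun i _ => ?_) (g := fun _ => H)).trans ?_
    · rw [Nat.cast_natAbs]
      push_cast
      exact hua i
    · rw [Finset.prod_const, card_univ, Fintype.card_option, Fintype.card_fin]
  · refine (Finset.prod_le_prod (fun i _ => by positivity) (fun i _ => ?_) (g := fun _ => 6 * H ^ 3)).trans ?_
    · rw [Nat.cast_natAbs]
      push_cast
      exact hud i
    · rw [Finset.prod_const]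
      apply pow_le_pow_right₀ hH3
      refine (card_filter_le _ _).trans ?_
      rw [card_univ, Fintype.card_prod, Fintype.card_option, Fintype.card_fin, sq]
  · positivity
  · positivity

/-- **The density of the exceptional pairs.** -/
theorem lin_exc (k : ℕ) (hk : 1 ≤ k) (A : ℝ) (hA : 0 < A) (r : ℕ) (hr : 2 ≤ r) (κ' : ℝ) (hκ' : 0 < κ') :
    ∀ᶠ X : ℕ in atTop, ∀ a b : Fin k → ℤ, LF a b → (∀ i, |(a i : ℝ)| ≤ (X : ℝ) ^ A) →
      (∀ i, |(b i : ℝ)| ≤ (X : ℝ) ^ A) → ∀ t : ℕ, 1 ≤ t → (t : ℝ) ≤ 2 * (X : ℝ) ^ A → ∀ s : ℕ,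
        Vq (QH (Q (ls a b)) {s, s + t}) ⌊(X : ℝ) ^ (1 / (r : ℝ))⌋₊ ≤
          κ' * Vq (Q (ls a b)) ⌊(X : ℝ) ^ (1 / (r : ℝ))⌋₊ := by
  obtain ⟨A2, hA2⟩ : ∃ A2 : ℝ, A2 = A * (k + 1) + (1 + A * 3) * ((k + 1) ^ 2) := ⟨_, rfl⟩
  have hA20 : 0 < A2 := by rw [hA2]; positivity
  filter_upwards [good_prod A2 hA20 r hr κ' hκ', eventually_ge_atTop 6] with X hX hX6
  intro a b h ha hb t ht htX s
  have hX6r : (6 : ℝ) ≤ X := by exact_mod_cast hX6
  have hX0 : (0 : ℝ) < X := by linarith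
  have hH : (1 : ℝ) ≤ (X : ℝ) ^ A := Real.one_le_rpow (by linarith) hA.le
  have hne : (univ : Finset (Fin k)).Nonempty := ⟨⟨0, hk⟩, mem_univ _⟩
  obtain ⟨i0, _, hmax⟩ := Finset.exists_max_image univ b hne
  have hmax' : ∀ j, b j ≤ b i0 := fun j => hmax j (mem_univ j)
  have hRle : (RU a b i0 t : ℝ) ≤ (X : ℝ) ^ A2 := by
    refine (RU_le i0 t ((X : ℝ) ^ A) hH ha hb htX).trans ?_
    calc ((X : ℝ) ^ A) ^ (k + 1) * (6 * ((X : ℝ) ^ A) ^ 3) ^ ((k + 1) ^ 2) ≤
          ((X : ℝ) ^ A) ^ (k + 1) * (X * ((X : ℝ) ^ A) ^ 3) ^ ((k + 1) ^ 2) := by gcongr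
      _ = (X : ℝ) ^ A2 := by
          rw [hA2, Real.rpow_add hX0, Real.rpow_mul hX0.le, Real.rpow_mul hX0.le, Real.rpow_add hX0,
            Real.rpow_one, Real.rpow_mul hX0.le]
          norm_cast
  have hprod := hX (RU a b i0 t) (RU_pos h i0 hmax' t ht) hRle
  have hratio := Vq_ratio_le (Q (ls a b)) (QH (Q (ls a b)) {s, s + t}) ⌊(X : ℝ) ^ (1 / (r : ℝ))⌋₊
    (RU a b i0 t) (fun p hp => ?_) (fun p hp hpR => ?_)
  · refine hratio.trans ?_
    rw [mul_comm]
    apply mul_le_mul_of_nonneg_right _ (Vq_nonneg _ _)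
    convert hprod
  · classical
    have h1 : nuB (Q (ls a b)) p = nuB (Qt (Q (ls a b)) s) p :=
      (nuB_Qt (Q (ls a b)) (k * 1 + 1) (us_perB (us_lf k a b ((X : ℝ) ^ A) 0 (fun i => (h.pos i).ne') h.cop ha hb
        h.adm (fun i j t ht ht0 => by
          exfalso
          have : (1 : ℝ) ≤ t := by exact_mod_cast ht
          linarith))) s p).symm
    rw [h1]
    unfold nuB
    apply card_le_card
    intro m hm
    rw [mem_filter] at hm ⊢
    exact ⟨hm.1, s, mem_insert_self _ _, hm.2⟩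
  · have h1 : nuB (Q (ls a b)) p ≤ k := by
      have := nu_upper a b (Q (ls a b)) p hp (fun i => RU_slope i0 t p hpR (some i))
        (fun m hm => (ls_Q a b p m).1 hm)
      rwa [Fintype.card_fin] at this
    have h2 : k + 1 ≤ nuB (QH (Q (ls a b)) {s, s + t}) p := by
      have := nu_lower (ua a i0) (fun i => ub a b i0 t i + ua a i0 i * s) (QH (Q (ls a b)) {s, s + t}) p hp
        (fun i => RU_slope i0 t p hpR i) (fun i m hm => by
          cases i with
          | none =>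
            refine ⟨s + t, mem_insert_of_mem (mem_singleton_self _), ?_⟩
            rw [ls_Q]
            refine ⟨i0, ?_⟩
            have e : a i0 * ((m + (s + t) : ℕ) : ℤ) + b i0 =
                ua a i0 none * m + (ub a b i0 t none + ua a i0 none * s) := by
              show _ = a i0 * m + ((b i0 + a i0 * t) + a i0 * s)
              push_cast
              ring
            rw [e]
            exact hm
          | some i =>
            refine ⟨s, mem_insert_self _ _, ?_⟩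
            rw [ls_Q]
            refine ⟨i, ?_⟩
            have e : a i * ((m + s : ℕ) : ℤ) + b i =
                ua a i0 (some i) * m + (ub a b i0 t (some i) + ua a i0 (some i) * s) := by
              show _ = a i * m + (b i + a i * s)
              push_cast
              ring
            rw [e]
            exact hm)
        (fun i j hij => by
          have := RU_det (a := a) (b := b) i0 t p hpR i j hij
          intro h3
          apply this
          rwa [show ua a i0 i * (ub a b i0 t j + ua a i0 j * s) - ua a i0 j * (ub a b i0 t i + ua a i0 i * s) =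
            ua a i0 i * ub a b i0 t j - ua a i0 j * ub a b i0 t i by ring] at h3)
      rwa [Fintype.card_option, Fintype.card_fin] at this
    omega

end Pool.Agent.U832.RG
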