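import Pool.Agent.U832.RG.LinF

/-!
# The joint law and regular points for all admissible systems of linear forms, uniformly in the coefficients
-/

set_option autoImplicit false

namespace Pool.Agent.U832.RG

open Polynomial Finset Filter
open Pool.Agent.W123.RP Pool.Agent.H373R2.T7 Pool.Agent.W123.RU Pool.Agent.W123.RU.Poly
open Pool.Agent.TH464.PW Pool.Agent.TH464.PO Pool.Agent.Y879.GL

variable {k : ℕ} {a b : Fin k → ℤ}

/-- the exceptional shifts -/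
def DF (a b : Fin k → ℤ) : Finset ℕ :=
  (univ : Finset (Fin k × Fin k)).image (fun x => ((b x.1 - b x.2) / a x.2).toNat)

lemma DF_card (a b : Fin k → ℤ) : (DF a b).card ≤ k * k := by
  unfold DF
  refine card_image_le.trans ?_
  rw [card_univ, Fintype.card_prod, Fintype.card_fin]

lemma DF_le (H : ℝ) (hb : ∀ i, |(b i : ℝ)| ≤ H) (t : ℕ) (ht : t ∈ DF a b) : (t : ℝ) ≤ 2 * H := by
  unfold DF at ht
  rw [mem_image] at ht
  obtain ⟨x, _, rfl⟩ := ht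
  have h1 : ((b x.1 - b x.2) / a x.2).toNat ≤ (b x.1 - b x.2).natAbs := by
    have h3 := Int.natAbs_ediv_le_natAbs (b x.1 - b x.2) (a x.2)
    have h4 : ∀ z : ℤ, z.toNat ≤ z.natAbs := by
      intro z
      omega
    exact (h4 _).trans h3
  have h2 : (((b x.1 - b x.2).natAbs : ℕ) : ℝ) = |(b x.1 : ℝ) - b x.2| := by
    rw [Nat.cast_natAbs]
    push_cast
    rfl
  calc ((((b x.1 - b x.2) / a x.2).toNat : ℕ) : ℝ) ≤ (((b x.1 - b x.2).natAbs : ℕ) : ℝ) := by exact_mod_cast h1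
    _ = |(b x.1 : ℝ) - b x.2| := h2
    _ ≤ |(b x.1 : ℝ)| + |(b x.2 : ℝ)| := abs_sub _ _
    _ ≤ 2 * H := by
        have := hb x.1
        have := hb x.2
        linarith

lemma DF_not (h : LF a b) (t : ℕ) (ht : t ∉ DF a b) (i j : Fin k) :
    a i * (b j + a j * t) - a j * b i ≠ 0 := by
  intro h0
  have hc : IsCoprime (a j) (b j + a j * t) := (h.cop j).add_mul_left_right t
  obtain ⟨h1, h2⟩ := det_eq_zero (a i) (b i) (a j) (b j + a j * t) (h.pos i) (h.pos j) (h.cop i) hc (by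
    linarith)
  apply ht
  unfold DF
  rw [mem_image]
  refine ⟨(i, j), mem_univ _, ?_⟩
  dsimp only
  rw [h2, show b j + a j * (t : ℤ) - b j = a j * t by ring, Int.mul_ediv_cancel_left _ (h.pos j).ne']
  exact Int.toNat_natCast t

/-- the product of the determinants of a shift -/
def RS (a b : Fin k → ℤ) (t : ℕ) : ℕ := ∏ x : Fin k × Fin k, (a x.1 * (b x.2 + a x.2 * t) - a x.2 * b x.1).natAbs

lemma RS_pos (h : LF a b) (t : ℕ) (ht : t ∉ DF a b) : 0 < RS a b t := by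
  unfold RS
  apply Finset.prod_pos
  intro x _
  exact Int.natAbs_pos.2 (DF_not h t ht x.1 x.2)

lemma RS_dvd (t p : ℕ) (hc : CoG (Q (ls a b)) p t) : p ∣ RS a b t := by
  obtain ⟨m, h1, h2⟩ := hc
  rw [ls_Q] at h1 h2
  obtain ⟨i, hi⟩ := h1
  obtain ⟨j, hj⟩ := h2
  have h3 := dvd_sub (Dvd.dvd.mul_left hj (a i)) (Dvd.dvd.mul_left hi (a j))
  have e : a i * (a j * ((m + t : ℕ) : ℤ) + b j) - a j * (a i * m + b i) = a i * (b j + a j * t) - a j * b i := by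
    push_cast
    ring
  rw [e] at h3
  unfold RS
  exact (Int.natCast_dvd.1 h3).trans (Finset.dvd_prod_of_mem
    (fun x : Fin k × Fin k => (a x.1 * (b x.2 + a x.2 * t) - a x.2 * b x.1).natAbs) (mem_univ (i, j)))

lemma RS_le (t : ℕ) (H U : ℝ) (hH : 1 ≤ H) (hU : 1 ≤ U) (ha : ∀ i, |(a i : ℝ)| ≤ H) (hb : ∀ i, |(b i : ℝ)| ≤ H)
    (ht : (t : ℝ) ≤ U) : (RS a b t : ℝ) ≤ (3 * (H ^ 2 * U)) ^ (k * k) := by
  have h1 : ∀ x : Fin k × Fin k, (((a x.1 * (b x.2 + a x.2 * t) - a x.2 * b x.1).natAbs : ℕ) : ℝ) ≤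
      3 * (H ^ 2 * U) := by
    intro x
    rw [Nat.cast_natAbs]
    push_cast
    refine (abs_sub _ _).trans ?_
    rw [abs_mul, abs_mul]
    have h2 : |(b x.2 : ℝ) + a x.2 * t| ≤ H + H * U := by
      refine (abs_add_le _ _).trans ?_
      rw [abs_mul, Nat.abs_cast]
      exact add_le_add (hb x.2) (mul_le_mul (ha x.2) ht (Nat.cast_nonneg _) (by linarith))
    have h3 : |(a x.1 : ℝ)| * |(b x.2 : ℝ) + a x.2 * t| ≤ H * (H + H * U) :=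
      mul_le_mul (ha x.1) h2 (abs_nonneg _) (by linarith)
    have h4 : |(a x.2 : ℝ)| * |(b x.1 : ℝ)| ≤ H * H := mul_le_mul (ha x.2) (hb x.1) (abs_nonneg _) (by linarith)
    have h5 : H * H ≤ H ^ 2 * U := by
      rw [← sq]
      exact le_mul_of_one_le_right (by positivity) hU
    nlinarith
  unfold RS
  push_cast
  refine (Finset.prod_le_prod (fun x _ => by positivity) (fun x _ => ?_) (g := fun _ => 3 * (H ^ 2 * U))).trans ?_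
  · have := h1 x
    exact_mod_cast this
  · rw [Finset.prod_const, card_univ, Fintype.card_prod, Fintype.card_fin]

lemma lin_us (h : LF a b) (H : ℝ) (ha : ∀ i, |(a i : ℝ)| ≤ H) (hb : ∀ i, |(b i : ℝ)| ≤ H) :
    US k 1 H 0 (ls a b) :=
  us_lf k a b H 0 (fun i => (h.pos i).ne') h.cop ha hb h.adm (fun i j t ht ht0 => by
    exfalso
    have : (1 : ℝ) ≤ t := by exact_mod_cast ht
    linarith)

/-- the upper bound for the density -/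
lemma lin_V (k : ℕ) (hk : 2 ≤ k) (A : ℝ) (hA : 0 < A) (r : ℕ) (hr2 : 2 ≤ r) : ∃ M : ℝ, 0 < M ∧
    ∀ᶠ X : ℕ in atTop, ∀ (a b : Fin k → ℤ), LF a b → (∀ i, |(a i : ℝ)| ≤ (X : ℝ) ^ A) →
      (∀ i, |(b i : ℝ)| ≤ (X : ℝ) ^ A) → Vq (Q (ls a b)) ⌊(X : ℝ) ^ (1 / (r : ℝ))⌋₊ ≤ M / Real.log X := by
  obtain ⟨A2, hA2⟩ : ∃ A2 : ℝ, A2 = A * (k + 1) + (1 + A * 3) * ((k + 1) ^ 2) := ⟨_, rfl⟩
  have hA20 : 0 < A2 := by rw [hA2]; positivity
  obtain ⟨M, hM, h⟩ := V2_up A2 hA20 r hr2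
  refine ⟨M, hM, ?_⟩
  filter_upwards [h, eventually_ge_atTop 6] with X hX hX6 a b hL haX hbX
  have hX6r : (6 : ℝ) ≤ X := by exact_mod_cast hX6
  have hX0 : (0 : ℝ) < X := by linarith
  have hH : (1 : ℝ) ≤ (X : ℝ) ^ A := Real.one_le_rpow (by linarith) hA.le
  have hne : (univ : Finset (Fin k)).Nonempty := ⟨⟨0, by omega⟩, mem_univ _⟩
  obtain ⟨i0, _, hmax⟩ := Finset.exists_max_image univ b hne
  have hmax' : ∀ j, b j ≤ b i0 := fun j => hmax j (mem_univ j)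
  refine hX (Q (ls a b)) (RU a b i0 1) (us_adm (lin_us hL _ haX hbX)) (RU_pos hL i0 hmax' 1 le_rfl) ?_ ?_
  · refine (RU_le i0 1 ((X : ℝ) ^ A) hH haX hbX (by push_cast; linarith)).trans ?_
    calc ((X : ℝ) ^ A) ^ (k + 1) * (6 * ((X : ℝ) ^ A) ^ 3) ^ ((k + 1) ^ 2) ≤
          ((X : ℝ) ^ A) ^ (k + 1) * (X * ((X : ℝ) ^ A) ^ 3) ^ ((k + 1) ^ 2) := by gcongr
      _ = (X : ℝ) ^ A2 := by
          rw [hA2, Real.rpow_add hX0, Real.rpow_mul hX0.le, Real.rpow_mul hX0.le, Real.rpow_add hX0,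
            Real.rpow_one, Real.rpow_mul hX0.le]
          norm_cast
  · intro p hp hpR
    have := nu_lower a b (Q (ls a b)) p hp (fun i => RU_slope i0 1 p hpR (some i))
      (fun i m hm => (ls_Q a b p m).2 ⟨i, hm⟩)
      (fun i j hij => RU_det i0 1 p hpR (some i) (some j) (fun h => hij (Option.some_inj.1 h)))
    rw [Fintype.card_fin] at this
    omega

/-- **The law for all admissible systems of linear forms.** -/
theorem law_lin (k : ℕ) (hk : 2 ≤ k) (A θ : ℝ) (hA : 0 < A) (hθ : 0 < θ) (J L : ℕ) (x0 ε : ℝ) (hε : 0 < ε) :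
    ∃ r0 : ℕ, ∀ r : ℕ, r0 ≤ r → ∀ᶠ X : ℕ in atTop, ∀ a b : Fin k → ℤ, LF a b →
      (∀ i, |(a i : ℝ)| ≤ (X : ℝ) ^ A) → (∀ i, |(b i : ℝ)| ≤ (X : ℝ) ^ A) →
      ∀ Z Y : ℕ, (X : ℝ) ^ θ ≤ Y → ∀ T : ℕ, T * Vq (Q (ls a b)) ⌊(X : ℝ) ^ (1 / (r : ℝ))⌋₊ ≤ x0 →
      ∀ S : Set ℕ, (∀ m ≤ Z + Y + T, (m ∈ S ↔ Sf (Q (ls a b)) ⌊(X : ℝ) ^ (1 / (r : ℝ))⌋₊ m)) →
        PoissonLaw S (Vq (Q (ls a b)) ⌊(X : ℝ) ^ (1 / (r : ℝ))⌋₊) J L ε Z Y T := by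
  obtain ⟨A3, hA3⟩ : ∃ A3 : ℝ, A3 = (2 + 2 * A) * (k * k) + 1 := ⟨_, rfl⟩
  have hA30 : 0 < A3 := by rw [hA3]; positivity
  obtain ⟨κ', hκ', r0, h⟩ := proc_unif_ex (k * 1 + 1) (k * k) (by omega) A3 1 θ hA30 one_pos hθ J L x0 ε hε
  refine ⟨max r0 2, fun r hr => ?_⟩
  have hr2 : 2 ≤ r := (le_max_right _ _).trans hr
  obtain ⟨M, hM, hV⟩ := lin_V k hk A hA r hr2
  filter_upwards [h r ((le_max_left _ _).trans hr) M, hV, lin_exc k (by omega) A hA r hr2 κ' hκ',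
    eventually_ge_atTop 3] with X hX hVX hexc hX3 a b hL haX hbX Z Y hY T hT S hS
  have hX3r : (3 : ℝ) ≤ X := by exact_mod_cast hX3
  have hX0 : (0 : ℝ) < X := by linarith
  have hX1 : (1 : ℝ) ≤ X := by linarith
  have hH : (1 : ℝ) ≤ (X : ℝ) ^ A := Real.one_le_rpow hX1 hA.le
  have hus := lin_us hL ((X : ℝ) ^ A) haX hbX
  apply law_of_pat hS
  intro B a' b' k' hw hk'
  refine hX (Q (ls a b)) (us_perB hus) (us_adm hus) (hVX a b hL haX hbX) (DF a b) (DF_card a b)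
    (fun t ht ht1 s => hexc a b hL haX hbX t ht1 (DF_le _ hbX t ht) s) ?_ Z Y hY T B a' b' k' hT hw hk'
  intro t ht1 htX htD
  rw [Real.rpow_one] at htX
  refine ⟨RS a b t, RS_pos hL t htD, ?_, fun p _ _ hc => RS_dvd t p hc⟩
  refine (RS_le t ((X : ℝ) ^ A) X hH hX1 haX hbX htX).trans ?_
  calc (3 * (((X : ℝ) ^ A) ^ 2 * X)) ^ (k * k) ≤ (X * (((X : ℝ) ^ A) ^ 2 * X)) ^ (k * k) := by gcongr
    _ = (X : ℝ) ^ ((2 + 2 * A) * (k * k)) := by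
        have e1 : (X : ℝ) ^ (2 + 2 * A) = X * (((X : ℝ) ^ A) ^ 2 * X) := by
          rw [Real.rpow_add hX0, mul_comm 2 A, Real.rpow_mul hX0.le, Real.rpow_two, Real.rpow_two]
          ring
        rw [Real.rpow_mul hX0.le, e1]
        norm_cast
    _ ≤ (X : ℝ) ^ A3 := Real.rpow_le_rpow_of_exponent_le hX1 (by rw [hA3]; linarith)

/-- **Regular points for all admissible systems of linear forms.** -/
theorem her_lin (k : ℕ) (hk : 2 ≤ k) (A θ : ℝ) (hA : 0 < A) (hθ : 0 < θ) :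
    ∃ r0 : ℕ, 2 ≤ r0 ∧ ∀ r : ℕ, r0 ≤ r → ∀ ε : ℝ, 0 < ε → ∃ κ : ℝ, 0 < κ ∧
      ∀ δ : ℝ, 0 < δ → ∃ M : ℕ, ∀ᶠ X : ℕ in atTop, ∀ a b : Fin k → ℤ, LF a b →
      (∀ i, |(a i : ℝ)| ≤ (X : ℝ) ^ A) → (∀ i, |(b i : ℝ)| ≤ (X : ℝ) ^ A) →
      ∀ u Y : ℕ, (X : ℝ) ^ θ ≤ Y → Y ≤ X → Y ≤ u →
      ∀ S : Set ℕ, (∀ m ∈ S, Sf (Q (ls a b)) ⌊(X : ℝ) ^ (1 / (r : ℝ))⌋₊ m) →
        (count (Irregular S (1 / Vq (Q (ls a b)) ⌊(X : ℝ) ^ (1 / (r : ℝ))⌋₊) κ δ M Y) u (u + Y) : ℝ) ≤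
          ε * (Y * Vq (Q (ls a b)) ⌊(X : ℝ) ^ (1 / (r : ℝ))⌋₊) := by
  obtain ⟨r0, hr0, h⟩ := hered_polys k 1 (k * k) A 1 θ hA one_pos hθ
  refine ⟨r0, hr0, fun r hr ε hε => ?_⟩
  obtain ⟨Cv, hCv, hV⟩ := lin_V k hk A hA r (hr0.trans hr)
  obtain ⟨κ, hκ, h1⟩ := h r hr Cv hCv ε hε
  refine ⟨κ, hκ, fun δ hδ => ?_⟩
  obtain ⟨M, h2⟩ := h1 δ hδ
  refine ⟨M, ?_⟩
  filter_upwards [h2, hV] with X hX hVX
  intro a b hL haX hbX u Y hY hYX hYu S hS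
  refine hX (ls a b) (lin_us hL _ haX hbX) (DF a b) (DF_card a b) ?_ (hVX a b hL haX hbX) u Y hY hYX hYu S hS
  intro i j t ht htU htD has
  have hno := DF_not hL t htD i j
  rcases lf_assoc _ _ _ _ _ has with h3 | h3
  · apply hno
    rw [← h3.2, h3.1]
    ring
  · have := hL.pos i
    have := hL.pos j
    linarith [h3.1]

end Pool.Agent.U832.RG
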