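import Pool.Agent.U832.RG.FixedUse
import Pool.Agent.TH464.PW.Quad

/-!
# The pairs `n`, `a n ^ 2 + b n + c`
-/

set_option autoImplicit false

namespace Pool.Agent.U832.RG

open Polynomial Finset Filter
open Pool.Agent.W123.RU.Poly Pool.Agent.TH464.PW Pool.Agent.Y879.GL

lemma noshift_two (f : Fin 2 → ℤ[X]) (h0 : ∀ i, (f i).natDegree ≠ 0)
    (h : (f 0).natDegree ≠ (f 1).natDegree) : NoShift f := by
  intro i j t ht h1
  by_cases hij : i = j
  · subst hij
    exact no_self (f i) (h0 i) t (by exact_mod_cast (by omega : t ≠ 0)) h1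
  · have h2 : (f i).natDegree = ((f j).comp (X + C (t : ℤ))).natDegree := by
      exact natDegree_eq_of_degree_eq (degree_eq_degree_of_associated h1)
    rw [natDegree_comp, natDegree_X_add_C, mul_one] at h2
    have h3 : (i = 0 ∧ j = 1) ∨ (i = 1 ∧ j = 0) := by omega
    rcases h3 with h3 | h3
    · rw [h3.1, h3.2] at h2
      exact h h2
    · rw [h3.1, h3.2] at h2
      exact h h2.symm

/-- the system -/
noncomputable def mix (a b c : ℤ) : Fin 2 → ℤ[X] := ![X, quad a b c]

lemma quad_eval (a b c x : ℤ) : (quad a b c).eval x = a * x ^ 2 + b * x + c := by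
  unfold quad
  simp

lemma mix_sys (a b c : ℤ) (ha : 0 < a)
    (hg : ∀ p : ℕ, p.Prime → ¬ ((p : ℤ) ∣ a ∧ (p : ℤ) ∣ b ∧ (p : ℤ) ∣ c))
    (hD : ¬ IsSquare (b ^ 2 - 4 * a * c))
    (hadm : ∀ p : ℕ, p.Prime → ∃ m : ℕ, ¬ (p : ℤ) ∣ m ∧ ¬ (p : ℤ) ∣ a * m ^ 2 + b * m + c) : Sys (mix a b c) where
  irr i := by
    fin_cases i
    · exact irreducible_X
    · exact quad_irr a b c ha.ne' hg hD
  deg i := by
    fin_cases i
    · simp [mix]
    · show 0 < (quad a b c).natDegree
      rw [quad_deg a b c ha.ne']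
      exact two_pos
  lead i := by
    fin_cases i
    · simp [mix]
    · show 0 < (quad a b c).leadingCoeff
      rw [quad_lead a b c ha.ne']
      exact ha
  inj i j h := by
    by_contra hij
    have h3 : (i = 0 ∧ j = 1) ∨ (i = 1 ∧ j = 0) := by omega
    have h4 := quad_deg a b c ha.ne'
    rcases h3 with h3 | h3
    · rw [h3.1, h3.2] at h
      have h5 : (X : ℤ[X]) = quad a b c := h
      rw [← h5, natDegree_X] at h4
      omega
    · rw [h3.1, h3.2] at h
      have h5 : quad a b c = (X : ℤ[X]) := h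
      rw [h5, natDegree_X] at h4
      omega
  adm p hp := by
    obtain ⟨m, h1, h2⟩ := hadm p hp
    refine ⟨m, fun i => ?_⟩
    fin_cases i
    · simpa [mix] using h1
    · show ¬ (p : ℤ) ∣ (quad a b c).eval (m : ℤ)
      rw [quad_eval]
      exact h2

lemma mix_noshift (a b c : ℤ) (ha : 0 < a) : NoShift (mix a b c) := by
  have h4 := quad_deg a b c ha.ne'
  apply noshift_two
  · intro i
    fin_cases i
    · simp [mix]
    · show (quad a b c).natDegree ≠ 0
      rw [h4]
      norm_num
  · show (X : ℤ[X]).natDegree ≠ (quad a b c).natDegree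
    rw [h4, natDegree_X]
    norm_num

end Pool.Agent.U832.RG
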