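import Pool.Agent.U832.RG.Defs

/-!
# Definitions: the Poisson law for several windows, seen from the primes of a set
-/

set_option autoImplicit false

namespace Pool.Agent.U832.RG

open Finset

/-- The product of `1 - 1 / p` over the primes `p ≤ y`. -/
noncomputable def mertens (y : ℕ) : ℝ := ∏ p ∈ (Icc 1 y).filter Nat.Prime, (1 - 1 / (p : ℝ))

open Classical in
/-- The number of the `n` in `(Z, Z + Y]` for which `n + s` is a prime number and an element of `S` and
`Counts S a b k n` holds: the number of the primes in `S` for which the windows around them contain the given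
numbers of elements of `S`. -/
noncomputable def aroundPrimes {J : ℕ} (S : Set ℕ) (s : ℕ) (a b k : Fin J → ℕ) (Z Y : ℕ) : ℕ :=
  ((Ioc Z (Z + Y)).filter (fun n => (n + s).Prime ∧ n + s ∈ S ∧ Counts S a b k n)).card

/-- The elements of `S` in disjoint windows are independent Poisson variables of density `V`, seen from the PRIMES
in `S`, for the `n` in `(Z, Z + Y]` and the windows up to `T`, with the error `ε`; the density of the primes in `S`
is `V / (mertens y * log X)`. -/
def PrimeLaw (S : Set ℕ) (V : ℝ) (y J L : ℕ) (ε : ℝ) (X Z Y T : ℕ) : Prop :=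
  ∀ (s : ℕ) (a b k : Fin J → ℕ), Windows T s a b → (∀ j, k j ≤ L) →
    |(aroundPrimes S s a b k Z Y : ℝ) * Real.log X -
        Y * (V / mertens y) * ∏ j, poisson (k j) ((b j - a j : ℕ) * V)| ≤ ε * (Y * (V / mertens y))

end Pool.Agent.U832.RG
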