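import Pool.Agent.U832.RG.ProcLaw
import Pool.Agent.Y879.PR.Count

set_option autoImplicit false

/-!
# Mixed binomial moments of several windows around primes
-/

namespace Pool.Agent.U832.RG

open Finset Filter
open Pool.Agent.W123.RP Pool.Agent.H373R2.T7 Pool.Agent.W123.RU Pool.Agent.TH464.PO Pool.Agent.Y879.PR

variable {J : ℕ}

lemma base_GG {a b c : ℕ} {Q : ℕ → ℕ → Prop} (h : Base a b c Q) (s : ℕ) (G : Finset ℕ) (hs : s ∈ G) (m : ℕ)
    (hm : G.card ≤ m) : Base a (b + a * s) (m * c) (QH Q G) := by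
  classical
  refine ⟨?_, ?_, ?_⟩
  · have h1 := perB_QH Q c h.per G
    exact ⟨h1.per, fun p hp => (h1.few p hp).trans (Nat.mul_le_mul_right c hm)⟩
  · rintro p n hp hpa ⟨g, _, hg⟩
    exact h.non p (n + g) hp hpa hg
  · intro p n hp hpa hn
    refine ⟨s, hs, h.base p (n + s) hp hpa ?_⟩
    rwa [show a * (n + s) + b = a * n + (b + a * s) by ring]

open Classical in
lemma om_GG (a b : ℕ) (Q : ℕ → ℕ → Prop) (y s u Y : ℕ) (H : Fin J → Finset ℕ) :
    Om a b (QH Q (GG {s} H)) y u Y =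
      (Om a b (QH Q {s}) y u Y).filter (fun n => ∀ h ∈ GG {s} H, Sf Q y (n + h)) := by
  ext n
  unfold Om
  rw [mem_filter, mem_filter, mem_filter, sf_QH, sf_QH]
  constructor
  · rintro ⟨h1, h2, h3⟩
    refine ⟨⟨h1, h2, fun h hh => h3 h (mem_union.2 (Or.inl hh))⟩, h3⟩
  · rintro ⟨⟨h1, h2, _⟩, h4⟩
    exact ⟨h1, h2, h4⟩

open Classical in
/-- mixed binomial moments as sums over the families of shifts -/
lemma mom_prime (a b : ℕ) (Q : ℕ → ℕ → Prop) (y s u Y : ℕ) (aw bw k : Fin J → ℕ) :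
    ∑ n ∈ Om a b (QH Q {s}) y u Y, ∏ j, ((Nj Q y (aw j) (bw j) n).choose (k j) : ℝ) =
      ∑ H ∈ Fam aw bw k, ((Om a b (QH Q (GG {s} H)) y u Y).card : ℝ) := by
  have h1 : ∀ H ∈ Fam aw bw k, ((Om a b (QH Q (GG {s} H)) y u Y).card : ℝ) =
      ∑ n ∈ Om a b (QH Q {s}) y u Y, if (∀ h ∈ GG {s} H, Sf Q y (n + h)) then (1 : ℝ) else 0 := by
    intro H _
    rw [om_GG, Finset.sum_ite, Finset.sum_const_zero, add_zero, Finset.sum_const, nsmul_eq_mul, mul_one]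
  rw [Finset.sum_congr rfl h1, Finset.sum_comm]
  apply Finset.sum_congr rfl
  intro m hm
  have h2 := count_fam {s} aw bw k (fun h => Sf Q y (m + h))
  have h3 : ∀ h ∈ ({s} : Finset ℕ), Sf Q y (m + h) := by
    unfold Om at hm
    rw [mem_filter, sf_QH] at hm
    exact hm.2.2
  rw [if_pos h3, one_mul] at h2
  exact h2.symm

open Classical in
/-- **Mixed binomial moments around primes.** -/
theorem moment_prime (a c : ℕ) (ha : Squarefree a) (k : Fin J → ℕ) (η δ : ℝ) (hη : 0 < η) (hη1 : η ≤ 1)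
    (hδ : 0 < δ) (hδ1 : δ ≤ 1) :
    ∃ (K T0 : ℕ) (η' : ℝ), 0 < η' ∧ ∀ U : ℕ, ∃ x0 : ℕ, ∀ X y T : ℕ, x0 ≤ y → y ^ K ≤ X → T0 ≤ T →
      ∀ (s : ℕ) (aw bw : Fin J → ℕ), Win T {s} aw bw → ∀ b : ℕ, b + a * s ≤ X → Nat.Coprime a b →
      ∀ Q : ℕ → ℕ → Prop, Base a b c Q → (∀ p : ℕ, p.Prime → nuB Q p < p) →
      (∀ t ∈ Icc 1 T, ((((pz y).filter (fun p : ℕ => T < p ∧ CoG Q p t)).card : ℕ) : ℝ) ≤ η' * T) →
      ∀ u Y : ℕ, δ * X ≤ u → δ * X ≤ Y → u + Y ≤ X →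
      |(∑ n ∈ Om a (b + a * s) (QH Q {s}) y u Y, ∏ j, ((Nj Q y (aw j) (bw j) n).choose (k j) : ℝ)) *
          Real.log X -
        Y / Vz y * (Vq Q y * ∏ j, (((bw j - aw j : ℕ) : ℝ) * Vq Q y) ^ k j / (k j).factorial)| ≤
        η * (Y / Vz y * (Vq Q y * (T * Vq Q y) ^ (∑ j, k j))) +
          (T : ℝ) ^ (∑ j, k j) * (X / Real.log X ^ U) := by
  obtain ⟨n, hn⟩ : ∃ n, n = ∑ j, k j := ⟨_, rfl⟩
  obtain ⟨K, hK, hcount⟩ := prime_count a ((n + 1) * c) ha (η / 4) δ (by positivity) (by linarith) hδ hδ1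
  obtain ⟨w, η', T0, hη', hsing⟩ := sing_multi c k (η / 4) (by positivity) (by linarith)
  refine ⟨K, T0, η', hη', ?_⟩
  intro U
  obtain ⟨x0, hx0⟩ := hcount U
  refine ⟨max x0 (max w 3), ?_⟩
  intro X y T hy hyX hT s aw bw hwin b hbX hab Q hQ hadm hlarge u Y hu hY huY
  have hy0 : x0 ≤ y := (le_max_left _ _).trans hy
  have hyw : w ≤ y := ((le_max_left _ _).trans (le_max_right _ _)).trans hy
  have hy3 : 3 ≤ y := ((le_max_right _ _).trans (le_max_right _ _)).trans hy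
  have hyX' : y ≤ X := (Nat.le_self_pow (by omega) y).trans hyX
  have hX1 : (1 : ℝ) ≤ X := by exact_mod_cast (by omega : 1 ≤ X)
  have hl0 : 0 ≤ Real.log X := Real.log_nonneg hX1
  have hs := hsing T hT Q hQ.per hadm y hyw hlarge {s} aw bw hwin
  rw [card_singleton, pow_one, ← hn] at hs
  rw [← hn]
  have hVz := Pool.Agent.Y879.PR.Vz_pos y
  obtain ⟨V, hV⟩ : ∃ V, V = Vq Q y := ⟨_, rfl⟩
  have hV0 : 0 ≤ V := by rw [hV]; exact Vq_nonneg Q y
  rw [← hV] at hs ⊢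
  obtain ⟨E, hE⟩ : ∃ E : ℝ, E = ∏ j, (((bw j - aw j : ℕ) : ℝ) * V) ^ k j / ((k j).factorial : ℝ) := ⟨_, rfl⟩
  rw [← hE] at hs ⊢
  have hE0 : 0 ≤ E := by rw [hE]; positivity
  have hElt : E ≤ (T * V) ^ n := by
    rw [hE, hn, ← Finset.prod_pow_eq_pow_sum]
    apply Finset.prod_le_prod
    · intro j _
      positivity
    · intro j _
      have hf1 : (1 : ℝ) ≤ (k j).factorial := by exact_mod_cast Nat.factorial_pos (k j)
      have hl : ((bw j - aw j : ℕ) : ℝ) ≤ T := by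
        have := hwin.bT j
        exact_mod_cast (by omega : bw j - aw j ≤ T)
      refine (div_le_self (by positivity) hf1).trans (pow_le_pow_left₀ (by positivity) ?_ _)
      exact mul_le_mul_of_nonneg_right hl hV0
  obtain ⟨S, hS⟩ : ∃ S, S = ∑ H ∈ Fam aw bw k, Vq (QH Q (GG {s} H)) y := ⟨_, rfl⟩
  rw [← hS] at hs
  obtain ⟨P, hP⟩ : ∃ P : ℝ, P = V * (T * V) ^ n := ⟨_, rfl⟩
  obtain ⟨F, hF⟩ : ∃ F : ℝ, F = V * E := ⟨_, rfl⟩
  rw [← hP, ← hF] at hs
  rw [← hP, ← hF]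
  have hP0 : 0 ≤ P := by rw [hP]; positivity
  have hFP : F ≤ P := by
    rw [hF, hP]
    exact mul_le_mul_of_nonneg_left hElt hV0
  have hF0 : 0 ≤ F := by rw [hF]; positivity
  obtain ⟨G, hG⟩ : ∃ G : ℝ, G = Y / Vz y := ⟨_, rfl⟩
  have hG0 : 0 ≤ G := by rw [hG]; exact div_nonneg (Nat.cast_nonneg _) hVz.le
  obtain ⟨R, hR⟩ : ∃ R : ℝ, R = X / Real.log X ^ U := ⟨_, rfl⟩
  have hR0 : 0 ≤ R := by rw [hR]; positivity
  rw [← hG, ← hR, mom_prime, Finset.sum_mul]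
  have hab' : Nat.Coprime a (b + a * s) := by
    rw [Nat.coprime_add_mul_left_right]
    exact hab
  have h1 : |∑ H ∈ Fam aw bw k, ((Om a (b + a * s) (QH Q (GG {s} H)) y u Y).card : ℝ) * Real.log X -
      G * S| ≤ η / 4 * (G * S) + (T : ℝ) ^ n * R := by
    have e : G * S = ∑ H ∈ Fam aw bw k, (Y : ℝ) * (Vq (QH Q (GG {s} H)) y / Vz y) := by
      rw [hG, hS, Finset.mul_sum]
      apply Finset.sum_congr rfl
      intros
      ring
    rw [e, ← Finset.sum_sub_distrib]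
    refine (Finset.abs_sum_le_sum_abs _ _).trans ?_
    have h2 : ∀ H ∈ Fam aw bw k,
        |((Om a (b + a * s) (QH Q (GG {s} H)) y u Y).card : ℝ) * Real.log X -
          (Y : ℝ) * (Vq (QH Q (GG {s} H)) y / Vz y)| ≤
        η / 4 * (Y * (Vq (QH Q (GG {s} H)) y / Vz y)) + R := by
      intro H hH
      have hb := base_GG hQ s (GG {s} H) (mem_union.2 (Or.inl (mem_singleton_self s))) (n + 1) (by
        rw [GG_card hwin hH, card_singleton, ← hn, add_comm])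
      rw [hR]
      exact hx0 X y hy0 hyX (b + a * s) hbX hab' (QH Q (GG {s} H)) hb u Y hu hY huY
    refine (Finset.sum_le_sum h2).trans ?_
    rw [Finset.sum_add_distrib, ← Finset.mul_sum, Finset.sum_const, nsmul_eq_mul]
    have h3 := fam_card_le (k := k) hwin
    rw [← hn] at h3
    have h4 := mul_le_mul_of_nonneg_right h3 hR0
    linarith
  have h5 : |G * S - G * F| ≤ η / 4 * (G * P) := by
    rw [← mul_sub, abs_mul, abs_of_nonneg hG0]
    calc G * |S - F| ≤ G * (η / 4 * P) := mul_le_mul_of_nonneg_left hs hG0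
      _ = _ := by ring
  have hGP : 0 ≤ G * P := mul_nonneg hG0 hP0
  have h6 : G * S ≤ 2 * (G * P) := by
    have h7 := (abs_le.1 h5).2
    have h9 : G * F ≤ G * P := mul_le_mul_of_nonneg_left hFP hG0
    nlinarith
  have h9 := abs_sub_le (∑ H ∈ Fam aw bw k,
      ((Om a (b + a * s) (QH Q (GG {s} H)) y u Y).card : ℝ) * Real.log X) (G * S) (G * F)
  have h10 : η / 4 * (G * S) ≤ η / 4 * (2 * (G * P)) :=
    mul_le_mul_of_nonneg_left h6 (by positivity)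
  have h11 : 0 ≤ η * (G * P) := by positivity
  calc _ ≤ _ := h9
    _ ≤ η / 4 * (2 * (G * P)) + (T : ℝ) ^ n * R + η / 4 * (G * P) := by linarith
    _ ≤ _ := by linarith

end Pool.Agent.U832.RG
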