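import Pool.Agent.U832.RG.PrimeMom
import Pool.Agent.TH464.PW.Input

set_option autoImplicit false

/-!
# The joint law of several windows around primes
-/

namespace Pool.Agent.U832.RG

open Finset Filter
open Pool.Agent.W123.RP Pool.Agent.H373R2.T7 Pool.Agent.W123.RU Pool.Agent.TH464.PO Pool.Agent.Y879.PR

variable {J : ℕ}

open Classical in
/-- the number of the `n` in `(u, u + Y]` with `a (n + s) + b` prime and a given pattern of windows -/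
noncomputable def PatP (a b : ℕ) (Q : ℕ → ℕ → Prop) (y s : ℕ) (aw bw k : Fin J → ℕ) (u Y : ℕ) : ℕ :=
  ((Om a (b + a * s) (QH Q {s}) y u Y).filter (fun n => ∀ j, Nj Q y (aw j) (bw j) n = k j)).card

open Classical in
/-- **The joint law of several windows around primes.** -/
theorem prime_proc (a c C : ℕ) (ha : Squarefree a) (J L : ℕ) (x0 ε δ : ℝ) (hε : 0 < ε)
    (hδ : 0 < δ) (hδ1 : δ ≤ 1) :
    ∃ (K y0 T0 : ℕ) (η' κ x1 : ℝ), 0 < η' ∧ 0 < κ ∧ 0 < x1 ∧ ∀ X y : ℕ, y0 ≤ y → y ^ K ≤ X →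
      ∀ b : ℕ, 2 * b ≤ X → Nat.Coprime a b → ∀ Q : ℕ → ℕ → Prop, Base a b c Q →
      (∀ p : ℕ, p.Prime → nuB Q p < p) → 1 / Real.log X ^ C ≤ Vq Q y → Vq Q y ≤ κ →
      (∀ T : ℕ, κ ≤ T * Vq Q y → T * Vq Q y ≤ x1 → T0 ≤ T ∧ ∀ t ∈ Icc 1 T,
        ((((pz y).filter (fun p : ℕ => T < p ∧ CoG Q p t)).card : ℕ) : ℝ) ≤ η' * T) →
      ∀ u Y : ℕ, δ * X ≤ u → δ * X ≤ Y → u + Y ≤ X →
      ∀ (T s : ℕ) (aw bw k : Fin J → ℕ), T * Vq Q y ≤ x0 → Win T {s} aw bw → (∀ j, k j ≤ L) →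
      |(PatP a b Q y s aw bw k u Y : ℝ) * Real.log X -
        Y * (Vq Q y / Vz y) * ∏ j, po (k j) (((bw j - aw j : ℕ) : ℝ) * Vq Q y)| ≤
        ε * (Y * (Vq Q y / Vz y)) := by
  obtain ⟨X0, hX0⟩ : ∃ X0 : ℝ, X0 = max x0 1 := ⟨_, rfl⟩
  have hX1 : 1 ≤ X0 := by rw [hX0]; exact le_max_right _ _
  have hxX : x0 ≤ X0 := by rw [hX0]; exact le_max_left _ _
  obtain ⟨R, η, hη, hlaw⟩ := multi_law J X0 1 ε (by linarith) zero_le_one hε L
  obtain ⟨η1, hη1⟩ : ∃ η1 : ℝ, η1 = min 1 (η / (2 * X0 ^ (J * R))) := ⟨_, rfl⟩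
  have hη10 : 0 < η1 := by rw [hη1]; positivity
  have hη11 : η1 ≤ 1 := by rw [hη1]; exact min_le_left _ _
  have hη12 : η1 * X0 ^ (J * R) ≤ η / 2 := by
    have : η1 ≤ η / (2 * X0 ^ (J * R)) := by rw [hη1]; exact min_le_right _ _
    rw [le_div_iff₀ (by positivity)] at this
    linarith
  choose K0 T0 η' hη' hmom using fun k : Fin J → ℕ => moment_prime a c ha k η1 δ hη10 hη11 hδ hδ1
  obtain ⟨U, hU⟩ : ∃ U : ℕ, U = C * (J * R) + C + 1 := ⟨_, rfl⟩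
  choose y0 hy0 using fun k => hmom k U
  obtain ⟨KK, hKK⟩ : ∃ KK : Finset (Fin J → ℕ), KK = Fintype.piFinset (fun _ => range (R + 1)) := ⟨_, rfl⟩
  have hη0 : ∃ η0 : ℝ, 0 < η0 ∧ ∀ k ∈ KK, η0 ≤ η' k := by
    have hne : KK.Nonempty := ⟨fun _ => 0, by
      rw [hKK, Fintype.mem_piFinset]
      intro j
      rw [mem_range]
      omega⟩
    obtain ⟨k0, hk0, hmin⟩ := Finset.exists_min_image KK η' hne
    exact ⟨η' k0, hη' k0, hmin⟩
  obtain ⟨η0, hη00, hη0⟩ := hη0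
  have hlogX : Tendsto (fun X : ℕ => Real.log (X : ℝ)) atTop atTop :=
    Real.tendsto_log_atTop.comp tendsto_natCast_atTop_atTop
  have hq : (0 : ℝ) < 2 * a * X0 + 1 := by positivity
  obtain ⟨Z1, hZ1⟩ := eventually_atTop.1 (((hlogX.eventually_ge_atTop (2 * X0 ^ (J * R) / (η * δ))).and
    (hlogX.eventually_ge_atTop 1)).and (Pool.Agent.TH464.PW.logpow_rpow C (2 * a * X0 + 1) 1 hq one_pos))
  refine ⟨(∑ k ∈ KK, K0 k) + 1, (∑ k ∈ KK, y0 k) + Z1 + 3, (∑ k ∈ KK, T0 k) + 1, η0, 1 / 2, X0,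
    hη00, by norm_num, by linarith, ?_⟩
  intro X y hy hyX b hbX hab Q hQ hadm hVlow hVκ hT u Y hu hY huY T s aw bw k hTx hwin hk
  have hy3 : 3 ≤ y := by omega
  have hy1' : 1 ≤ y := by omega
  have hyX' : y ≤ X := (Nat.le_self_pow (by omega) y).trans hyX
  obtain ⟨⟨z1, z2⟩, z3⟩ := hZ1 X (by omega)
  rw [Real.rpow_one] at z3
  obtain ⟨l, hl⟩ : ∃ l, l = Real.log X := ⟨_, rfl⟩
  rw [← hl] at z1 z2 z3 hVlow ⊢
  have hl0 : 0 < l := by linarith
  obtain ⟨V, hV⟩ : ∃ V, V = Vq Q y := ⟨_, rfl⟩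
  have hVpos : 0 < V := by rw [hV]; exact Vq_pos Q hadm y
  rw [← hV] at hTx hT hVκ hVlow ⊢
  have hVz := Pool.Agent.Y879.PR.Vz_pos y
  have hVz1 := Pool.Agent.Y879.PR.Vz_le_one y
  obtain ⟨M, hM⟩ : ∃ M : ℝ, M = Y * (V / Vz y) := ⟨_, rfl⟩
  have hXr : (1 : ℝ) ≤ X := by exact_mod_cast (by omega : 1 ≤ X)
  have hYr : 0 < (Y : ℝ) := lt_of_lt_of_le (by positivity) hY
  have hM0 : 0 < M := by rw [hM]; positivity
  have hMlow : δ * X * (1 / l ^ C) ≤ M := by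
    rw [hM]
    apply mul_le_mul hY _ (by positivity) hYr.le
    refine hVlow.trans ?_
    rw [le_div_iff₀ hVz]
    nlinarith
  obtain ⟨T', hT'⟩ : ∃ T' : ℕ, T' = ⌊X0 / V⌋₊ := ⟨_, rfl⟩
  have hXV : 0 ≤ X0 / V := by positivity
  have hT'1 : (T' : ℝ) * V ≤ X0 := by
    have h1 : (T' : ℝ) ≤ X0 / V := by rw [hT']; exact Nat.floor_le hXV
    rwa [le_div_iff₀ hVpos] at h1
  have hT'2 : 1 / 2 ≤ (T' : ℝ) * V := by
    have h1 : X0 / V < T' + 1 := by rw [hT']; exact Nat.lt_floor_add_one _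
    rw [div_lt_iff₀ hVpos] at h1
    linarith
  have hTT' : T ≤ T' := by
    rw [hT']
    apply Nat.le_floor
    rw [le_div_iff₀ hVpos]
    linarith
  obtain ⟨hT0, hlarge⟩ := hT T' hT'2 hT'1
  have hwin' := hwin.mono hTT'
  have hT0r : (0 : ℝ) ≤ T' := Nat.cast_nonneg _
  have hTup : (T' : ℝ) ≤ X0 * l ^ C := by
    have h1 : (T' : ℝ) * (1 / l ^ C) ≤ X0 := (mul_le_mul_of_nonneg_left hVlow hT0r).trans hT'1
    rwa [mul_one_div, div_le_iff₀ (by positivity)] at h1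
  have hlC : 1 ≤ l ^ C := one_le_pow₀ z2
  -- the shifted constant term
  have hsT : s ≤ T' := hwin'.base s (mem_singleton_self s)
  have hbs : b + a * s ≤ X := by
    have h1 : (2 * (a * s) : ℝ) ≤ X := by
      have h2 : (s : ℝ) ≤ X0 * l ^ C := le_trans (by exact_mod_cast hsT) hTup
      have ha0 : (0 : ℝ) ≤ a := Nat.cast_nonneg _
      calc (2 * (a * s) : ℝ) ≤ 2 * (a * (X0 * l ^ C)) := by gcongr
        _ = (2 * a * X0) * l ^ C := by ring
        _ ≤ (2 * a * X0 + 1) * l ^ C := by gcongr; linarith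
        _ ≤ X := z3
    have h3 : 2 * (a * s) ≤ X := by exact_mod_cast h1
    omega
  -- the error terms
  have hEk : ∀ n ≤ J * R, (T' : ℝ) ^ n * (X / l ^ U) ≤ η / 2 * M := by
    intro n hn
    have hb1 : 1 ≤ X0 * l ^ C := by nlinarith
    have h1 : (T' : ℝ) ^ n ≤ (X0 * l ^ C) ^ (J * R) := by
      calc (T' : ℝ) ^ n ≤ (X0 * l ^ C) ^ n := pow_le_pow_left₀ hT0r hTup _
        _ ≤ (X0 * l ^ C) ^ (J * R) := pow_le_pow_right₀ hb1 hn
    have h2 : 2 * X0 ^ (J * R) ≤ l * (η * δ) := by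
      rwa [div_le_iff₀ (by positivity)] at z1
    calc (T' : ℝ) ^ n * (X / l ^ U) ≤ (X0 * l ^ C) ^ (J * R) * (X / l ^ U) := by gcongr
      _ = (2 * X0 ^ (J * R)) * (l ^ (C * (J * R)) * X / l ^ U) / 2 := by rw [mul_pow, ← pow_mul]; ring
      _ ≤ (l * (η * δ)) * (l ^ (C * (J * R)) * X / l ^ U) / 2 := by gcongr
      _ = η / 2 * (δ * X * (1 / l ^ C)) := by
          rw [hU, pow_add, pow_add, pow_one]
          field_simp
      _ ≤ η / 2 * M := by gcongr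
  have hlen : ∀ j, ((bw j - aw j : ℕ) : ℝ) ≤ T' := by
    intro j
    have := hwin'.bT j
    exact_mod_cast (by omega : bw j - aw j ≤ T')
  have hmain := hlaw (Om a (b + a * s) (QH Q {s}) y u Y) (fun _ => l) (fun j => Nj Q y (aw j) (bw j))
    M M (fun j => ((bw j - aw j : ℕ) : ℝ) * V) hM0.le (fun _ _ => hl0.le) (fun j => by positivity)
    (fun j => (mul_le_mul_of_nonneg_right (hlen j) hVpos.le).trans hT'1) hM0.le (by linarith) ?_ k hk
  · have e : ∑ n ∈ Om a (b + a * s) (QH Q {s}) y u Y,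
        l * (if ∀ j, Nj Q y (aw j) (bw j) n = k j then (1 : ℝ) else 0) =
        (PatP a b Q y s aw bw k u Y : ℝ) * l := by
      rw [← Finset.mul_sum, Finset.sum_ite, Finset.sum_const_zero, add_zero, Finset.sum_const,
        nsmul_eq_mul, mul_one, mul_comm]
      rfl
    rw [e] at hmain
    rw [← hM]
    exact hmain
  · intro m hm
    have hmK : m ∈ KK := by
      rw [hKK, Fintype.mem_piFinset]
      intro j
      rw [mem_range]
      have := hm j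
      omega
    have hKk : K0 m ≤ ∑ k ∈ KK, K0 k := Finset.single_le_sum (fun _ _ => Nat.zero_le _) hmK
    have hyk : y0 m ≤ ∑ k ∈ KK, y0 k := Finset.single_le_sum (fun _ _ => Nat.zero_le _) hmK
    have hTk : T0 m ≤ ∑ k ∈ KK, T0 k := Finset.single_le_sum (fun _ _ => Nat.zero_le _) hmK
    have h1 := hy0 m X y T' (by omega)
      ((Nat.pow_le_pow_right hy1' (by omega)).trans hyX) (by omega) s aw bw hwin' b hbs hab Q hQ hadm
      (fun t ht => (hlarge t ht).trans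
        (mul_le_mul_of_nonneg_right (hη0 m hmK) (Nat.cast_nonneg _))) u Y hu hY huY
    rw [← hl, ← hV] at h1
    have hn : ∑ j, m j ≤ J * R := by
      calc ∑ j, m j ≤ ∑ _j : Fin J, R := Finset.sum_le_sum fun j _ => hm j
        _ = J * R := by simp
    have e1 : ∑ n ∈ Om a (b + a * s) (QH Q {s}) y u Y,
        l * ∏ j, ((Nj Q y (aw j) (bw j) n).choose (m j) : ℝ) =
        (∑ n ∈ Om a (b + a * s) (QH Q {s}) y u Y,
          ∏ j, ((Nj Q y (aw j) (bw j) n).choose (m j) : ℝ)) * l := by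
      rw [Finset.sum_mul]
      exact Finset.sum_congr rfl fun _ _ => mul_comm _ _
    have e2 : (Y : ℝ) / Vz y * (V * ∏ j, (((bw j - aw j : ℕ) : ℝ) * V) ^ m j / ((m j).factorial : ℝ)) =
        M * ∏ j, ((((bw j - aw j : ℕ) : ℝ) * V) ^ m j / ((m j).factorial : ℝ)) := by
      rw [hM]; ring
    rw [e2] at h1
    rw [e1]
    refine h1.trans ?_
    have h2 : ((T' : ℝ) * V) ^ (∑ j, m j) ≤ X0 ^ (J * R) := by
      calc ((T' : ℝ) * V) ^ (∑ j, m j) ≤ X0 ^ (∑ j, m j) := pow_le_pow_left₀ (by positivity) hT'1 _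
        _ ≤ X0 ^ (J * R) := pow_le_pow_right₀ hX1 hn
    have h3 := hEk _ hn
    have h4 : η1 * (Y / Vz y * (V * ((T' : ℝ) * V) ^ (∑ j, m j))) ≤ η / 2 * M := by
      calc η1 * (Y / Vz y * (V * ((T' : ℝ) * V) ^ (∑ j, m j))) = η1 * (M * ((T' : ℝ) * V) ^ (∑ j, m j)) := by
            rw [hM]; ring
        _ ≤ η1 * (M * X0 ^ (J * R)) := by gcongr
        _ = (η1 * X0 ^ (J * R)) * M := by ring
        _ ≤ η / 2 * M := mul_le_mul_of_nonneg_right hη12 hM0.le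
    linarith

end Pool.Agent.U832.RG
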