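import Pool.Agent.U832.RG.PrimeUse
import Pool.Agent.U832.RG.Slopes

/-!
# Linear forms with distinct slopes, one of them `n`: the law around primes
-/

set_option autoImplicit false

namespace Pool.Agent.U832.RG

open Polynomial Finset Filter
open Pool.Agent.W123.RP Pool.Agent.H373R2.T7 Pool.Agent.W123.RU Pool.Agent.W123.RU.Poly
open Pool.Agent.TH464.PW Pool.Agent.TH464.PO Pool.Agent.Y879.GL

/-- **The law around primes for linear forms with distinct slopes.** -/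
theorem plaw_ls (k : ℕ) (hk : 2 ≤ k) (A θ δ : ℝ) (hA : 0 < A) (hθ : 0 < θ) (hδ : 0 < δ) (hδ1 : δ ≤ 1)
    (J L : ℕ) (x0 ε : ℝ) (hε : 0 < ε) :
    ∃ r0 : ℕ, ∀ r : ℕ, r0 ≤ r → ∀ᶠ N : ℕ in atTop, ∀ a b : Fin k → ℤ, LS a b →
      (∀ i, |(a i : ℝ)| ≤ (N : ℝ) ^ A) → (∀ i, |(b i : ℝ)| ≤ (N : ℝ) ^ A) →
      (∃ i, ∀ n : ℕ, (ls a b i).eval (n : ℤ) = n) →
      ∀ X Z Y : ℕ, (N : ℝ) ^ θ ≤ X → δ * X ≤ Z → δ * X ≤ Y → Z + Y ≤ X →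
      ∀ T : ℕ, T * Vq (Q (ls a b)) ⌊(N : ℝ) ^ (1 / (r : ℝ))⌋₊ ≤ x0 →
      ∀ S : Set ℕ, (∀ m ≤ Z + Y + T, (m ∈ S ↔ Sf (Q (ls a b)) ⌊(N : ℝ) ^ (1 / (r : ℝ))⌋₊ m)) →
        PrimeLaw S (Vq (Q (ls a b)) ⌊(N : ℝ) ^ (1 / (r : ℝ))⌋₊) ⌊(N : ℝ) ^ (1 / (r : ℝ))⌋₊ J L ε X Z Y T := by
  obtain ⟨r0, h⟩ := plaw_polys k 1 A 1 θ δ hA one_pos hθ hδ hδ1 J L x0 ε hε
  refine ⟨max r0 2, fun r hr => ?_⟩
  obtain ⟨M, hM, hV⟩ := ls_V A hA r ((le_max_right _ _).trans hr)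
  filter_upwards [h r ((le_max_left _ _).trans hr) M, hV] with N hN hVN a b hL haN hbN hbase
  exact hN (ls a b) (ls_us hL _ _ haN hbN) hbase (hVN k a b hk hL haN hbN)

end Pool.Agent.U832.RG
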