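import Pool.Agent.U832.RG.Fam

/-!
# The average of the singular series over one base point and several windows
-/

set_option autoImplicit false

namespace Pool.Agent.U832.RG

open Finset Filter
open Pool.Agent.W123.RP Pool.Agent.H373R2.T7 Pool.Agent.W123.RU Pool.Agent.TH464.PO

variable {J : ℕ}

/-- the density of the base -/
lemma Vq_base (Q : ℕ → ℕ → Prop) (c : ℕ) (hQ : PerB Q c) (B : Finset ℕ) (hB : B.card ≤ 1) (y : ℕ) :
    Vq (QH Q B) y = Vq Q y ^ B.card := by
  rcases Finset.card_le_one_iff_subset_singleton.1 hB with ⟨s, hs⟩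
  rcases Finset.subset_singleton_iff.1 hs with hB | hB
  · rw [hB, card_empty, pow_zero]
    unfold Vq
    apply Finset.prod_eq_one
    intro p _
    have : nuB (QH Q ∅) p = 0 := by
      classical
      unfold nuB
      rw [Finset.card_eq_zero, Finset.filter_eq_empty_iff]
      intro r _ h
      obtain ⟨h, hh, _⟩ := h
      simp at hh
    rw [this]
    simp
  · rw [hB, card_singleton, pow_one, ← Vq_Qt Q c hQ s y]
    have : QH Q {s} = Qt Q s := by
      funext p m
      apply propext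
      unfold QH Qt
      simp
    rw [this]

/-- a product of close numbers -/
lemma prod_close {ι : Type*} (S : Finset ι) (T : ℝ) (hT : 0 ≤ T) (u v A d : ι → ℝ) (hu : ∀ i ∈ S, 0 ≤ u i)
    (huA : ∀ i ∈ S, u i ≤ A i) (hv : ∀ i ∈ S, 0 ≤ v i) (hvA : ∀ i ∈ S, v i ≤ A i)
    (h : ∀ i ∈ S, T * |u i - v i| ≤ d i * A i) :
    T * |∏ i ∈ S, u i - ∏ i ∈ S, v i| ≤ (∑ i ∈ S, d i) * ∏ i ∈ S, A i := by
  classical
  induction S using Finset.induction_on with
  | empty => simp
  | insert i S hi ih =>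
    rw [Finset.prod_insert hi, Finset.prod_insert hi, Finset.prod_insert hi, Finset.sum_insert hi]
    have h1 := ih (fun j hj => hu j (mem_insert_of_mem hj)) (fun j hj => huA j (mem_insert_of_mem hj))
      (fun j hj => hv j (mem_insert_of_mem hj)) (fun j hj => hvA j (mem_insert_of_mem hj))
      (fun j hj => h j (mem_insert_of_mem hj))
    have h2 := h i (mem_insert_self i S)
    have hA0 : ∀ j ∈ insert i S, 0 ≤ A j := fun j hj => (hu j hj).trans (huA j hj)
    have hP : 0 ≤ ∏ j ∈ S, u j := Finset.prod_nonneg fun j hj => hu j (mem_insert_of_mem hj)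
    have hPA : ∏ j ∈ S, u j ≤ ∏ j ∈ S, A j :=
      Finset.prod_le_prod (fun j hj => hu j (mem_insert_of_mem hj)) (fun j hj => huA j (mem_insert_of_mem hj))
    have hv0 := hv i (mem_insert_self i S)
    have hvA0 := hvA i (mem_insert_self i S)
    have hdA : 0 ≤ d i * A i := (by positivity : (0 : ℝ) ≤ T * |u i - v i|).trans h2
    have e : u i * ∏ j ∈ S, u j - v i * ∏ j ∈ S, v j =
        (u i - v i) * ∏ j ∈ S, u j + v i * (∏ j ∈ S, u j - ∏ j ∈ S, v j) := by ring
    have h3 : |u i * ∏ j ∈ S, u j - v i * ∏ j ∈ S, v j| ≤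
        |u i - v i| * ∏ j ∈ S, u j + v i * |∏ j ∈ S, u j - ∏ j ∈ S, v j| := by
      rw [e]
      refine (abs_add_le _ _).trans (le_of_eq ?_)
      rw [abs_mul, abs_mul, abs_of_nonneg hP, abs_of_nonneg hv0]
    calc T * |u i * ∏ j ∈ S, u j - v i * ∏ j ∈ S, v j| ≤
        T * (|u i - v i| * ∏ j ∈ S, u j + v i * |∏ j ∈ S, u j - ∏ j ∈ S, v j|) :=
          mul_le_mul_of_nonneg_left h3 hT
      _ = (T * |u i - v i|) * ∏ j ∈ S, u j + v i * (T * |∏ j ∈ S, u j - ∏ j ∈ S, v j|) := by ring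
      _ ≤ (d i * A i) * ∏ j ∈ S, A j + A i * ((∑ j ∈ S, d j) * ∏ j ∈ S, A j) := by
          apply add_le_add
          · exact mul_le_mul h2 hPA hP hdA
          · exact mul_le_mul hvA0 h1 (by positivity) (hv0.trans hvA0)
      _ = _ := by ring

/-- a binomial coefficient -/
lemma choose_close (M T x : ℝ) (N k : ℕ) (hM : 0 ≤ M) (hT : 0 ≤ T) (h : |(N : ℝ) - x| ≤ M) (hx : 0 ≤ x)
    (hxT : x ≤ T) (hN : (N : ℝ) ≤ T) :
    T * |(N.choose k : ℝ) - x ^ k / k.factorial| ≤ k * (M + k) * T ^ k := by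
  induction k with
  | zero => simp
  | succ k ih =>
    have hk1 : (0 : ℝ) < (k : ℝ) + 1 := by positivity
    have e1 : (N.choose (k + 1) : ℝ) * (k + 1) = N.choose k * ((N : ℝ) - k) := by
      rcases Nat.lt_or_ge N k with hlt | hge
      · rw [Nat.choose_eq_zero_of_lt hlt, Nat.choose_eq_zero_of_lt (by omega : N < k + 1)]
        simp
      · have h1 := Nat.choose_succ_right_eq N k
        have h2 : ((N.choose (k + 1) * (k + 1) : ℕ) : ℝ) = ((N.choose k * (N - k) : ℕ) : ℝ) := by rw [h1]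
        push_cast [Nat.cast_sub hge] at h2
        exact h2
    have e2 : x ^ (k + 1) / ((k + 1).factorial : ℝ) * (k + 1) = x ^ k / k.factorial * x := by
      rw [Nat.factorial_succ, pow_succ]
      push_cast
      field_simp
    have hC : (N.choose k : ℝ) ≤ T ^ k := by
      have h1 : (N.choose k : ℝ) ≤ (N : ℝ) ^ k := by exact_mod_cast Nat.choose_le_pow N k
      exact h1.trans (pow_le_pow_left₀ (Nat.cast_nonneg _) hN _)
    have h3 : |(N.choose k : ℝ) * ((N : ℝ) - k) - x ^ k / k.factorial * x| ≤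
        |(N.choose k : ℝ) - x ^ k / k.factorial| * T + T ^ k * (M + k) := by
      have e : (N.choose k : ℝ) * ((N : ℝ) - k) - x ^ k / k.factorial * x =
          ((N.choose k : ℝ) - x ^ k / k.factorial) * x + N.choose k * ((N : ℝ) - x - k) := by ring
      rw [e]
      refine (abs_add_le _ _).trans (add_le_add ?_ ?_)
      · rw [abs_mul, abs_of_nonneg hx]
        exact mul_le_mul_of_nonneg_left hxT (abs_nonneg _)
      · rw [abs_mul, Nat.abs_cast]
        apply mul_le_mul hC _ (abs_nonneg _) (by positivity)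
        refine (abs_sub _ _).trans ?_
        rw [Nat.abs_cast]
        linarith
    have h4 : ((k : ℝ) + 1) * (T * |(N.choose (k + 1) : ℝ) - x ^ (k + 1) / (k + 1).factorial|) ≤
        ((k : ℝ) + 1) * ((M + k) * T ^ (k + 1)) := by
      have e3 : ((k : ℝ) + 1) * |(N.choose (k + 1) : ℝ) - x ^ (k + 1) / (k + 1).factorial| =
          |(N.choose k : ℝ) * ((N : ℝ) - k) - x ^ k / k.factorial * x| := by
        rw [← e1, ← e2, ← sub_mul, abs_mul, abs_of_pos hk1]
        ring
      calc ((k : ℝ) + 1) * (T * |(N.choose (k + 1) : ℝ) - x ^ (k + 1) / (k + 1).factorial|) =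
          T * (((k : ℝ) + 1) * |(N.choose (k + 1) : ℝ) - x ^ (k + 1) / (k + 1).factorial|) := by ring
        _ ≤ T * (|(N.choose k : ℝ) - x ^ k / k.factorial| * T + T ^ k * (M + k)) := by
            rw [e3]
            exact mul_le_mul_of_nonneg_left h3 hT
        _ = (T * |(N.choose k : ℝ) - x ^ k / k.factorial|) * T + T ^ (k + 1) * (M + k) := by ring
        _ ≤ (k * (M + k) * T ^ k) * T + T ^ (k + 1) * (M + k) := by
            have := mul_le_mul_of_nonneg_right ih hT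
            linarith
        _ = _ := by ring
    have h5 := le_of_mul_le_mul_left h4 hk1
    refine h5.trans ?_
    have h6 : 0 ≤ T ^ (k + 1) := by positivity
    push_cast
    have hk0 : (0 : ℝ) ≤ k := Nat.cast_nonneg k
    have h7 : M + k ≤ (k + 1) * (M + (k + 1)) := by nlinarith
    exact mul_le_mul_of_nonneg_right h7 h6

open Classical in
/-- the number of sifted integers in a window -/
lemma window' (Q : ℕ → ℕ → Prop) (c : ℕ) (hQ : PerB Q c) (w m a b : ℕ) :
    |((((Ioc a b).filter (fun h => Sf Q w (m + h))).card : ℕ) : ℝ) - (b - a : ℕ) * Vq Q w| ≤ Mw w := by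
  have h := window Q c hQ w (m + a) (b - a)
  have e : ((Ioc a b).filter (fun h => Sf Q w (m + h))).card =
      ((Icc 1 (b - a)).filter (fun h => Sf Q w (m + a + h))).card := by
    symm
    apply Finset.card_bij (fun h _ => a + h)
    · intro h hh
      rw [mem_filter, mem_Icc] at hh
      rw [mem_filter, mem_Ioc, ← add_assoc]
      exact ⟨by omega, hh.2⟩
    · intro x _ y _ hxy
      omega
    · intro h hh
      rw [mem_filter, mem_Ioc] at hh
      refine ⟨h - a, ?_, by omega⟩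
      rw [mem_filter, mem_Icc, show m + a + (h - a) = m + h by omega]
      exact ⟨by omega, hh.2⟩
  rw [e]
  exact h

open Classical in
/-- **The small primes.** -/
lemma small_multi (k : Fin J → ℕ) (w : ℕ) : ∃ D : ℝ, 0 ≤ D ∧ ∀ (T : ℕ) (Q : ℕ → ℕ → Prop) (c : ℕ),
    PerB Q c → ∀ (B : Finset ℕ) (a b : Fin J → ℕ), Win T B a b →
    T * |∑ H ∈ Fam a b k, Vq (QH Q (GG B H)) w -
      Vq Q w ^ B.card * ∏ j, (((b j - a j : ℕ) : ℝ) * Vq Q w) ^ k j / (k j).factorial| ≤
      D * (Vq Q w ^ B.card * (T : ℝ) ^ (∑ j, k j)) := by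
  refine ⟨∑ j, (k j : ℝ) * ((Mw w : ℝ) + k j), by positivity, ?_⟩
  intro T Q c hQ B a b hw
  obtain ⟨M, hM⟩ : ∃ M, M = Mw w := ⟨_, rfl⟩
  have hMpos : 0 < M := by rw [hM]; exact Mw_pos w
  have hMr : (0 : ℝ) < M := by exact_mod_cast hMpos
  obtain ⟨W, hW⟩ : ∃ W, W = Vq Q w := ⟨_, rfl⟩
  have hW0 : 0 ≤ W := by rw [hW]; exact Vq_nonneg Q w
  have hW1 : W ≤ 1 := by rw [hW]; exact Vq_le_one Q w
  have hT0 : (0 : ℝ) ≤ T := Nat.cast_nonneg T
  obtain ⟨E, hE⟩ : ∃ E : ℝ, E = ∏ j, (((b j - a j : ℕ) : ℝ) * W) ^ k j / ((k j).factorial : ℝ) := ⟨_, rfl⟩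
  rw [← hM, ← hW, ← hE]
  have h1 : (M : ℝ) * ∑ H ∈ Fam a b k, Vq (QH Q (GG B H)) w =
      ∑ m ∈ range M, (if ∀ h ∈ B, Sf Q w (m + h) then (1 : ℝ) else 0) *
        ∏ j, ((((Ioc (a j) (b j)).filter (fun h => Sf Q w (m + h))).card.choose (k j) : ℕ) : ℝ) := by
    rw [Finset.mul_sum]
    have h2 : ∀ H ∈ Fam a b k, (M : ℝ) * Vq (QH Q (GG B H)) w =
        ∑ m ∈ range M, if (∀ h ∈ GG B H, Sf Q w (m + h)) then (1 : ℝ) else 0 := by
      intro H _
      rw [hM, ← exact (QH Q (GG B H)) _ (perB_QH Q c hQ (GG B H)) w]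
      rw [Finset.sum_ite, Finset.sum_const_zero, add_zero, Finset.sum_const, nsmul_eq_mul, mul_one]
      congr 2
      apply Finset.filter_congr
      intro m _
      exact sf_QH Q (GG B H) w m
    rw [Finset.sum_congr rfl h2, Finset.sum_comm]
    apply Finset.sum_congr rfl
    intro m _
    exact count_fam B a b k (fun h => Sf Q w (m + h))
  have h2 : ∑ m ∈ range M, (if ∀ h ∈ B, Sf Q w (m + h) then (1 : ℝ) else 0) = M * W ^ B.card := by
    have h3 := exact (QH Q B) _ (perB_QH Q c hQ B) w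
    rw [Vq_base Q c hQ B hw.card, ← hM, ← hW] at h3
    rw [← h3, Finset.sum_ite, Finset.sum_const_zero, add_zero, Finset.sum_const, nsmul_eq_mul, mul_one]
    congr 2
    apply Finset.filter_congr
    intro m _
    exact (sf_QH Q B w m).symm
  have h3 : ∀ m ∈ range M,
      T * |∏ j, ((((Ioc (a j) (b j)).filter (fun h => Sf Q w (m + h))).card.choose (k j) : ℕ) : ℝ) - E| ≤
        (∑ j, (k j : ℝ) * (M + k j)) * (T : ℝ) ^ (∑ j, k j) := by
    intro m _
    rw [hE, ← Finset.prod_pow_eq_pow_sum]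
    have hl : ∀ j, ((b j - a j : ℕ) : ℝ) ≤ T := by
      intro j
      have := hw.bT j
      exact_mod_cast (by omega : b j - a j ≤ T)
    have hN : ∀ j, ((((Ioc (a j) (b j)).filter (fun h => Sf Q w (m + h))).card : ℕ) : ℝ) ≤ T := by
      intro j
      refine le_trans ?_ (hl j)
      have := Finset.card_filter_le (Ioc (a j) (b j)) (fun h => Sf Q w (m + h))
      rw [Nat.card_Ioc] at this
      exact_mod_cast this
    have hx : ∀ j, 0 ≤ ((b j - a j : ℕ) : ℝ) * W := fun j => by positivity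
    have hxT : ∀ j, ((b j - a j : ℕ) : ℝ) * W ≤ T := fun j =>
      (mul_le_of_le_one_right (Nat.cast_nonneg _) hW1).trans (hl j)
    apply prod_close
    · exact hT0
    · intro j _
      positivity
    · intro j _
      have h1 : ((((Ioc (a j) (b j)).filter (fun h => Sf Q w (m + h))).card.choose (k j) : ℕ) : ℝ) ≤
          ((((Ioc (a j) (b j)).filter (fun h => Sf Q w (m + h))).card : ℕ) : ℝ) ^ k j := by
        exact_mod_cast Nat.choose_le_pow _ _
      exact h1.trans (pow_le_pow_left₀ (Nat.cast_nonneg _) (hN j) _)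
    · intro j _
      have := hx j
      positivity
    · intro j _
      have hf1 : (1 : ℝ) ≤ (k j).factorial := by exact_mod_cast Nat.factorial_pos (k j)
      have := hx j
      exact (div_le_self (by positivity) hf1).trans (pow_le_pow_left₀ this (hxT j) _)
    · intro j _
      apply choose_close _ _ _ _ _ hMr.le hT0 _ (hx j) (hxT j) (hN j)
      have := window' Q c hQ w m (a j) (b j)
      rwa [← hM, ← hW] at this
  have h4 : (M : ℝ) * (T * |∑ H ∈ Fam a b k, Vq (QH Q (GG B H)) w - W ^ B.card * E|) ≤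
      M * ((∑ j, (k j : ℝ) * (M + k j)) * (W ^ B.card * (T : ℝ) ^ (∑ j, k j))) := by
    have e1 : (M : ℝ) * (T * |∑ H ∈ Fam a b k, Vq (QH Q (GG B H)) w - W ^ B.card * E|) =
        T * |(M : ℝ) * ∑ H ∈ Fam a b k, Vq (QH Q (GG B H)) w - (M * W ^ B.card) * E| := by
      rw [mul_assoc (M : ℝ), ← mul_sub, abs_mul, abs_of_pos hMr]
      ring
    rw [e1, h1, ← h2, Finset.sum_mul, ← Finset.sum_sub_distrib]
    calc (T : ℝ) * |∑ m ∈ range M, ((if ∀ h ∈ B, Sf Q w (m + h) then (1 : ℝ) else 0) *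
          ∏ j, ((((Ioc (a j) (b j)).filter (fun h => Sf Q w (m + h))).card.choose (k j) : ℕ) : ℝ) -
          (if ∀ h ∈ B, Sf Q w (m + h) then (1 : ℝ) else 0) * E)| ≤
        T * ∑ m ∈ range M, |((if ∀ h ∈ B, Sf Q w (m + h) then (1 : ℝ) else 0) *
          ∏ j, ((((Ioc (a j) (b j)).filter (fun h => Sf Q w (m + h))).card.choose (k j) : ℕ) : ℝ) -
          (if ∀ h ∈ B, Sf Q w (m + h) then (1 : ℝ) else 0) * E)| :=
          mul_le_mul_of_nonneg_left (Finset.abs_sum_le_sum_abs _ _) hT0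
      _ = ∑ m ∈ range M, (if ∀ h ∈ B, Sf Q w (m + h) then (1 : ℝ) else 0) *
          (T * |∏ j, ((((Ioc (a j) (b j)).filter (fun h => Sf Q w (m + h))).card.choose (k j) : ℕ) : ℝ) -
            E|) := by
          rw [Finset.mul_sum]
          apply Finset.sum_congr rfl
          intro m _
          rw [← mul_sub, abs_mul]
          have : |(if ∀ h ∈ B, Sf Q w (m + h) then (1 : ℝ) else 0)| =
              (if ∀ h ∈ B, Sf Q w (m + h) then (1 : ℝ) else 0) := by
            split_ifs <;> simp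
          rw [this]
          ring
      _ ≤ ∑ m ∈ range M, (if ∀ h ∈ B, Sf Q w (m + h) then (1 : ℝ) else 0) *
          ((∑ j, (k j : ℝ) * (M + k j)) * (T : ℝ) ^ (∑ j, k j)) := by
          apply Finset.sum_le_sum
          intro m hm
          apply mul_le_mul_of_nonneg_left (h3 m hm)
          split_ifs <;> norm_num
      _ = _ := by
          rw [← Finset.sum_mul, h2]
          ring
  exact le_of_mul_le_mul_left h4 hMr

open Classical in
lemma Fp_mono (Q : ℕ → ℕ → Prop) (K K' w y t : ℕ) (h : K ≤ K') : Fp Q K w y t ≤ Fp Q K' w y t := by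
  unfold Fp
  apply Finset.prod_le_prod
  · intro p _
    positivity
  · intro p _
    have : (K : ℝ) ≤ K' := by exact_mod_cast h
    have hp : (0 : ℝ) ≤ p := Nat.cast_nonneg p
    have := div_le_div_of_nonneg_right this hp
    linarith

open Classical in
/-- **The average of the singular series** over a base point and several windows. -/
theorem sing_multi (c : ℕ) (k : Fin J → ℕ) (η : ℝ) (hη : 0 < η) (hη1 : η ≤ 1) :
    ∃ (w : ℕ) (η' : ℝ) (T0 : ℕ), 0 < η' ∧ ∀ T : ℕ, T0 ≤ T → ∀ Q : ℕ → ℕ → Prop, PerB Q c →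
      (∀ p : ℕ, p.Prime → nuB Q p < p) → ∀ y : ℕ, w ≤ y →
      (∀ t ∈ Icc 1 T, ((((pz y).filter (fun p : ℕ => T < p ∧ CoG Q p t)).card : ℕ) : ℝ) ≤ η' * T) →
      ∀ (B : Finset ℕ) (a b : Fin J → ℕ), Win T B a b →
      |∑ H ∈ Fam a b k, Vq (QH Q (GG B H)) y -
        Vq Q y ^ B.card * ∏ j, (((b j - a j : ℕ) : ℝ) * Vq Q y) ^ k j / (k j).factorial| ≤
        η * (Vq Q y ^ B.card * (T * Vq Q y) ^ (∑ j, k j)) := by
  obtain ⟨c1, B1, w1, hc1, hw12, hW⟩ := W_low c
  obtain ⟨n, hn⟩ : ∃ n, n = ∑ j, k j := ⟨_, rfl⟩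
  obtain ⟨K, hK⟩ : ∃ K : ℕ, K = (1 + 2 * ((n + 1) * c)) ^ ((n + 1) ^ 2) - 1 := ⟨_, rfl⟩
  obtain ⟨A, hA⟩ : ∃ A : ℕ, A = 36 * (K * c ^ 2 + 1) + ((n + 1) * c) ^ 2 := ⟨_, rfl⟩
  obtain ⟨w, hw0, hw2, hAw, hAw'⟩ := exists_w A B1 (n + 1) c1 (η / 4) hc1 (by positivity)
    (max w1 (2 * ((n + 1) * c)))
  have hww1 : w1 ≤ w := (le_max_left _ _).trans hw0
  have hwc : 2 * ((n + 1) * c) ≤ w := (le_max_right _ _).trans hw0
  have hwr : (0 : ℝ) < w := by exact_mod_cast (by omega : 0 < w)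
  have hlog : 0 < Real.log w := Real.log_pos (by exact_mod_cast (by omega : 1 < w))
  obtain ⟨η1, hη1def⟩ : ∃ η1 : ℝ, η1 = ((K * c ^ 2 + 1 : ℕ) : ℝ) / w := ⟨_, rfl⟩
  have hη10 : 0 < η1 := by rw [hη1def]; positivity
  have hAge : 36 * η1 ≤ (A : ℝ) / w := by
    rw [hη1def, le_div_iff₀ hwr]
    have : ((36 * (K * c ^ 2 + 1) : ℕ) : ℝ) ≤ A := by
      exact_mod_cast (by omega : 36 * (K * c ^ 2 + 1) ≤ A)
    refine le_trans (le_of_eq ?_) this
    push_cast
    field_simp
  have hAge2 : (((n + 1) * c : ℕ) : ℝ) ^ 2 / w ≤ η / 4 := by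
    refine le_trans ?_ hAw'
    apply div_le_div_of_nonneg_right _ hwr.le
    exact_mod_cast (by omega : ((n + 1) * c) ^ 2 ≤ A)
  have hη1le : η1 ≤ 1 := by linarith
  obtain ⟨T1, hT1, havg⟩ := avg_sharp K (c ^ 2) w (by omega) η1 hη10 (by
    rw [hη1def]
    apply div_le_div_of_nonneg_right _ hwr.le
    push_cast
    linarith)
  obtain ⟨D, hD0, hsmall⟩ := small_multi k w
  obtain ⟨W0, hW0⟩ : ∃ W0 : ℝ, W0 = c1 / Real.log w ^ B1 := ⟨_, rfl⟩
  have hW0pos : 0 < W0 := by rw [hW0]; positivity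
  rw [← hW0] at hAw
  obtain ⟨T2, hT2⟩ : ∃ T2 : ℕ, D / (η / 4 * W0 ^ n) ≤ T2 := exists_nat_ge _
  refine ⟨w, η1 / (K + 1), max (max T1 T2) 1, by positivity, ?_⟩
  intro T hT Q hQ hadm y hwy hlarge B a b hwin
  have hT1' : T1 ≤ T := (le_max_left _ _).trans ((le_max_left _ _).trans hT)
  have hT2' : T2 ≤ T := (le_max_right _ _).trans ((le_max_left _ _).trans hT)
  have hT1'' : 1 ≤ T := (le_max_right _ _).trans hT
  have hTpos : (0 : ℝ) < T := by exact_mod_cast hT1''
  have hWpos := Vq_pos Q hadm w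
  have hWW := hW w hww1 Q hQ hadm
  have hs := hsmall T Q c hQ B a b hwin
  obtain ⟨W, hWdef⟩ : ∃ W, W = Vq Q w := ⟨_, rfl⟩
  obtain ⟨V, hV⟩ : ∃ V, V = Vt Q w y := ⟨_, rfl⟩
  have hV0 : 0 ≤ V := by rw [hV]; exact Vt_nonneg Q w y
  rw [← hWdef, ← hW0] at hWW
  have hW1 : W ≤ 1 := by rw [hWdef]; exact Vq_le_one Q w
  rw [← hWdef] at hs hWpos
  rw [Vq_split Q w y hwy, ← hWdef, ← hV]
  obtain ⟨E, hE⟩ : ∃ E : ℝ, E = ∏ j, (((b j - a j : ℕ) : ℝ) * W) ^ k j / ((k j).factorial : ℝ) := ⟨_, rfl⟩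
  rw [← hE, ← hn] at hs
  rw [← hn]
  have hE0 : 0 ≤ E := by rw [hE]; positivity
  have hElt : E ≤ (T * W) ^ n := by
    rw [hE, hn, ← Finset.prod_pow_eq_pow_sum]
    apply Finset.prod_le_prod
    · intro j _
      positivity
    · intro j _
      have hf1 : (1 : ℝ) ≤ (k j).factorial := by exact_mod_cast Nat.factorial_pos (k j)
      have hl : ((b j - a j : ℕ) : ℝ) ≤ T := by
        have := hwin.bT j
        exact_mod_cast (by omega : b j - a j ≤ T)
      refine (div_le_self (by positivity) hf1).trans (pow_le_pow_left₀ (by positivity) ?_ _)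
      exact mul_le_mul_of_nonneg_right hl hWpos.le
  have e0 : ∏ j, (((b j - a j : ℕ) : ℝ) * (W * V)) ^ k j / ((k j).factorial : ℝ) = V ^ n * E := by
    rw [hE, hn, ← Finset.prod_pow_eq_pow_sum, ← Finset.prod_mul_distrib]
    apply Finset.prod_congr rfl
    intro j _
    rw [← mul_assoc, mul_pow _ V]
    ring
  rw [e0]
  obtain ⟨β, hβ⟩ : ∃ β, β = B.card := ⟨_, rfl⟩
  have hβ1 : β ≤ 1 := by rw [hβ]; exact hwin.card
  rw [← hβ] at hs ⊢
  have e1 : (W * V) ^ β * (V ^ n * E) = V ^ (β + n) * (W ^ β * E) := by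
    rw [mul_pow, pow_add]
    ring
  have e2 : (W * V) ^ β * (T * (W * V)) ^ n = V ^ (β + n) * (W ^ β * (T * W) ^ n) := by
    rw [← mul_assoc (T : ℝ), mul_pow W, mul_pow _ V, pow_add]
    ring
  rw [e1, e2]
  have hVk : 0 ≤ V ^ (β + n) := by positivity
  obtain ⟨S, hS⟩ : ∃ S, S = ∑ H ∈ Fam a b k, Vq (QH Q (GG B H)) w := ⟨_, rfl⟩
  rw [← hS] at hs
  have hcard : ∀ H ∈ Fam a b k, (GG B H).card = β + n := fun H hH => by
    rw [GG_card hwin hH, hβ, hn]
  -- the local part
  have hWβ : 0 < W ^ β := by positivity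
  have hX : W ^ n * (T : ℝ) ^ n = (T * W) ^ n := by rw [mul_pow]; ring
  have hs' : |S - W ^ β * E| ≤ η / 4 * (W ^ β * (T * W) ^ n) := by
    have h1 : D ≤ η / 4 * W ^ n * T := by
      have h2 : D / (η / 4 * W0 ^ n) ≤ T := hT2.trans (by exact_mod_cast hT2')
      rw [div_le_iff₀ (by positivity)] at h2
      calc D ≤ T * (η / 4 * W0 ^ n) := h2
        _ ≤ T * (η / 4 * W ^ n) := by gcongr
        _ = _ := by ring
    have h2 : T * |S - W ^ β * E| ≤ T * (η / 4 * (W ^ β * (T * W) ^ n)) := by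
      refine hs.trans ?_
      calc D * (W ^ β * (T : ℝ) ^ n) ≤ (η / 4 * W ^ n * T) * (W ^ β * (T : ℝ) ^ n) :=
            mul_le_mul_of_nonneg_right h1 (by positivity)
        _ = T * (η / 4 * (W ^ β * (W ^ n * (T : ℝ) ^ n))) := by ring
        _ = _ := by rw [hX]
    exact le_of_mul_le_mul_left h2 hTpos
  obtain ⟨s1, s2⟩ := abs_le.1 hs'
  have hterm : ∀ H ∈ Fam a b k, Vq (QH Q (GG B H)) y = Vq (QH Q (GG B H)) w * Vt (QH Q (GG B H)) w y :=
    fun H _ => Vq_split _ w y hwy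
  have hbn : 2 * ((β + n) * c) ≤ w := by
    refine le_trans ?_ hwc
    have : β + n ≤ n + 1 := by omega
    exact Nat.mul_le_mul_left 2 (Nat.mul_le_mul_right c this)
  have hXX : 0 ≤ W ^ β * (T * W) ^ n := by positivity
  rw [abs_le]
  constructor
  · -- lower bound
    have h1 : ∀ H ∈ Fam a b k, V ^ (β + n) * (1 - η / 4) * Vq (QH Q (GG B H)) w ≤ Vq (QH Q (GG B H)) y := by
      intro H hH
      rw [hterm H hH]
      have h2 := tail_lo Q c hQ (GG B H) w y (by omega) (by rw [hcard H hH]; exact hbn)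
      rw [hcard H hH, ← hV] at h2
      have h3 : V ^ (β + n) * (1 - η / 4) ≤ Vt (QH Q (GG B H)) w y := by
        refine le_trans ?_ h2
        apply mul_le_mul_of_nonneg_left _ hVk
        have h4 : (((β + n) * c : ℕ) : ℝ) ^ 2 / w ≤ (((n + 1) * c : ℕ) : ℝ) ^ 2 / w := by
          apply div_le_div_of_nonneg_right _ hwr.le
          apply pow_le_pow_left₀ (Nat.cast_nonneg _)
          exact_mod_cast Nat.mul_le_mul_right c (by omega : β + n ≤ n + 1)
        linarith
      calc V ^ (β + n) * (1 - η / 4) * Vq (QH Q (GG B H)) w ≤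
            Vt (QH Q (GG B H)) w y * Vq (QH Q (GG B H)) w :=
            mul_le_mul_of_nonneg_right h3 (Vq_nonneg _ w)
        _ = _ := mul_comm _ _
    have h2 := Finset.sum_le_sum h1
    rw [← Finset.mul_sum, ← hS] at h2
    have h3 : V ^ (β + n) * (W ^ β * E - η * (W ^ β * (T * W) ^ n)) ≤ V ^ (β + n) * ((1 - η / 4) * S) := by
      apply mul_le_mul_of_nonneg_left _ hVk
      have h4 : (1 - η / 4) * (W ^ β * E - η / 4 * (W ^ β * (T * W) ^ n)) ≤ (1 - η / 4) * S := by
        apply mul_le_mul_of_nonneg_left _ (by linarith)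
        linarith
      have h5 : W ^ β * E ≤ W ^ β * (T * W) ^ n := mul_le_mul_of_nonneg_left hElt hWβ.le
      have h6 : η / 4 * (W ^ β * E) ≤ η / 4 * (W ^ β * (T * W) ^ n) :=
        mul_le_mul_of_nonneg_left h5 (by positivity)
      have h7 : 0 ≤ η / 4 * (η / 4 * (W ^ β * (T * W) ^ n)) := by positivity
      have h8 : 0 ≤ η * (W ^ β * (T * W) ^ n) := by positivity
      linarith
    linarith
  · -- upper bound
    have h1 : ∀ H ∈ Fam a b k, Vq (QH Q (GG B H)) y ≤
        V ^ (β + n) * (Vq (QH Q (GG B H)) w + ∑ x ∈ prs (GG B H), (Fp Q K w y (x.2 - x.1) - 1)) := by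
      intro H hH
      rw [hterm H hH]
      have h2 := tail_up Q c hQ (GG B H) w y (by rw [hcard H hH]; exact hbn)
      rw [hcard H hH, ← hV] at h2
      have hKK : (1 + 2 * ((β + n) * c)) ^ ((β + n) ^ 2) - 1 ≤ K := by
        rw [hK]
        apply Nat.sub_le_sub_right
        have h3 : β + n ≤ n + 1 := by omega
        have h4 : 1 + 2 * ((β + n) * c) ≤ 1 + 2 * ((n + 1) * c) :=
          Nat.add_le_add_left (Nat.mul_le_mul_left 2 (Nat.mul_le_mul_right c h3)) 1
        exact (Nat.pow_le_pow_left h4 _).trans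
          (Nat.pow_le_pow_right (by omega) (Nat.pow_le_pow_left h3 2))
      have h2' : Vt (QH Q (GG B H)) w y ≤ V ^ (β + n) *
          (1 + ∑ x ∈ prs (GG B H), (Fp Q K w y (x.2 - x.1) - 1)) := by
        refine h2.trans ?_
        apply mul_le_mul_of_nonneg_left _ hVk
        gcongr
        apply Fp_mono
        exact hKK
      have h3 : 0 ≤ ∑ x ∈ prs (GG B H), (Fp Q K w y (x.2 - x.1) - 1) := by
        apply Finset.sum_nonneg
        intro x _
        have := Fp_ge Q K w y (x.2 - x.1)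
        linarith
      have h4 := Vq_nonneg (QH Q (GG B H)) w
      have h5 := Vq_le_one (QH Q (GG B H)) w
      calc Vq (QH Q (GG B H)) w * Vt (QH Q (GG B H)) w y ≤ Vq (QH Q (GG B H)) w * (V ^ (β + n) *
            (1 + ∑ x ∈ prs (GG B H), (Fp Q K w y (x.2 - x.1) - 1))) := mul_le_mul_of_nonneg_left h2' h4
        _ = V ^ (β + n) * (Vq (QH Q (GG B H)) w +
            Vq (QH Q (GG B H)) w * ∑ x ∈ prs (GG B H), (Fp Q K w y (x.2 - x.1) - 1)) := by ring
        _ ≤ _ := by
          apply mul_le_mul_of_nonneg_left _ hVk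
          have := mul_le_mul_of_nonneg_right h5 h3
          linarith
    have h2 := Finset.sum_le_sum h1
    rw [← Finset.mul_sum, Finset.sum_add_distrib, ← hS] at h2
    have h3 := sum_pairs (k := k) hwin (fun t => Fp Q K w y t - 1) (fun t => by
      have := Fp_ge Q K w y t
      linarith)
    rw [← hn] at h3
    have h4 := havg T hT1' (CoG Q) (coll_gen Q c hQ w) y (η1 / (K + 1)) (by positivity) (by
      rw [← mul_div_assoc, div_le_iff₀ (by positivity)]
      have : (0 : ℝ) ≤ K := Nat.cast_nonneg K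
      nlinarith) hlarge
    have h5 : ∑ t ∈ Icc 1 T, (Fp Q K w y t - 1) ≤ 12 * η1 * T := by
      rw [Finset.sum_sub_distrib, Finset.sum_const, Nat.card_Icc, Nat.add_sub_cancel, nsmul_eq_mul,
        mul_one]
      have h6 := exp_bound η1 hη10.le hη1le
      have h7 := mul_le_mul_of_nonneg_right h6 hTpos.le
      unfold Fp
      linarith
    have h6 : ∑ H ∈ Fam a b k, ∑ x ∈ prs (GG B H), (Fp Q K w y (x.2 - x.1) - 1) ≤
        η / 4 * (W ^ β * (T * W) ^ n) := by
      have h7 : (T : ℝ) * ∑ H ∈ Fam a b k, ∑ x ∈ prs (GG B H), (Fp Q K w y (x.2 - x.1) - 1) ≤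
          T * (36 * η1 * (T : ℝ) ^ n) := by
        calc _ ≤ 3 * (T : ℝ) ^ n * ∑ t ∈ Icc 1 T, (Fp Q K w y t - 1) := h3
          _ ≤ 3 * (T : ℝ) ^ n * (12 * η1 * T) := mul_le_mul_of_nonneg_left h5 (by positivity)
          _ = _ := by ring
      have h8 := le_of_mul_le_mul_left h7 hTpos
      refine h8.trans ?_
      calc 36 * η1 * (T : ℝ) ^ n ≤ (η / 4 * W0 ^ (n + 1)) * (T : ℝ) ^ n :=
            mul_le_mul_of_nonneg_right (hAge.trans hAw) (by positivity)
        _ ≤ (η / 4 * W ^ (β + n)) * (T : ℝ) ^ n := by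
            apply mul_le_mul_of_nonneg_right _ (by positivity)
            apply mul_le_mul_of_nonneg_left _ (by positivity)
            calc W0 ^ (n + 1) ≤ W ^ (n + 1) := pow_le_pow_left₀ hW0pos.le hWW _
              _ ≤ W ^ (β + n) := pow_le_pow_of_le_one hWpos.le hW1 (by omega)
        _ = _ := by
            rw [mul_pow, pow_add]
            ring
    have h9 : V ^ (β + n) * (S + ∑ H ∈ Fam a b k, ∑ x ∈ prs (GG B H), (Fp Q K w y (x.2 - x.1) - 1)) ≤
        V ^ (β + n) * (W ^ β * E + η * (W ^ β * (T * W) ^ n)) := by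
      apply mul_le_mul_of_nonneg_left _ hVk
      have : 0 ≤ η * (W ^ β * (T * W) ^ n) := by positivity
      linarith
    linarith

end Pool.Agent.U832.RG
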