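import Pool.Agent.U832.RG.TupUse

/-!
# Admissibility of constellations
-/

set_option autoImplicit false

namespace Pool.Agent.U832.RG

open Finset Filter

lemma wT_lt_of (H : Finset ℤ) (p : ℕ) (hp : p.Prime) (m : ℤ) (h : ∀ h ∈ H, ¬ (p : ℤ) ∣ m + h) : wT H p < p := by
  classical
  have hp0 : (0 : ℤ) < p := by exact_mod_cast hp.pos
  have h1 : (((m % (p : ℤ)).toNat : ℕ) : ℤ) = m % p := Int.toNat_of_nonneg (Int.emod_nonneg _ hp0.ne')
  have h2 : ∀ e ∈ H, ¬ (p : ℤ) ∣ (((m % (p : ℤ)).toNat : ℕ) : ℤ) + e := by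
    intro e he hd
    apply h e he
    rw [h1] at hd
    have h3 : (p : ℤ) ∣ m - m % p := Int.dvd_self_sub_emod
    have h4 := dvd_add hd h3
    rwa [show m % (p : ℤ) + e + (m - m % (p : ℤ)) = m + e by ring] at h4
  have h3 : (m % (p : ℤ)).toNat < p := by
    have := Int.emod_lt_of_pos m hp0
    omega
  unfold wT
  refine lt_of_lt_of_eq (Finset.card_lt_card (filter_ssubset.2 ⟨(m % (p : ℤ)).toNat, mem_range.2 h3, ?_⟩))
    (card_range p)
  rintro ⟨e, he, hd⟩
  exact h2 e he hd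

lemma wT_le_card (H : Finset ℤ) (p : ℕ) (hp : p.Prime) : wT H p ≤ H.card := by
  classical
  have hp0 : (0 : ℤ) < p := by exact_mod_cast hp.pos
  refine le_trans (Finset.card_le_card (t := H.image (fun h => ((-h) % (p : ℤ)).toNat)) ?_) card_image_le
  intro m hm
  rw [mem_filter, mem_range] at hm
  obtain ⟨hm, e, he, hd⟩ := hm
  rw [mem_image]
  refine ⟨e, he, ?_⟩
  have h1 : -e ≡ m [ZMOD p] := by
    rw [Int.modEq_iff_dvd, sub_neg_eq_add]
    exact hd
  have h2 : (-e) % (p : ℤ) = (m : ℤ) % p := h1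
  rw [h2, Int.emod_eq_of_lt (Nat.cast_nonneg m) (by exact_mod_cast hm)]
  exact Int.toNat_natCast m

/-- the primes larger than the number of shifts are harmless -/
lemma adm_of (H : Finset ℤ) (k : ℕ) (hk : H.card ≤ k)
    (h : ∀ p : ℕ, p.Prime → p ≤ k → ∃ m : ℤ, ∀ h ∈ H, ¬ (p : ℤ) ∣ m + h) :
    ∀ p : ℕ, p.Prime → wT H p < p := by
  intro p hp
  by_cases hpk : p ≤ k
  · obtain ⟨m, hm⟩ := h p hp hpk
    exact wT_lt_of H p hp m hm
  · have := wT_le_card H p hp
    omega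

end Pool.Agent.U832.RG
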