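import Pool.Agent.U832.RG.LinLaw

/-!
# Constellations `n + h`, `h ∈ H`, uniformly in `H`
-/

set_option autoImplicit false

namespace Pool.Agent.U832.RG

open Finset Filter

/-- The `n ≥ 0` such that none of the numbers `n + h`, `h ∈ H`, has a prime factor `≤ y`. -/
def RoughT (H : Finset ℤ) (y : ℕ) : Set ℕ := {n | ∀ p : ℕ, p.Prime → p ≤ y → ∀ h ∈ H, ¬ (p : ℤ) ∣ (n : ℤ) + h}

open Classical in
/-- The number of the `n` modulo `p` for which `p` divides some `n + h`, `h ∈ H`. -/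
noncomputable def wT (H : Finset ℤ) (p : ℕ) : ℕ :=
  ((range p).filter (fun n : ℕ => ∃ h ∈ H, (p : ℤ) ∣ (n : ℤ) + h)).card

/-- The product of `1 - wT H p / p` over the primes `p ≤ y`. -/
noncomputable def VT (H : Finset ℤ) (y : ℕ) : ℝ := ∏ p ∈ (Icc 1 y).filter Nat.Prime, (1 - (wT H p : ℝ) / p)

open Pool.Agent.W123.RP Pool.Agent.H373R2.T7 Pool.Agent.W123.RU Pool.Agent.W123.RU.Poly
open Pool.Agent.TH464.PW Pool.Agent.TH464.PO Pool.Agent.Y879.GL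

/-- the constant terms -/
noncomputable def tb (H : Finset ℤ) (k : ℕ) (hk : H.card = k) : Fin k → ℤ := fun i => H.orderEmbOfFin hk i

lemma tb_mem (H : Finset ℤ) (k : ℕ) (hk : H.card = k) (i : Fin k) : tb H k hk i ∈ H :=
  H.orderEmbOfFin_mem hk i

lemma tb_surj (H : Finset ℤ) (k : ℕ) (hk : H.card = k) (h : ℤ) (hh : h ∈ H) : ∃ i, tb H k hk i = h := by
  have h1 := H.range_orderEmbOfFin hk
  have h2 : h ∈ Set.range (H.orderEmbOfFin hk) := by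
    rw [h1]
    exact hh
  exact h2

lemma tb_Q (H : Finset ℤ) (k : ℕ) (hk : H.card = k) (p m : ℕ) :
    Q (ls (fun _ => 1) (tb H k hk)) p m ↔ ∃ h ∈ H, (p : ℤ) ∣ (m : ℤ) + h := by
  rw [ls_Q]
  constructor
  · rintro ⟨i, hi⟩
    rw [one_mul] at hi
    exact ⟨_, tb_mem H k hk i, hi⟩
  · rintro ⟨h, hh, hd⟩
    obtain ⟨i, hi⟩ := tb_surj H k hk h hh
    refine ⟨i, ?_⟩
    rw [hi, one_mul]
    exact hd

lemma pz_eqT (y : ℕ) : pz y = (Icc 1 y).filter Nat.Prime := by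
  ext p
  rw [Pool.Agent.H373R2.T7.mem_pz, mem_filter, mem_Icc]
  constructor
  · exact fun h => ⟨⟨h.2.one_lt.le, h.1⟩, h.2⟩
  · exact fun h => ⟨h.1.2, h.2⟩

lemma tb_rough (H : Finset ℤ) (k : ℕ) (hk : H.card = k) (y m : ℕ) :
    m ∈ RoughT H y ↔ Sf (Q (ls (fun _ => 1) (tb H k hk))) y m := by
  constructor
  · intro h p hp
    rw [tb_Q]
    push Not
    have hp' := Pool.Agent.H373R2.T7.mem_pz.1 hp
    exact h p hp'.2 hp'.1
  · intro h p hp hpy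
    have h1 := h p (Pool.Agent.H373R2.T7.mem_pz.2 ⟨hpy, hp⟩)
    rw [tb_Q] at h1
    push Not at h1
    exact h1

lemma tb_w (H : Finset ℤ) (k : ℕ) (hk : H.card = k) (p : ℕ) :
    nuB (Q (ls (fun _ => 1) (tb H k hk))) p = wT H p := by
  classical
  unfold nuB wT
  congr 1
  ext m
  rw [mem_filter, mem_filter, tb_Q]

lemma tb_V (H : Finset ℤ) (k : ℕ) (hk : H.card = k) (y : ℕ) :
    Vq (Q (ls (fun _ => 1) (tb H k hk))) y = VT H y := by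
  unfold Vq VT
  rw [pz_eqT]
  apply Finset.prod_congr rfl
  intro p _
  rw [tb_w]

lemma tb_LF (H : Finset ℤ) (k : ℕ) (hk : H.card = k) (hadm : ∀ p : ℕ, p.Prime → wT H p < p) :
    LF (fun _ => 1) (tb H k hk) where
  pos _ := one_pos
  dist i j _ h := (H.orderEmbOfFin hk).injective h
  cop _ := isCoprime_one_left
  adm p hp := by
    obtain ⟨m, _, hm⟩ := nu_exists (Q (ls (fun _ => 1) (tb H k hk))) p (by rw [tb_w]; exact hadm p hp)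
    refine ⟨m, fun i hi => hm ?_⟩
    rw [ls_Q]
    exact ⟨i, hi⟩

/-- **The joint law and regular points for constellations, uniformly in the constellation.** -/
theorem tup_main (k : ℕ) (hk : 2 ≤ k) (A θ : ℝ) (hA : 0 < A) (hθ : 0 < θ) :
    (∀ (J L : ℕ) (x₀ ε : ℝ), 0 < ε → ∃ r₀ : ℕ, ∀ r : ℕ, r₀ ≤ r → ∀ᶠ x : ℕ in atTop,
      ∀ y : ℕ, y = ⌊(x : ℝ) ^ (1 / (r : ℝ))⌋₊ → ∀ H : Finset ℤ, H.card = k →
      (∀ h ∈ H, |(h : ℝ)| ≤ (x : ℝ) ^ A) → (∀ p : ℕ, p.Prime → wT H p < p) →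
      ∀ Z Y T : ℕ, (x : ℝ) ^ θ ≤ Y → T * VT H y ≤ x₀ → PoissonLaw (RoughT H y) (VT H y) J L ε Z Y T) ∧
    ∃ r₀ : ℕ, 2 ≤ r₀ ∧ ∀ r : ℕ, r₀ ≤ r → ∀ ε : ℝ, 0 < ε → ∃ κ : ℝ, 0 < κ ∧ ∀ δ : ℝ, 0 < δ →
      ∃ M : ℕ, ∀ᶠ x : ℕ in atTop, ∀ y : ℕ, y = ⌊(x : ℝ) ^ (1 / (r : ℝ))⌋₊ → ∀ H : Finset ℤ, H.card = k →
      (∀ h ∈ H, |(h : ℝ)| ≤ (x : ℝ) ^ A) → (∀ p : ℕ, p.Prime → wT H p < p) →
      ∀ u Y : ℕ, (x : ℝ) ^ θ ≤ Y → Y ≤ x → Y ≤ u → ∀ S : Set ℕ, S ⊆ RoughT H y →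
        (count (Irregular S (1 / VT H y) κ δ M Y) u (u + Y) : ℝ) ≤ ε * (Y * VT H y) := by
  constructor
  · intro J L x₀ ε hε
    obtain ⟨r₀, h⟩ := law_lin k hk A θ hA hθ J L x₀ ε hε
    refine ⟨r₀, fun r hr => ?_⟩
    filter_upwards [h r hr, eventually_ge_atTop 1] with x hx hx1
    intro y hy H hH hHx hadm Z Y T hY hT
    have h1 : (1 : ℝ) ≤ (x : ℝ) ^ A := Real.one_le_rpow (by exact_mod_cast hx1) hA.le
    have h4 := hx (fun _ => 1) (tb H k hH) (tb_LF H k hH hadm) (fun _ => by rw [Int.cast_one, abs_one]; exact h1)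
      (fun i => hHx _ (tb_mem H k hH i)) Z Y hY T
    rw [← hy, tb_V] at h4
    exact h4 hT (RoughT H y) (fun m _ => tb_rough H k hH y m)
  · obtain ⟨r₀, hr₀, h⟩ := her_lin k hk A θ hA hθ
    refine ⟨r₀, hr₀, fun r hr ε hε => ?_⟩
    obtain ⟨κ, hκ, h1⟩ := h r hr ε hε
    refine ⟨κ, hκ, fun δ hδ => ?_⟩
    obtain ⟨M, h2⟩ := h1 δ hδ
    refine ⟨M, ?_⟩
    filter_upwards [h2, eventually_ge_atTop 1] with x hx hx1
    intro y hy H hH hHx hadm u Y hY hYx hYu S hS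
    have h1 : (1 : ℝ) ≤ (x : ℝ) ^ A := Real.one_le_rpow (by exact_mod_cast hx1) hA.le
    have h3 := hx (fun _ => 1) (tb H k hH) (tb_LF H k hH hadm) (fun _ => by rw [Int.cast_one, abs_one]; exact h1)
      (fun i => hHx _ (tb_mem H k hH i)) u Y hY hYx hYu S
      (fun m hm => by rw [← hy]; exact (tb_rough H k hH y m).1 (hS hm))
    rw [← hy, tb_V] at h3
    exact h3

end Pool.Agent.U832.RG
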